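import Pool.Agent.Lib.MP_aab329_nt.Defs
import Pool.Agent.Lib.MP_14ee70_nt.Div

set_option autoImplicit false

namespace Pool.MP_aab329_nt.SerreR

open Polynomial Pool.MP_aab329_nt.SerreP

private theorem sqfree_eq {s s' : ℕ} (hs : Squarefree s) (hs' : Squarefree s')
    (h : IsSquare (s * s')) : s = s' := by
  obtain ⟨t, ht⟩ := h
  have h1 : s ∣ t := by
    rw [← hs.dvd_pow_iff_dvd (n := 2) (by norm_num)]
    exact ⟨s', by rw [sq]; exact ht.symm⟩
  obtain ⟨r, rfl⟩ := h1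
  have hs0 : 0 < s := Nat.pos_of_ne_zero hs.ne_zero
  have h2 : s' = s * (r * r) := by
    apply Nat.eq_of_mul_eq_mul_left hs0
    rw [ht]; ring
  have h3 : IsUnit r := by
    apply hs' r
    rw [h2]
    exact Dvd.intro_left _ rfl
  rw [Nat.isUnit_iff] at h3
  rw [h2, h3]; ring

private theorem isSquare_of_mul_sq {a z : ℕ} (hz : z ≠ 0) (h : IsSquare (z ^ 2 * a)) :
    IsSquare a := by
  obtain ⟨t, ht⟩ := h
  have h1 : z ∣ t := by
    rw [← Nat.pow_dvd_pow_iff (n := 2) (by norm_num)]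
    exact ⟨a, by rw [sq t]; exact ht.symm⟩
  obtain ⟨r, rfl⟩ := h1
  refine ⟨r, ?_⟩
  have hz2 : 0 < z ^ 2 := by positivity
  apply Nat.eq_of_mul_eq_mul_left hz2
  rw [ht]; ring

/-- If the product of two nonzero integers `a, b` is a square and all common prime divisors of
`a, b` divide `g ≠ 0`, then `a = e z^2`, `b = e w^2` with `e` or `-e` a divisor of `g`. -/
theorem two_squares_times (a b g : ℤ) (ha : a ≠ 0) (hb : b ≠ 0) (hg : g ≠ 0)
    (hs : IsSquare (a * b))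
    (hp : ∀ p : ℕ, p.Prime → (p : ℤ) ∣ a → (p : ℤ) ∣ b → (p : ℤ) ∣ g) :
    ∃ e z w : ℤ, e ≠ 0 ∧ e.natAbs ∈ g.natAbs.divisors ∧ a = e * z ^ 2 ∧ b = e * w ^ 2 := by
  obtain ⟨s, z, hz, hsf⟩ := Nat.sq_mul_squarefree a.natAbs
  obtain ⟨s', w, hw, hsf'⟩ := Nat.sq_mul_squarefree b.natAbs
  have ha' : a.natAbs ≠ 0 := by simpa using ha
  have hb' : b.natAbs ≠ 0 := by simpa using hb
  have hz0 : z ≠ 0 := by rintro rfl; simp at hz; exact ha (by omega)
  have hw0 : w ≠ 0 := by rintro rfl; simp at hw; exact hb (by omega)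
  have hab : 0 < a * b := by
    obtain ⟨r, hr⟩ := hs
    have h1 : a * b ≠ 0 := mul_ne_zero ha hb
    have h2 : 0 ≤ a * b := by rw [hr]; exact mul_self_nonneg r
    omega
  have hsq : IsSquare (a.natAbs * b.natAbs) := by
    obtain ⟨r, hr⟩ := hs
    refine ⟨r.natAbs, ?_⟩
    rw [← Int.natAbs_mul, ← Int.natAbs_mul, hr]
  have hss : s = s' := by
    apply sqfree_eq hsf hsf'
    apply isSquare_of_mul_sq (z := z * w) (mul_ne_zero hz0 hw0)
    have : (z * w) ^ 2 * (s * s') = a.natAbs * b.natAbs := by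
      rw [← hz, ← hw]; ring
    rw [this]; exact hsq
  subst hss
  have hsg : s ∣ g.natAbs := by
    rw [← Nat.prod_primeFactors_of_squarefree hsf]
    apply Finset.prod_primes_dvd
    · intro p hp'
      exact (Nat.prime_of_mem_primeFactors hp').prime
    · intro p hp'
      have hpp := Nat.prime_of_mem_primeFactors hp'
      have hps := Nat.dvd_of_mem_primeFactors hp'
      have h1 : (p : ℤ) ∣ a := by
        rw [Int.natCast_dvd, ← hz]
        exact Dvd.dvd.mul_left hps _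
      have h2 : (p : ℤ) ∣ b := by
        rw [Int.natCast_dvd, ← hw]
        exact Dvd.dvd.mul_left hps _
      exact Int.natCast_dvd.1 (hp p hpp h1 h2)
  have hs0 : s ≠ 0 := hsf.ne_zero
  have hg' : g.natAbs ≠ 0 := by simpa using hg
  rcases lt_or_gt_of_ne ha with hlt | hgt
  · have hblt : b < 0 := by
      by_contra hcon
      have : 0 ≤ b := by omega
      nlinarith
    refine ⟨-s, z, w, by simpa using hs0, ?_, ?_, ?_⟩
    · rw [Nat.mem_divisors]
      exact ⟨by simpa using hsg, hg'⟩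
    · have h1 : a = -(a.natAbs : ℤ) := by omega
      rw [h1, ← hz]; push_cast; ring
    · have h1 : b = -(b.natAbs : ℤ) := by omega
      rw [h1, ← hw]; push_cast; ring
  · have hbgt : 0 < b := by
      by_contra hcon
      have : b ≤ 0 := by omega
      nlinarith
    refine ⟨s, z, w, by simpa using hs0, ?_, ?_, ?_⟩
    · rw [Nat.mem_divisors]
      exact ⟨by simpa using hsg, hg'⟩
    · have h1 : a = (a.natAbs : ℤ) := by omega
      rw [h1, ← hz]; push_cast; ring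
    · have h1 : b = (b.natAbs : ℤ) := by omega
      rw [h1, ← hw]; push_cast; ring

theorem eval_bound (P : MvPolynomial (Fin 3) ℤ) :
    ∃ (E : ℕ) (C : ℝ), 0 ≤ C ∧ ∀ (B : ℕ) (x : Fin 3 → ℤ), 1 ≤ B → mx x ≤ B →
      |((MvPolynomial.eval x P : ℤ) : ℝ)| ≤ C * (B : ℝ) ^ E := by
  have abs_coord : ∀ {B : ℕ} {x : Fin 3 → ℤ} (_ : mx x ≤ B) (i : Fin 3),
      |((x i : ℤ) : ℝ)| ≤ B := by
    intro B x h i
    have : (x i).natAbs ≤ B :=
      (Finset.le_sup (f := fun i => (x i).natAbs) (Finset.mem_univ i)).trans h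
    have h2 : |x i| ≤ (B : ℤ) := by
      rw [Int.abs_eq_natAbs]
      exact_mod_cast this
    exact_mod_cast h2
  induction P using MvPolynomial.induction_on with
  | C a =>
    refine ⟨0, |(a : ℝ)|, abs_nonneg _, ?_⟩
    intro B x _ _
    simp
  | add p q hp hq =>
    obtain ⟨E1, C1, h1, h1'⟩ := hp
    obtain ⟨E2, C2, h2, h2'⟩ := hq
    refine ⟨E1 + E2, C1 + C2, by positivity, ?_⟩
    intro B x hB hx
    have hB' : (1 : ℝ) ≤ B := by exact_mod_cast hB
    have a1 := h1' B x hB hx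
    have a2 := h2' B x hB hx
    rw [map_add]
    push_cast
    refine (abs_add_le _ _).trans ?_
    have b1 : (B : ℝ) ^ E1 ≤ (B : ℝ) ^ (E1 + E2) := pow_le_pow_right₀ hB' (by omega)
    have b2 : (B : ℝ) ^ E2 ≤ (B : ℝ) ^ (E1 + E2) := pow_le_pow_right₀ hB' (by omega)
    calc _ ≤ C1 * (B : ℝ) ^ E1 + C2 * (B : ℝ) ^ E2 := add_le_add a1 a2
      _ ≤ C1 * (B : ℝ) ^ (E1 + E2) + C2 * (B : ℝ) ^ (E1 + E2) := by gcongr
      _ = _ := by ring
  | mul_X p i hp =>
    obtain ⟨E1, C1, h1, h1'⟩ := hp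
    refine ⟨E1 + 1, C1, h1, ?_⟩
    intro B x hB hx
    have a1 := h1' B x hB hx
    rw [map_mul, MvPolynomial.eval_X]
    push_cast
    rw [abs_mul]
    calc _ ≤ (C1 * (B : ℝ) ^ E1) * B := by
          apply mul_le_mul a1 (abs_coord hx i) (abs_nonneg _) (by positivity)
      _ = _ := by ring

/-- The values of `e` on a line: at most `K B^(1/16)`. -/
theorem few_twists (G : MvPolynomial (Fin 3) ℤ) :
    ∃ K : ℝ, 0 < K ∧ ∀ B : ℕ, 3 ≤ B → ∀ y : Fin 3 → ℤ, mx y ≤ B → MvPolynomial.eval y G ≠ 0 →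
      (((MvPolynomial.eval y G).natAbs.divisors.card : ℕ) : ℝ) ≤ K * (B : ℝ) ^ (1 / 16 : ℝ) := by
  obtain ⟨E, C, hC, hb⟩ := eval_bound G
  set μ : ℝ := 1 / (16 * (E + 1)) with hμ
  have hμ0 : 0 < μ := by positivity
  obtain ⟨K, hK, hdiv⟩ := MP14ee70.card_divisors_le μ hμ0
  refine ⟨K * (C + 1) ^ μ, by positivity, ?_⟩
  intro B hB y hy hy0
  have hB1 : (1 : ℝ) ≤ B := by exact_mod_cast (by omega : 1 ≤ B)
  have h1 := hdiv (MvPolynomial.eval y G).natAbs (by simpa using hy0)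
  refine h1.trans ?_
  rw [mul_assoc]
  apply mul_le_mul_of_nonneg_left _ (by linarith)
  have h2 : (((MvPolynomial.eval y G).natAbs : ℕ) : ℝ) ≤ (C + 1) * (B : ℝ) ^ (E + 1) := by
    have h3 := hb B y (by omega) hy
    have h4 : (((MvPolynomial.eval y G).natAbs : ℕ) : ℝ) =
        |((MvPolynomial.eval y G : ℤ) : ℝ)| := by
      rw [Nat.cast_natAbs]; push_cast; rfl
    rw [h4]
    refine h3.trans ?_
    have h5 : (B : ℝ) ^ E ≤ (B : ℝ) ^ (E + 1) := pow_le_pow_right₀ hB1 (by omega)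
    have h6 : (0 : ℝ) ≤ (B : ℝ) ^ E := by positivity
    nlinarith
  calc (((MvPolynomial.eval y G).natAbs : ℕ) : ℝ) ^ μ
      ≤ ((C + 1) * (B : ℝ) ^ (E + 1)) ^ μ := Real.rpow_le_rpow (by positivity) h2 hμ0.le
    _ = (C + 1) ^ μ * (B : ℝ) ^ (1 / 16 : ℝ) := by
        rw [Real.mul_rpow (by linarith) (by positivity), ← Real.rpow_natCast,
          ← Real.rpow_mul (by linarith)]
        congr 2
        rw [hμ]
        push_cast
        field_simp

end Pool.MP_aab329_nt.SerreR
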