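import Mathlib

set_option autoImplicit false

namespace Pool.MP_aab329_nt.SerreR

open Polynomial

/-- Gauss: a monic quadratic over `ℚ[X]` without root is irreducible. -/
theorem irr2 (A : ℚ[X]) (hA : ¬ IsSquare A) : Irreducible (X ^ 2 - C A : ℚ[X][X]) := by
  have hmon : (X ^ 2 - C A : ℚ[X][X]).Monic := monic_X_pow_sub_C A (by norm_num)
  have hdeg : (X ^ 2 - C A : ℚ[X][X]).natDegree = 2 := by
    rw [natDegree_sub_C, natDegree_X_pow]
  rw [hmon.irreducible_iff_roots_eq_zero_of_degree_le_three (by omega) (by omega)]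
  rw [Multiset.eq_zero_iff_forall_notMem]
  intro p hp
  rw [mem_roots hmon.ne_zero, IsRoot.def, eval_sub, eval_pow, eval_X, eval_C] at hp
  apply hA
  exact ⟨p, by linear_combination -hp⟩

private theorem half_sq {R : ℚ[X]} {p : ℚ[X]} (h : p ^ 2 = 4 * R) : IsSquare R := by
  refine ⟨C (1 / 2) * p, ?_⟩
  have h1 : C (1 / 2 : ℚ) * p * (C (1 / 2) * p) = C (1 / 4) * (p ^ 2) := by
    rw [show (1 / 4 : ℚ) = 1 / 2 * (1 / 2) by norm_num, C_mul]; ring
  rw [h1, h, ← mul_assoc]
  have h2 : C (1 / 4 : ℚ) * 4 = 1 := by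
    have h3 : (4 : ℚ[X]) = C 4 := (map_ofNat C 4).symm
    rw [h3, ← C_mul]; norm_num
  rw [h2, one_mul]

/-- Coefficients of a biquadratic polynomial. -/
theorem biq_coeff {R : Type*} [CommRing R] [Nontrivial R] (s t : R) :
    (X ^ 4 - C s * X ^ 2 + C t : R[X]).natDegree = 4 ∧
    (X ^ 4 - C s * X ^ 2 + C t : R[X]).Monic ∧
    (X ^ 4 - C s * X ^ 2 + C t : R[X]).coeff 0 = t ∧
    (X ^ 4 - C s * X ^ 2 + C t : R[X]).coeff 1 = 0 ∧
    (X ^ 4 - C s * X ^ 2 + C t : R[X]).coeff 2 = -s ∧
    (X ^ 4 - C s * X ^ 2 + C t : R[X]).coeff 3 = 0 := by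
  have hdeg : (X ^ 4 - C s * X ^ 2 + C t : R[X]).natDegree = 4 := by compute_degree!
  refine ⟨hdeg, ?_, ?_, ?_, ?_, ?_⟩
  · rw [Monic, leadingCoeff, hdeg]
    simp [coeff_X_pow, coeff_C]
  · simp [coeff_X_pow, coeff_C]
  · simp [coeff_X_pow, coeff_C]
  · simp [coeff_X_pow, coeff_C]
  · simp [coeff_X_pow, coeff_C]

/-- Coefficients of a product of two monic quadratics. -/
theorem qq_coeff {R : Type*} [CommRing R] (s₃ s₂ s₁ s₀ : R) :
    (X ^ 4 + C s₃ * X ^ 3 + C s₂ * X ^ 2 + C s₁ * X + C s₀ : R[X]).coeff 0 = s₀ ∧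
    (X ^ 4 + C s₃ * X ^ 3 + C s₂ * X ^ 2 + C s₁ * X + C s₀ : R[X]).coeff 1 = s₁ ∧
    (X ^ 4 + C s₃ * X ^ 3 + C s₂ * X ^ 2 + C s₁ * X + C s₀ : R[X]).coeff 2 = s₂ ∧
    (X ^ 4 + C s₃ * X ^ 3 + C s₂ * X ^ 2 + C s₁ * X + C s₀ : R[X]).coeff 3 = s₃ := by
  refine ⟨?_, ?_, ?_, ?_⟩
  · simp [coeff_X_pow, coeff_C, coeff_X]
  · simp [coeff_X_pow, coeff_C, coeff_X]
  · simp [coeff_X_pow, coeff_C, coeff_X]
  · simp [coeff_X_pow, coeff_C, coeff_X]

/-- The polynomial of `√A + √B` is irreducible if `A`, `B`, `A B` are not squares. (No root: a root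
`p` gives `(p^2 - A - B)^2 = 4 A B`. No factorisation in two monic quadratics
`(T^2 + a T + b)(T^2 - a T + b')`: either `a ≠ 0`, `b = b'`, `b^2 = (A - B)^2` and
`a^2 = 2 b + 2 (A + B)` is `4 A` or `4 B`; or `a = 0` and `(b - b')^2 = 16 A B`.) -/
theorem irr4 (A B : ℚ[X]) (hA : ¬ IsSquare A) (hB : ¬ IsSquare B) (hAB : ¬ IsSquare (A * B)) :
    Irreducible (X ^ 4 - C (2 * (A + B)) * X ^ 2 + C ((A - B) ^ 2) : ℚ[X][X]) := by
  set p : ℚ[X][X] := X ^ 4 - C (2 * (A + B)) * X ^ 2 + C ((A - B) ^ 2) with hp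
  obtain ⟨hdeg, hmon, c0, c1, c2, c3⟩ := biq_coeff (2 * (A + B)) ((A - B) ^ 2)
  rw [← hp] at hdeg hmon c0 c1 c2 c3
  rw [hmon.irreducible_iff_natDegree']
  refine ⟨?_, ?_⟩
  · intro h1
    rw [h1, natDegree_one] at hdeg
    omega
  · intro f g hf hg hfg hgd
    rw [hdeg] at hgd
    have hfgd : f.natDegree + g.natDegree = 4 := by
      rw [← hf.natDegree_mul hg, hfg, hdeg]
    rw [Finset.mem_Ioc] at hgd
    obtain ⟨hg1, hg2⟩ := hgd
    have hg12 : g.natDegree = 1 ∨ g.natDegree = 2 := by omega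
    rcases hg12 with hg1 | hg2
    · -- a root
      have hgx : g = X + C (g.coeff 0) := by
        have h1 := hg.eq_X_add_C hg1
        exact h1
      set a := g.coeff 0 with ha
      have hroot : p.eval (-a) = 0 := by
        rw [← hfg, eval_mul, hgx]; simp
      rw [hp] at hroot
      simp only [eval_add, eval_sub, eval_mul, eval_pow, eval_X, eval_C] at hroot
      apply hAB
      apply half_sq (p := a ^ 2 - A - B)
      linear_combination hroot
    · have hf2 : f.natDegree = 2 := by omega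
      have hfq : f = X ^ 2 + C (f.coeff 1) * X + C (f.coeff 0) := by
        have h1 := eq_quadratic_of_degree_le_two (p := f) (by
          rw [degree_eq_natDegree hf.ne_zero, hf2]; rfl)
        have h2 : f.coeff 2 = 1 := by rw [← hf2]; exact hf
        rw [h2, C_1, one_mul] at h1
        exact h1
      have hgq : g = X ^ 2 + C (g.coeff 1) * X + C (g.coeff 0) := by
        have h1 := eq_quadratic_of_degree_le_two (p := g) (by
          rw [degree_eq_natDegree hg.ne_zero, hg2]; rfl)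
        have h2 : g.coeff 2 = 1 := by rw [← hg2]; exact hg
        rw [h2, C_1, one_mul] at h1
        exact h1
      set a := f.coeff 1 with ha
      set b := f.coeff 0 with hb
      set a' := g.coeff 1 with ha'
      set b' := g.coeff 0 with hb'
      have hprod : p = X ^ 4 + C (a + a') * X ^ 3 + C (b + b' + a * a') * X ^ 2 +
          C (a * b' + a' * b) * X + C (b * b') := by
        rw [← hfg, hfq, hgq]
        simp only [C_add, C_mul]
        ring
      obtain ⟨q0, q1, q2, q3⟩ := qq_coeff (a + a') (b + b' + a * a') (a * b' + a' * b) (b * b')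
      rw [← hprod] at q0 q1 q2 q3
      have d0 : b * b' = (A - B) ^ 2 := by rw [← q0, c0]
      have d1 : a * b' + a' * b = 0 := by rw [← q1, c1]
      have d2 : b + b' + a * a' = -(2 * (A + B)) := by rw [← q2, c2]
      have d3 : a + a' = 0 := by rw [← q3, c3]
      have ea : a' = -a := by linear_combination d3
      rw [ea] at d1 d2
      have d1' : a * (b' - b) = 0 := by linear_combination d1
      rcases mul_eq_zero.1 d1' with h0 | h0
      · rw [h0] at d2
        apply hAB
        apply half_sq (p := C (1 / 2) * (b - b'))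
        have e1 : (b - b') ^ 2 = 16 * (A * B) := by
          linear_combination (b + b' - 2 * (A + B)) * d2 - 4 * d0
        have h1 : (C (1 / 2 : ℚ) * (b - b')) ^ 2 = C (1 / 4) * (b - b') ^ 2 := by
          rw [show (1 / 4 : ℚ) = 1 / 2 * (1 / 2) by norm_num, C_mul]; ring
        rw [h1, e1, ← mul_assoc]
        have h2 : C (1 / 4 : ℚ) * 16 = 4 := by
          have h3 : (4 : ℚ[X]) = C 4 := (map_ofNat C 4).symm
          have h4 : (16 : ℚ[X]) = C 16 := (map_ofNat C 16).symm
          rw [h3, h4, ← C_mul]; norm_num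
        rw [h2]
      · have hbb : b' = b := by linear_combination h0
        rw [hbb] at d0 d2
        have h2 : (b - (A - B)) * (b + (A - B)) = 0 := by linear_combination d0
        rcases mul_eq_zero.1 h2 with h3 | h3
        · apply hA
          apply half_sq (p := a)
          linear_combination -d2 + 2 * h3
        · apply hB
          apply half_sq (p := a)
          linear_combination -d2 + 2 * h3

end Pool.MP_aab329_nt.SerreR
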