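import Pool.Agent.Lib.MP_aab329_nt.Defs
import Pool.Agent.Lib.MP_aab329_nt.R.Irr

/-!
Basic definitions for double planes with a reducible branch curve: the double cover
`T^2 = G(x)`, the fourfold cover `T = √(e F₁) + √(e F₂)`, restriction of a form to a line.
-/

set_option autoImplicit false

namespace Pool.MP_aab329_nt.SerreR

open Polynomial Pool.MP_aab329_nt.SerreP

/-- The double cover `T^2 = G`. -/
noncomputable def sqf (G : MvPolynomial (Fin 3) ℤ) : (MvPolynomial (Fin 3) ℤ)[X] :=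
  X ^ 2 - C G

/-- The fourfold cover `T = √(e F₁) + √(e F₂)`. -/
noncomputable def quf (e : ℤ) (F₁ F₂ : MvPolynomial (Fin 3) ℤ) : (MvPolynomial (Fin 3) ℤ)[X] :=
  X ^ 4 - C (MvPolynomial.C (2 * e) * (F₁ + F₂)) * X ^ 2 +
    C (MvPolynomial.C (e ^ 2) * (F₁ - F₂) ^ 2)

/-- Restriction of a form to the line through `u` and `v`, in the coordinate `X` of `X u + v`. -/
noncomputable def res (G : MvPolynomial (Fin 3) ℤ) (u v : Fin 3 → ℚ) : ℚ[X] :=
  MvPolynomial.eval₂ (Int.castRingHom ℚ[X]) (fun c => C (u c) * X + C (v c)) G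

/-- A constant times a square. -/
def CSq (p : ℚ[X]) : Prop := ∃ (c : ℚ) (q : ℚ[X]), p = C c * q ^ 2

/-- `G` is a constant times a square on the line `y x = 0`. -/
def SqLine (G : MvPolynomial (Fin 3) ℤ) (y : Fin 3 → ℤ) : Prop :=
  ∃ u v : Fin 3 → ℚ, LinearIndependent ℚ ![u, v] ∧ dot (rat y) u = 0 ∧ dot (rat y) v = 0 ∧
    CSq (res G u v)

theorem sqf_wmonic {m : ℕ} {G : MvPolynomial (Fin 3) ℤ} (hG : G.IsHomogeneous (2 * m)) :
    WMonic m 2 (sqf G) := by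
  have hdeg : (sqf G).natDegree = 2 := by
    unfold sqf
    rw [natDegree_sub_C, natDegree_X_pow]
  refine ⟨?_, hdeg, ?_⟩
  · unfold sqf
    exact monic_X_pow_sub_C G (by norm_num)
  · intro i hi
    unfold sqf
    rw [coeff_sub, coeff_X_pow, coeff_C]
    interval_cases i
    · simpa [mul_comm] using hG.neg
    · simpa using MvPolynomial.isHomogeneous_zero (Fin 3) ℤ (m * (2 - 1))
    · simpa using MvPolynomial.isHomogeneous_one (Fin 3) ℤ

theorem quf_wmonic {m : ℕ} {F₁ F₂ : MvPolynomial (Fin 3) ℤ} (h₁ : F₁.IsHomogeneous (2 * m))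
    (h₂ : F₂.IsHomogeneous (2 * m)) (e : ℤ) : WMonic m 4 (quf e F₁ F₂) := by
  obtain ⟨hdeg, hmon, c0, c1, c2, c3⟩ := biq_coeff (MvPolynomial.C (2 * e) * (F₁ + F₂))
    (MvPolynomial.C (e ^ 2) * (F₁ - F₂) ^ 2)
  refine ⟨hmon, hdeg, ?_⟩
  intro i hi
  unfold quf
  interval_cases i
  · rw [c0]
    have h1 := (MvPolynomial.isHomogeneous_C (Fin 3) (e ^ 2)).mul ((h₁.sub h₂).pow 2)
    rw [show m * (4 - 0) = 0 + 2 * m * 2 by ring]
    exact h1
  · rw [c1]
    exact MvPolynomial.isHomogeneous_zero (Fin 3) ℤ _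
  · rw [c2]
    have h1 := ((MvPolynomial.isHomogeneous_C (Fin 3) (2 * e)).mul (h₁.add h₂)).neg
    rw [show m * (4 - 2) = 0 + 2 * m by ring]
    exact h1
  · rw [c3]
    exact MvPolynomial.isHomogeneous_zero (Fin 3) ℤ _
  · have h4 : (X ^ 4 - C (MvPolynomial.C (2 * e) * (F₁ + F₂)) * X ^ 2 +
        C (MvPolynomial.C (e ^ 2) * (F₁ - F₂) ^ 2) : (MvPolynomial (Fin 3) ℤ)[X]).coeff 4 = 1 := by
      have h5 := hmon
      rw [Monic, leadingCoeff, hdeg] at h5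
      exact h5
    rw [h4]
    exact MvPolynomial.isHomogeneous_one (Fin 3) ℤ

theorem sp_sqf {R : Type*} [CommRing R] (G : MvPolynomial (Fin 3) ℤ) (x : Fin 3 → R) :
    sp (sqf G) x = X ^ 2 - C (MvPolynomial.eval₂ (Int.castRingHom R) x G) := by
  unfold sp sqf
  simp

theorem sp_quf {R : Type*} [CommRing R] (e : ℤ) (F₁ F₂ : MvPolynomial (Fin 3) ℤ)
    (x : Fin 3 → R) :
    sp (quf e F₁ F₂) x = X ^ 4 -
      C (2 * (e : R) * (MvPolynomial.eval₂ (Int.castRingHom R) x F₁ +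
        MvPolynomial.eval₂ (Int.castRingHom R) x F₂)) * X ^ 2 +
      C ((e : R) ^ 2 * (MvPolynomial.eval₂ (Int.castRingHom R) x F₁ -
        MvPolynomial.eval₂ (Int.castRingHom R) x F₂) ^ 2) := by
  unfold sp quf
  simp

theorem gline_sqf (G : MvPolynomial (Fin 3) ℤ) (u v : Fin 3 → ℚ) :
    gline (sqf G) u v = X ^ 2 - C (res G u v) := by
  unfold gline
  rw [sp_sqf]
  rfl

theorem gline_quf (e : ℤ) (F₁ F₂ : MvPolynomial (Fin 3) ℤ) (u v : Fin 3 → ℚ) :
    gline (quf e F₁ F₂) u v = X ^ 4 - C (2 * (e : ℚ[X]) * (res F₁ u v + res F₂ u v)) * X ^ 2 +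
      C ((e : ℚ[X]) ^ 2 * (res F₁ u v - res F₂ u v) ^ 2) := by
  unfold gline
  rw [sp_quf]
  rfl

end Pool.MP_aab329_nt.SerreR
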