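import Pool.Agent.Lib.MP_aab329_nt.RootSize
import Pool.Agent.Lib.MP_aab329_nt.R.LineGen
import Pool.Agent.Lib.MP_aab329_nt.R.Base
import Pool.Agent.Lib.MP_aab329_nt.R.Irr

set_option autoImplicit false

namespace Pool.MP_aab329_nt.SerreR

open Polynomial Real Pool.MP_aab329_nt.SerreP

/-- Finiteness of a box. -/
theorem finite_mx (B : ℕ) : {x : Fin 3 → ℤ | mx x ≤ B}.Finite := by
  have h1 : {x : Fin 3 → ℤ | mx x ≤ B} ⊆
      (↑(Fintype.piFinset fun _ : Fin 3 => Finset.Icc (-(B : ℤ)) B) : Set (Fin 3 → ℤ)) := by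
    intro x hx
    rw [Finset.mem_coe, Fintype.mem_piFinset]
    intro i
    rw [Finset.mem_Icc]
    have h2 : (x i).natAbs ≤ mx x := Finset.le_sup (f := fun i => (x i).natAbs) (Finset.mem_univ i)
    have h3 : mx x ≤ B := hx
    omega
  exact (Finset.finite_toSet _).subset h1

/-- Evaluation of the double cover at an integral point. -/
theorem sqf_eval (G : MvPolynomial (Fin 3) ℤ) (x : Fin 3 → ℤ) (τ : ℤ) :
    (sp (sqf G) x).eval τ = τ ^ 2 - MvPolynomial.eval x G := by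
  rw [sp_sqf, eval_sub, eval_pow, eval_X, eval_C]
  rfl

/-- Derivative of the double cover at an integral point. -/
theorem sqf_deriv (G : MvPolynomial (Fin 3) ℤ) (x : Fin 3 → ℤ) (τ : ℤ) :
    (derivative (sp (sqf G) x)).eval τ = 2 * τ := by
  rw [sp_sqf]
  simp

/-- The restriction of the double cover to a line which is not bad is irreducible. -/
theorem sqf_irr {G : MvPolynomial (Fin 3) ℤ} {y : Fin 3 → ℤ} (hg : ¬ BadLine (sqf G) y)
    (u v : Fin 3 → ℚ) (hli : LinearIndependent ℚ ![u, v]) (hu : dot (rat y) u = 0)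
    (hv : dot (rat y) v = 0) : Irreducible (gline (sqf G) u v) := by
  rw [gline_sqf]
  apply irr2
  rintro ⟨p, hp⟩
  apply hg
  refine ⟨u, v, hli, hu, hv, p, ?_⟩
  rw [gline_sqf, eval_sub, eval_pow, eval_X, eval_C, hp]
  ring

/-- Double cover on a line over which it does not split. Proof: `line_gen m 2 E C'` with `E`, `C'`
from `root_size (sqf_wmonic hG)`, `f = sqf G`; irreducibility of `gline (sqf G) u v =
X^2 - C (res G u v)` (`gline_sqf`) from `irr2` (a square root `p` of `res G u v` is a root of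
`gline`, so the line is bad); `τ` = square root of `G(x)`, derivative `2 τ ≠ 0` (`sp_sqf`,
`MvPolynomial.eval₂ (Int.castRingHom ℤ) x G = MvPolynomial.eval x G`). -/
theorem dbl_line {m : ℕ} (hm : 1 ≤ m) {G : MvPolynomial (Fin 3) ℤ}
    (hG : G.IsHomogeneous (2 * m)) :
    ∃ (c : ℕ) (C : ℝ), 0 < C ∧ ∀ B : ℕ, 3 ≤ B → ∀ y : Fin 3 → ℤ, prim y → nsq y ≤ 9 * B →
      ¬ BadLine (sqf G) y →
      ({x : Fin 3 → ℤ | prim x ∧ mx x ≤ B ∧ dot y x = 0 ∧ MvPolynomial.eval x G ≠ 0 ∧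
        IsSquare (MvPolynomial.eval x G)}.ncard : ℝ) ≤
        C * ((B : ℝ) ^ 2 / mx y) ^ (1 / 2 : ℝ) * (log B) ^ c := by
  obtain ⟨E, C', hC', hroot⟩ := root_size (sqf_wmonic hG)
  obtain ⟨c, C, hC, hline⟩ := line_gen m 2 E C' hm (by norm_num) hC'
  refine ⟨c, C, hC, ?_⟩
  intro B hB y hy hyB hgood
  have h1 := hline (sqf G) (sqf_wmonic hG) B hB y hy hyB (sqf_irr hgood)
  have h2 : (1 : ℝ) / ((2 : ℕ) : ℝ) = 1 / 2 := by norm_num
  rw [h2] at h1
  refine le_trans ?_ h1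
  have hfin : {x : Fin 3 → ℤ | prim x ∧ mx x ≤ B ∧ dot y x = 0 ∧ ∃ τ : ℤ,
      (sp (sqf G) x).eval τ = 0 ∧ (derivative (sp (sqf G) x)).eval τ ≠ 0 ∧
      |(τ : ℝ)| ≤ C' * (B : ℝ) ^ E ∧
        |(((derivative (sp (sqf G) x)).eval τ : ℤ) : ℝ)| ≤ C' * (B : ℝ) ^ E}.Finite := by
    apply (finite_mx B).subset
    rintro x ⟨-, h, -⟩
    exact h
  apply Nat.cast_le.2
  apply Set.ncard_le_ncard _ hfin
  rintro x ⟨hp, hx, hyx, hG0, τ, hτ⟩
  have he : (sp (sqf G) x).eval τ = 0 := by rw [sqf_eval, hτ]; ring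
  refine ⟨hp, hx, hyx, τ, he, ?_, (hroot B x τ (by omega) hx he).1,
    (hroot B x τ (by omega) hx he).2⟩
  rw [sqf_deriv]
  intro h0
  apply hG0
  have h3 : τ = 0 := by omega
  rw [hτ, h3, mul_zero]

end Pool.MP_aab329_nt.SerreR
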