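import Pool.Agent.Lib.MP_aab329_nt.BadCount
import Pool.Agent.Lib.MP_aab329_nt.R.Dbl

set_option autoImplicit false

namespace Pool.MP_aab329_nt.SerreR

open Polynomial Real Pool.MP_aab329_nt.SerreP

private theorem bc_mx_le_iff (B : ℕ) (x : Fin 3 → ℤ) : mx x ≤ B ↔ ∀ i, |x i| ≤ (B : ℤ) := by
  unfold mx
  rw [Finset.sup_le_iff]
  constructor
  · intro h i
    have := h i (Finset.mem_univ i)
    rw [Int.abs_eq_natAbs]; exact_mod_cast this
  · intro h i _
    have := h i
    rw [Int.abs_eq_natAbs] at this; exact_mod_cast this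

private theorem bc_finite (B : ℕ) (P : (Fin 3 → ℤ) → Prop) (h : ∀ x, P x → mx x ≤ B) :
    {x | P x}.Finite := by
  have h1 : {x | P x} ⊆ (↑(Fintype.piFinset fun _ : Fin 3 => Finset.Icc (-(B : ℤ)) B) :
      Set (Fin 3 → ℤ)) := by
    intro x hx
    rw [Finset.mem_coe, Fintype.mem_piFinset]
    intro i
    rw [Finset.mem_Icc, ← abs_le]
    exact (bc_mx_le_iff B x).1 (h x hx) i
  exact (Finset.finite_toSet _).subset h1

/-- cross product -/
private def cr (y z : Fin 3 → ℤ) : Fin 3 → ℤ :=
  ![y 1 * z 2 - y 2 * z 1, y 2 * z 0 - y 0 * z 2, y 0 * z 1 - y 1 * z 0]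

private theorem dot_cr_left (y z : Fin 3 → ℤ) : dot y (cr y z) = 0 := by
  simp [dot, cr]; ring

private theorem dot_cr_right (y z : Fin 3 → ℤ) : dot z (cr y z) = 0 := by
  simp [dot, cr]; ring

private theorem mx_cr (y z : Fin 3 → ℤ) : mx (cr y z) ≤ 2 * mx z * mx y := by
  rw [bc_mx_le_iff]
  have hy := (bc_mx_le_iff (mx y) y).1 le_rfl
  have hz := (bc_mx_le_iff (mx z) z).1 le_rfl
  have key : ∀ i j k l, |y i * z j - y k * z l| ≤ ((2 * mx z * mx y : ℕ) : ℤ) := by
    intro i j k l
    have h1 : |y i * z j| ≤ (mx y : ℤ) * (mx z : ℤ) := by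
      rw [abs_mul]; exact mul_le_mul (hy i) (hz j) (abs_nonneg _) (by positivity)
    have h2 : |y k * z l| ≤ (mx y : ℤ) * (mx z : ℤ) := by
      rw [abs_mul]; exact mul_le_mul (hy k) (hz l) (abs_nonneg _) (by positivity)
    have h3 := abs_sub (y i * z j) (y k * z l)
    push_cast
    nlinarith
  intro i
  fin_cases i
  · exact key 1 2 2 1
  · exact key 2 0 0 2
  · exact key 0 1 1 0

/-- primitive part -/
private theorem prim_part (w : Fin 3 → ℤ) (hw : w ≠ 0) :
    ∃ (a : Fin 3 → ℤ) (g : ℤ), prim a ∧ g ≠ 0 ∧ (∀ i, w i = g * a i) ∧ mx a ≤ mx w := by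
  obtain ⟨a, ha1, ha2⟩ := Finset.extract_gcd w (Finset.univ_nonempty (α := Fin 3))
  set g := Finset.univ.gcd w with hg
  have hg0 : g ≠ 0 := by
    intro h0
    apply hw
    funext i
    have := ha1 i (Finset.mem_univ i)
    rw [this, h0]; simp
  refine ⟨a, g, ha2, hg0, fun i => ha1 i (Finset.mem_univ i), ?_⟩
  rw [bc_mx_le_iff]
  intro i
  have h1 := (bc_mx_le_iff (mx w) w).1 le_rfl i
  rw [ha1 i (Finset.mem_univ i), abs_mul] at h1
  have h2 : 1 ≤ |g| := Int.one_le_abs hg0
  nlinarith [abs_nonneg (a i)]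

/-- primitive vectors with zero cross product are equal up to sign -/
private theorem prim_parallel {y z : Fin 3 → ℤ} (hy : prim y) (hz : prim z) (h : cr y z = 0) :
    y = z ∨ y = -z := by
  have h0 : y 1 * z 2 - y 2 * z 1 = 0 := congrFun h 0
  have h1 : y 2 * z 0 - y 0 * z 2 = 0 := congrFun h 1
  have h2 : y 0 * z 1 - y 1 * z 0 = 0 := congrFun h 2
  have hsym : ∀ i j, y i * z j = y j * z i := by
    intro i j
    fin_cases i <;> fin_cases j <;> simp <;> linarith
  -- z j divides y j, etc.
  have hdvd : ∀ j, z j ∣ y j := by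
    intro j
    have h3 : z j ∣ Finset.univ.gcd (fun i => y j * z i) := by
      apply Finset.dvd_gcd
      intro i _
      rw [← hsym i j]; exact Dvd.intro_left _ rfl
    rw [Finset.gcd_mul_left] at h3
    have hz' : Finset.univ.gcd (fun i => z i) = 1 := hz
    rw [hz', mul_one] at h3
    exact (dvd_normalize_iff.1 h3)
  have hdvd' : ∀ j, y j ∣ z j := by
    intro j
    have h3 : y j ∣ Finset.univ.gcd (fun i => z j * y i) := by
      apply Finset.dvd_gcd
      intro i _
      rw [mul_comm, hsym i j]; exact Dvd.intro _ rfl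
    rw [Finset.gcd_mul_left] at h3
    have hy' : Finset.univ.gcd (fun i => y i) = 1 := hy
    rw [hy', mul_one] at h3
    exact (dvd_normalize_iff.1 h3)
  have habs : ∀ j, |y j| = |z j| := by
    intro j
    have := Int.natAbs_eq_of_dvd_dvd (hdvd j) (hdvd' j)
    rw [Int.abs_eq_natAbs, Int.abs_eq_natAbs, this]
  have hne : ∃ k, y k ≠ 0 := by
    by_contra hc
    push Not at hc
    have : y = 0 := funext hc
    subst this
    unfold prim at hy
    have h4 : Finset.univ.gcd (0 : Fin 3 → ℤ) = 0 := by
      rw [Finset.gcd_eq_zero_iff]; simp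
    rw [h4] at hy
    exact zero_ne_one hy
  obtain ⟨k, hk⟩ := hne
  rcases abs_eq_abs.1 (habs k) with hk1 | hk1
  · left
    funext j
    have := hsym j k
    rw [← hk1] at this
    have h5 : (y j - z j) * y k = 0 := by linarith
    rcases mul_eq_zero.1 h5 with h6 | h6
    · linarith
    · exact absurd h6 hk
  · right
    funext j
    have := hsym j k
    have h7 : z k = - y k := by rw [hk1]; ring
    rw [h7] at this
    have h5 : (y j + z j) * y k = 0 := by linarith
    rcases mul_eq_zero.1 h5 with h6 | h6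
    · simp only [Pi.neg_apply]; linarith
    · exact absurd h6 hk

private theorem bad_neg {f : (MvPolynomial (Fin 3) ℤ)[X]} {y : Fin 3 → ℤ}
    (h : BadLine f (-y)) : BadLine f y := by
  obtain ⟨u, v, h1, h2, h3, h4⟩ := h
  refine ⟨u, v, h1, ?_, ?_, h4⟩
  · simp only [dot, rat, Pi.neg_apply, Int.cast_neg] at h2 ⊢
    linarith
  · simp only [dot, rat, Pi.neg_apply, Int.cast_neg] at h3 ⊢
    linarith

/-- over a point of a bad line there is an integral root -/
private theorem bad_root {m D : ℕ} {f : (MvPolynomial (Fin 3) ℤ)[X]} (hf : WMonic m D f)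
    {y a : Fin 3 → ℤ} (hy : y ≠ 0) (ha : a ≠ 0) (hya : dot y a = 0) (hb : BadLine f y) :
    ∃ τ : ℤ, (sp f a).eval τ = 0 := by
  have hb' := hb
  obtain ⟨u, v, hli, hu, hv, -⟩ := hb'
  have hra : rat a ≠ 0 := by
    intro h
    apply ha
    funext i
    have := congrFun h i
    simpa [rat] using this
  have hya' : dot (rat y) (rat a) = 0 := by
    have : ((dot y a : ℤ) : ℚ) = 0 := by rw [hya]; simp
    simpa [dot, rat] using this
  have hw : ∃ w : Fin 3 → ℚ, LinearIndependent ℚ ![w, rat a] ∧ dot (rat y) w = 0 := by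
    by_contra hc
    push Not at hc
    have hu' : ¬ LinearIndependent ℚ ![u, rat a] := fun h => hc u h hu
    have hv' : ¬ LinearIndependent ℚ ![v, rat a] := fun h => hc v h hv
    rw [LinearIndependent.pair_symm_iff, LinearIndependent.pair_iff' hra] at hu' hv'
    push Not at hu' hv'
    obtain ⟨c, hc1⟩ := hu'
    obtain ⟨d, hd1⟩ := hv'
    rw [LinearIndependent.pair_iff] at hli
    have := hli d (-c) (by rw [← hc1, ← hd1, smul_smul, smul_smul]; module)
    have hd0 : d = 0 := this.1
    have hc0 : c = 0 := by simpa using this.2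
    have h7 := hli 1 0 (by rw [← hc1, hc0]; simp)
    exact one_ne_zero h7.1
  obtain ⟨w, hwli, hwd⟩ := hw
  obtain ⟨p, hp⟩ := root_any_basis hf y hy hb w (rat a) hwli hwd hya'
  have h1 : (sp f (rat a)).eval (p.eval 0) = 0 := by
    have h2 : (gline f w (rat a)).map (evalRingHom 0) = sp f (rat a) := by
      unfold gline
      rw [sp_map]
      congr 1
      funext c
      simp
    rw [← h2, Polynomial.eval_map]
    have h3 := Polynomial.eval₂_hom (p := gline f w (rat a)) (evalRingHom (0 : ℚ)) p
    rw [hp, map_zero] at h3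
    exact h3
  have h4 : sp f (rat a) = (sp f a).map (Int.castRingHom ℚ) := by
    rw [sp_map]; rfl
  have h5 : aeval (p.eval 0) (sp f a) = 0 := by
    have h8 := h1
    rw [h4, Polynomial.eval_map] at h8
    exact h8
  obtain ⟨τ, hτ⟩ := isInteger_of_is_root_of_monic (sp_monic hf a) h5
  refine ⟨τ, ?_⟩
  rw [h4, ← hτ] at h1
  have h6 := Polynomial.eval_intCast_map (Int.castRingHom ℚ) (sp f a) τ
  have h7 : ((sp f a).map (Int.castRingHom ℚ)).eval ((τ : ℤ) : ℚ) = 0 := h1
  rw [h6, Int.cast_id, eq_intCast] at h7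
  exact_mod_cast h7

/-- Lines over which the double cover splits. Proof: as `bad_count` (`BadCount.lean`), with
`D = 2`, `f = sqf G`, `Δ = G`, `N = 2 m`, and `dbl_line` in place of `good_line` (`(B^2)^(1/2) = B`).
Copy the proof and the private lemmas. -/
theorem bad_count2 {m : ℕ} (hm : 1 ≤ m) {G : MvPolynomial (Fin 3) ℤ}
    (hG : G.IsHomogeneous (2 * m)) (hG0 : G ≠ 0) (hnr : NoRoot (sqf G)) :
    ∃ (c : ℕ) (C : ℝ), 0 < C ∧ ∀ H : ℕ, 1 ≤ H →
      ({y : Fin 3 → ℤ | prim y ∧ mx y ≤ H ∧ BadLine (sqf G) y}.ncard : ℝ) ≤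
        C * H * (log (H + 2)) ^ c := by
  classical
  have hevalZ : ∀ x : Fin 3 → ℤ, MvPolynomial.eval₂ (Int.castRingHom ℤ) x G = MvPolynomial.eval x G := by
    intro x
    rw [MvPolynomial.eval, MvPolynomial.coe_eval₂Hom]
    congr 1
  have hevalQ : ∀ x : Fin 3 → ℤ, MvPolynomial.eval₂ (Int.castRingHom ℚ) (rat x) G =
      ((MvPolynomial.eval x G : ℤ) : ℚ) := by
    intro x
    have h1 := sp_map (Int.castRingHom ℚ) (sqf G) x
    rw [sp_sqf, sp_sqf] at h1
    have h2 := congrArg (fun p => Polynomial.coeff p 0) h1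
    simp only [Polynomial.map_sub, Polynomial.map_pow, Polynomial.map_X, Polynomial.map_C, coeff_sub,
      coeff_C_zero, coeff_X_pow] at h2
    rw [hevalZ] at h2
    have h3 : (Int.castRingHom ℚ) (MvPolynomial.eval x G) =
        MvPolynomial.eval₂ (Int.castRingHom ℚ) (fun c => (Int.castRingHom ℚ) (x c)) G := by
      linarith
    exact h3.symm
  have hf : WMonic m 2 (sqf G) := sqf_wmonic hG
  obtain ⟨f, hfdef⟩ : ∃ f, f = sqf G := ⟨_, rfl⟩
  have hs : ∀ (a : Fin 3 → ℤ), MvPolynomial.eval a G ≠ 0 → ∀ τ : ℚ,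
      (sp f (rat a)).eval τ = 0 → (derivative (sp f (rat a))).eval τ ≠ 0 := by
    intro a ha τ hτ h0
    rw [hfdef, sp_sqf, hevalQ] at hτ h0
    simp only [eval_sub, eval_pow, eval_X, eval_C, derivative_sub, derivative_X_pow, derivative_C, eval_mul,
      sub_zero] at hτ h0
    have h1 : τ = 0 := by
      have h2 : (2 : ℚ) * τ = 0 := by simpa using h0
      linarith
    rw [h1] at hτ
    apply ha
    have h3 : ((MvPolynomial.eval a G : ℤ) : ℚ) = 0 := by linarith
    exact_mod_cast h3
  rw [← hfdef] at hf hnr ⊢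
  obtain ⟨Q, z, z', hQ, pQ, pz, pz', zQ, zQ', hne, hne', gz, gz'⟩ :=
    good_pair (by norm_num) hf hnr G (2 * m) hG0 hG hs
  obtain ⟨c, Cg, hCg, hg⟩ := dbl_line hm hG
  rw [← hfdef] at hg
  set K : ℕ := 2 * 2 * (m * 2 + 1) + 2 with hK
  -- the finite exceptional set
  set Fn : Set (Fin 3 → ℤ) := {y | prim y ∧ ∃ a, (prim a ∧ dot z a = 0 ∧
    MvPolynomial.eval a G = 0) ∧ ∃ a', (prim a' ∧ dot z' a' = 0 ∧ MvPolynomial.eval a' G = 0) ∧
      cr a a' ≠ 0 ∧ dot y a = 0 ∧ dot y a' = 0} with hFn
  have hZ := plane_zeros_finite G (2 * m) hG z Q pz zQ hQ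
  have hZ' := plane_zeros_finite G (2 * m) hG z' Q pz' zQ' hQ
  have hFnfin : Fn.Finite := by
    have h1 : (⋃ a ∈ {a : Fin 3 → ℤ | prim a ∧ dot z a = 0 ∧ MvPolynomial.eval a G = 0},
        ⋃ a' ∈ {a : Fin 3 → ℤ | prim a ∧ dot z' a = 0 ∧ MvPolynomial.eval a G = 0},
          {y : Fin 3 → ℤ | prim y ∧ cr a a' ≠ 0 ∧ dot y a = 0 ∧ dot y a' = 0}).Finite := by
      refine hZ.biUnion fun a _ => hZ'.biUnion fun a' _ => ?_
      by_cases h0 : cr a a' = 0
      · convert Set.finite_empty
        ext y
        simp [h0]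
      · obtain ⟨b, g, pb, hg0, hgb, -⟩ := prim_part (cr a a') h0
        refine (Set.toFinite {b, -b}).subset ?_
        rintro y ⟨py, -, hya, hya'⟩
        have h2 : cr y b = 0 := by
          have h3 : ∀ i, g * cr y b i = 0 := by
            have e0 := hgb 0
            have e1 := hgb 1
            have e2 := hgb 2
            simp only [cr, Matrix.cons_val_zero, Matrix.cons_val_one, Matrix.cons_val] at e0 e1 e2
            unfold dot at hya hya'
            intro i
            fin_cases i
            · simp only [cr, Fin.zero_eta, Matrix.cons_val_zero]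
              have : g * (y 1 * b 2 - y 2 * b 1) = y 1 * (g * b 2) - y 2 * (g * b 1) := by ring
              rw [this, ← e2, ← e1]
              linear_combination a 0 * hya' - a' 0 * hya
            · simp only [cr, Fin.mk_one, Matrix.cons_val_one, Matrix.cons_val_zero]
              have : g * (y 2 * b 0 - y 0 * b 2) = y 2 * (g * b 0) - y 0 * (g * b 2) := by ring
              rw [this, ← e2, ← e0]
              linear_combination a 1 * hya' - a' 1 * hya
            · simp only [cr, Fin.reduceFinMk, Matrix.cons_val]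
              have : g * (y 0 * b 1 - y 1 * b 0) = y 0 * (g * b 1) - y 1 * (g * b 0) := by ring
              rw [this, ← e1, ← e0]
              linear_combination a 2 * hya' - a' 2 * hya
          funext i
          rcases mul_eq_zero.1 (h3 i) with h4 | h4
          · exact absurd h4 hg0
          · exact h4
        rcases prim_parallel py pb h2 with h5 | h5
        · left; exact h5
        · right; exact h5
    refine h1.subset ?_
    rintro y ⟨py, a, ha, a', ha', hcr, hya, hya'⟩
    simp only [Set.mem_iUnion]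
    exact ⟨a, ha, a', ha', py, hcr, hya, hya'⟩
  -- the thin sets on the two good lines
  have main : ∀ w : Fin 3 → ℤ, prim w → ¬ BadLine f w → ∃ A : ℝ, 0 < A ∧ ∀ H : ℕ, 1 ≤ H →
      ∃ S : Finset (Fin 3 → ℤ), (∀ a, prim a → mx a ≤ 2 * mx w * H → dot w a = 0 →
        (∃ τ : ℤ, (sp f a).eval τ = 0) → MvPolynomial.eval a G ≠ 0 → a ∈ S) ∧
        (∀ a ∈ S, prim a ∧ MvPolynomial.eval a G ≠ 0) ∧
        (S.card : ℝ) ≤ A * H * (log (H + 2)) ^ c := by
    intro w pw gw
    set cw : ℕ := 3 + 2 * mx w + (nsq w).natAbs with hcw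
    have hcw3 : 3 ≤ cw := by omega
    have hcwR : (3 : ℝ) ≤ cw := by exact_mod_cast hcw3
    have hlogcw : 0 ≤ log (cw : ℝ) := Real.log_nonneg (by linarith)
    refine ⟨Cg * cw * (log cw + 1) ^ c, by positivity, ?_⟩
    intro H hH
    have hHR : (1 : ℝ) ≤ H := by exact_mod_cast hH
    set B : ℕ := cw * H with hB
    have hB3 : 3 ≤ B := by
      calc 3 ≤ cw := hcw3
        _ = cw * 1 := by ring
        _ ≤ cw * H := Nat.mul_le_mul_left _ hH
    set P : (Fin 3 → ℤ) → Prop := fun x => prim x ∧ mx x ≤ B ∧ dot w x = 0 ∧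
      MvPolynomial.eval x G ≠ 0 ∧ IsSquare (MvPolynomial.eval x G) with hP
    have hfin : {x | P x}.Finite := bc_finite B P (fun x hx => hx.2.1)
    refine ⟨hfin.toFinset.filter (fun a => MvPolynomial.eval a G ≠ 0), ?_, ?_, ?_⟩
    · rintro a pa ha1 ha2 ⟨τ, hτ⟩ ha3
      rw [Finset.mem_filter, Set.Finite.mem_toFinset]
      refine ⟨⟨pa, ?_, ha2, ha3, τ, ?_⟩, ha3⟩
      · refine ha1.trans (Nat.mul_le_mul_right _ ?_)
        omega
      · rw [hfdef, sp_sqf, hevalZ] at hτ
        simp only [eval_sub, eval_pow, eval_X, eval_C] at hτ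
        have h5 : MvPolynomial.eval a G = τ ^ 2 := by linarith
        rw [h5, sq]
    · intro a ha
      rw [Finset.mem_filter, Set.Finite.mem_toFinset] at ha
      exact ⟨ha.1.1, ha.2⟩
    · have h1 : ((hfin.toFinset.filter (fun a => MvPolynomial.eval a G ≠ 0)).card : ℝ) ≤
          ({x | P x}.ncard : ℝ) := by
        rw [Set.ncard_eq_toFinset_card _ hfin]
        exact_mod_cast Finset.card_filter_le _ _
      have hnw : nsq w ≤ 9 * (B : ℤ) := by
        have h2 : nsq w ≤ ((nsq w).natAbs : ℤ) := Int.le_natAbs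
        have h3 : ((nsq w).natAbs : ℤ) ≤ (cw : ℤ) := by
          have : (nsq w).natAbs ≤ cw := by omega
          exact_mod_cast this
        have h4 : (cw : ℤ) ≤ (B : ℤ) := by
          have : cw ≤ B := by
            calc cw = cw * 1 := by ring
              _ ≤ cw * H := Nat.mul_le_mul_left _ hH
          exact_mod_cast this
        have h5 : (0 : ℤ) ≤ B := by positivity
        linarith
      have h2 := hg B hB3 w pw hnw gw
      have hmw : 1 ≤ mx w := by
        by_contra hc
        have h0 : mx w = 0 := by omega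
        have h1 : ∀ i, |w i| ≤ ((0 : ℕ) : ℤ) := (bc_mx_le_iff 0 w).1 (by omega)
        have h2 : w = 0 := by
          funext i
          have := h1 i
          simpa using this
        subst h2
        unfold prim at pw
        have h4 : Finset.univ.gcd (0 : Fin 3 → ℤ) = 0 := by
          rw [Finset.gcd_eq_zero_iff]; simp
        rw [h4] at pw
        exact zero_ne_one pw
      have hmwR : (1 : ℝ) ≤ mx w := by exact_mod_cast hmw
      have hBR : (3 : ℝ) ≤ B := by exact_mod_cast hB3
      have h3 : ((B : ℝ) ^ 2 / mx w) ^ (1 / 2 : ℝ) ≤ B := by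
        have e1 : (B : ℝ) ^ 2 / mx w ≤ (B : ℝ) ^ 2 := by
          rw [div_le_iff₀ (by linarith)]
          have : (B : ℝ) ^ 2 * 1 ≤ (B : ℝ) ^ 2 * mx w :=
            mul_le_mul_of_nonneg_left hmwR (by positivity)
          linarith
        calc ((B : ℝ) ^ 2 / mx w) ^ (1 / 2 : ℝ) ≤ ((B : ℝ) ^ 2) ^ (1 / 2 : ℝ) :=
              Real.rpow_le_rpow (by positivity) e1 (by norm_num)
          _ = B := by
              rw [← Real.rpow_natCast, ← Real.rpow_mul (by linarith)]; norm_num
      have hLH : 1 ≤ log ((H : ℝ) + 2) := by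
        rw [Real.le_log_iff_exp_le (by linarith)]
        have := Real.exp_one_lt_d9
        linarith
      have h4 : log (B : ℝ) ≤ (log cw + 1) * log ((H : ℝ) + 2) := by
        have e1 : (B : ℝ) = cw * H := by rw [hB]; push_cast; ring
        rw [e1, Real.log_mul (by linarith) (by linarith)]
        have e2 : log (H : ℝ) ≤ log ((H : ℝ) + 2) := Real.log_le_log (by linarith) (by linarith)
        nlinarith
      have h5 : 0 ≤ log (B : ℝ) := Real.log_nonneg (by linarith)
      calc ((hfin.toFinset.filter (fun a => MvPolynomial.eval a G ≠ 0)).card : ℝ)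
          ≤ ({x | P x}.ncard : ℝ) := h1
        _ ≤ Cg * ((B : ℝ) ^ 2 / mx w) ^ (1 / 2 : ℝ) * (log B) ^ c := h2
        _ ≤ Cg * B * ((log cw + 1) * log ((H : ℝ) + 2)) ^ c := by
            apply mul_le_mul _ (pow_le_pow_left₀ h5 h4 c) (by positivity) (by positivity)
            exact mul_le_mul_of_nonneg_left h3 hCg.le
        _ = Cg * cw * (log cw + 1) ^ c * H * (log (H + 2)) ^ c := by
            rw [mul_pow, hB]; push_cast; ring
  have union_le : ∀ S : Finset (Fin 3 → ℤ), (∀ a ∈ S, prim a ∧ MvPolynomial.eval a G ≠ 0) →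
      (⋃ a ∈ S, {y : Fin 3 → ℤ | prim y ∧ dot y a = 0 ∧ BadLine f y}).Finite ∧
      (⋃ a ∈ S, {y : Fin 3 → ℤ | prim y ∧ dot y a = 0 ∧ BadLine f y}).ncard ≤ S.card * K := by
    intro S
    induction S using Finset.induction_on with
    | empty => intro _; simp
    | insert a S haS ih =>
      intro hS
      obtain ⟨ih1, ih2⟩ := ih (fun b hb => hS b (Finset.mem_insert_of_mem hb))
      obtain ⟨pa, hda⟩ := hS a (Finset.mem_insert_self _ _)
      have ha0 : a ≠ 0 := by
        rintro rfl
        unfold prim at pa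
        have h4 : Finset.univ.gcd (0 : Fin 3 → ℤ) = 0 := by
          rw [Finset.gcd_eq_zero_iff]; simp
        rw [h4] at pa
        exact zero_ne_one pa
      obtain ⟨b1, b2⟩ := bad_through (by norm_num) hf hnr a ha0 (hs a hda)
      rw [Finset.set_biUnion_insert, Finset.card_insert_of_notMem haS]
      refine ⟨b1.union ih1, (Set.ncard_union_le _ _).trans ?_⟩
      calc _ ≤ K + S.card * K := add_le_add b2 ih2
        _ = (S.card + 1) * K := by ring
  obtain ⟨A, hA, hA'⟩ := main z pz gz
  obtain ⟨A', hA1, hA1'⟩ := main z' pz' gz'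
  refine ⟨c, K * A + K * A' + Fn.ncard + 1, by positivity, ?_⟩
  intro H hH
  obtain ⟨S, s1, s2, s3⟩ := hA' H hH
  obtain ⟨S', s1', s2', s3'⟩ := hA1' H hH
  obtain ⟨u1, u2⟩ := union_le S s2
  obtain ⟨u1', u2'⟩ := union_le S' s2'
  have hHR : (1 : ℝ) ≤ H := by exact_mod_cast hH
  have hsub : {y : Fin 3 → ℤ | prim y ∧ mx y ≤ H ∧ BadLine f y} ⊆
      ((⋃ a ∈ S, {y : Fin 3 → ℤ | prim y ∧ dot y a = 0 ∧ BadLine f y}) ∪
       (⋃ a ∈ S', {y : Fin 3 → ℤ | prim y ∧ dot y a = 0 ∧ BadLine f y})) ∪ Fn := by
    rintro y ⟨py, hy1, hy2⟩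
    have hy0 : y ≠ 0 := by
      rintro rfl
      unfold prim at py
      have h4 : Finset.univ.gcd (0 : Fin 3 → ℤ) = 0 := by
        rw [Finset.gcd_eq_zero_iff]; simp
      rw [h4] at py
      exact zero_ne_one py
    have aux : ∀ w : Fin 3 → ℤ, prim w → ¬ BadLine f w → ∃ a : Fin 3 → ℤ, prim a ∧
        mx a ≤ 2 * mx w * H ∧ dot y a = 0 ∧ dot w a = 0 ∧ (∃ τ : ℤ, (sp f a).eval τ = 0) := by
      intro w pw gw
      have h0 : cr y w ≠ 0 := by
        intro h0
        rcases prim_parallel py pw h0 with h1 | h1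
        · exact gw (h1 ▸ hy2)
        · apply gw
          apply bad_neg
          rw [← h1]; exact hy2
      obtain ⟨a, g, pa, hg0, hga, hma⟩ := prim_part (cr y w) h0
      have d1 : dot y a = 0 := by
        have e1 := dot_cr_left y w
        have e2 : dot y (cr y w) = g * dot y a := by
          unfold dot; rw [hga 0, hga 1, hga 2]; ring
        rw [e2] at e1
        rcases mul_eq_zero.1 e1 with h | h
        · exact absurd h hg0
        · exact h
      have d2 : dot w a = 0 := by
        have e1 := dot_cr_right y w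
        have e2 : dot w (cr y w) = g * dot w a := by
          unfold dot; rw [hga 0, hga 1, hga 2]; ring
        rw [e2] at e1
        rcases mul_eq_zero.1 e1 with h | h
        · exact absurd h hg0
        · exact h
      have ha0 : a ≠ 0 := by
        rintro rfl
        unfold prim at pa
        have h4 : Finset.univ.gcd (0 : Fin 3 → ℤ) = 0 := by
          rw [Finset.gcd_eq_zero_iff]; simp
        rw [h4] at pa
        exact zero_ne_one pa
      refine ⟨a, pa, ?_, d1, d2, bad_root hf hy0 ha0 d1 hy2⟩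
      calc mx a ≤ mx (cr y w) := hma
        _ ≤ 2 * mx w * mx y := mx_cr y w
        _ ≤ 2 * mx w * H := Nat.mul_le_mul_left _ hy1
    obtain ⟨a, pa, ha1, ha2, ha3, ha4⟩ := aux z pz gz
    obtain ⟨a', pa', ha1', ha2', ha3', ha4'⟩ := aux z' pz' gz'
    by_cases hda : MvPolynomial.eval a G = 0
    · by_cases hda' : MvPolynomial.eval a' G = 0
      · right
        refine ⟨py, a, ⟨pa, ha3, hda⟩, a', ⟨pa', ha3', hda'⟩, ?_, ha2, ha2'⟩
        -- a, a' are not parallel
        intro h0
        have h1 : dot z' a = 0 := by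
          rcases prim_parallel pa pa' h0 with h2 | h2
          · rw [h2]; exact ha3'
          · rw [h2]
            unfold dot at ha3' ⊢
            simp only [Pi.neg_apply]
            linarith
        -- a and Q are both orthogonal to z, z'
        have h2 : cr a Q = 0 := by
          have hzz : cr z z' ≠ 0 := by
            intro h3
            rcases prim_parallel pz pz' h3 with h4 | h4
            · exact hne h4
            · exact hne' h4
          have hk : ∃ k, cr z z' k ≠ 0 := by
            by_contra hc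
            push Not at hc
            exact hzz (funext hc)
          obtain ⟨k, hk⟩ := hk
          have par : ∀ w : Fin 3 → ℤ, dot z w = 0 → dot z' w = 0 → ∀ i j : Fin 3,
              cr z z' i * w j = cr z z' j * w i := by
            intro w h4 h5
            unfold dot at h4 h5
            have q01 : cr z z' 0 * w 1 = cr z z' 1 * w 0 := by
              simp only [cr, Matrix.cons_val_zero, Matrix.cons_val_one]
              linear_combination z' 2 * h4 - z 2 * h5
            have q02 : cr z z' 0 * w 2 = cr z z' 2 * w 0 := by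
              simp only [cr, Matrix.cons_val_zero, Matrix.cons_val]
              linear_combination z 1 * h5 - z' 1 * h4
            have q12 : cr z z' 1 * w 2 = cr z z' 2 * w 1 := by
              simp only [cr, Matrix.cons_val_one, Matrix.cons_val, Matrix.cons_val_zero]
              linear_combination z' 0 * h4 - z 0 * h5
            intro i j
            fin_cases i <;> fin_cases j <;> simp only [Fin.zero_eta, Fin.mk_one,
              Fin.reduceFinMk] <;> linarith
          have h3 : ∀ i, cr z z' k * cr a Q i = 0 := by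
            have pa1 := par a ha3 h1
            have pQ1 := par Q zQ zQ'
            intro i
            fin_cases i
            · simp only [Fin.zero_eta]
              have : cr a Q 0 = a 1 * Q 2 - a 2 * Q 1 := rfl
              rw [this]
              linear_combination Q 2 * (pa1 k 1) - Q 1 * (pa1 k 2) + a k * (pQ1 1 2)
            · simp only [Fin.mk_one]
              have : cr a Q 1 = a 2 * Q 0 - a 0 * Q 2 := rfl
              rw [this]
              linear_combination Q 0 * (pa1 k 2) - Q 2 * (pa1 k 0) + a k * (pQ1 2 0)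
            · simp only [Fin.reduceFinMk]
              have : cr a Q 2 = a 0 * Q 1 - a 1 * Q 0 := rfl
              rw [this]
              linear_combination Q 1 * (pa1 k 0) - Q 0 * (pa1 k 1) + a k * (pQ1 0 1)
          funext i
          rcases mul_eq_zero.1 (h3 i) with h4 | h4
          · exact absurd h4 hk
          · exact h4
        rcases prim_parallel pa pQ h2 with h3 | h3
        · exact hQ (h3 ▸ hda)
        · apply hQ
          have h4 : Q = fun i => (-1) * a i := by
            funext i; rw [h3]; simp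
          have h5 := eval₂_smul_hom (R := ℤ) hG (-1) a
          rw [← h4] at h5
          have h6 : ∀ x : Fin 3 → ℤ, MvPolynomial.eval₂ (Int.castRingHom ℤ) x G =
              MvPolynomial.eval x G := by
            intro x
            rw [MvPolynomial.eval, MvPolynomial.coe_eval₂Hom]
            congr 1
          rw [h6, h6, hda, mul_zero] at h5
          exact h5
      · left; right
        simp only [Set.mem_iUnion]
        exact ⟨a', s1' a' pa' ha1' ha3' ha4' hda', py, ha2', hy2⟩
    · left; left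
      simp only [Set.mem_iUnion]
      exact ⟨a, s1 a pa ha1 ha3 ha4 hda, py, ha2, hy2⟩
  have hcard := (Set.ncard_le_ncard hsub ((u1.union u1').union hFnfin)).trans
    ((Set.ncard_union_le _ _).trans (add_le_add_left (Set.ncard_union_le _ _) _))
  have hcard' : ({y : Fin 3 → ℤ | prim y ∧ mx y ≤ H ∧ BadLine f y}.ncard : ℝ) ≤
      S.card * K + S'.card * K + Fn.ncard := by
    have : {y : Fin 3 → ℤ | prim y ∧ mx y ≤ H ∧ BadLine f y}.ncard ≤
      S.card * K + S'.card * K + Fn.ncard := by omega
    exact_mod_cast this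
  have hLH : 1 ≤ log ((H : ℝ) + 2) := by
    rw [Real.le_log_iff_exp_le (by linarith)]
    have := Real.exp_one_lt_d9
    linarith
  have hp : 1 ≤ (H : ℝ) * (log ((H : ℝ) + 2)) ^ c := by
    have := one_le_pow₀ hLH (n := c)
    nlinarith
  have k1 : (S.card : ℝ) * K ≤ K * A * H * (log (H + 2)) ^ c := by
    calc (S.card : ℝ) * K ≤ (A * H * (log (H + 2)) ^ c) * K :=
          mul_le_mul_of_nonneg_right s3 (Nat.cast_nonneg _)
      _ = _ := by ring
  have k2 : (S'.card : ℝ) * K ≤ K * A' * H * (log (H + 2)) ^ c := by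
    calc (S'.card : ℝ) * K ≤ (A' * H * (log (H + 2)) ^ c) * K :=
          mul_le_mul_of_nonneg_right s3' (Nat.cast_nonneg _)
      _ = _ := by ring
  have k3 : ((Fn.ncard : ℝ) + 1) ≤ ((Fn.ncard : ℝ) + 1) * (H * (log ((H : ℝ) + 2)) ^ c) :=
    le_mul_of_one_le_right (by positivity) hp
  calc ({y : Fin 3 → ℤ | prim y ∧ mx y ≤ H ∧ BadLine f y}.ncard : ℝ)
      ≤ S.card * K + S'.card * K + Fn.ncard := hcard'
    _ ≤ K * A * H * (log (H + 2)) ^ c + K * A' * H * (log (H + 2)) ^ c +
        ((Fn.ncard : ℝ) + 1) * (H * (log ((H : ℝ) + 2)) ^ c) := by linarith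
    _ = (K * A + K * A' + Fn.ncard + 1) * H * (log (H + 2)) ^ c := by ring

end Pool.MP_aab329_nt.SerreR
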