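import Pool.Agent.Lib.MP_aab329_nt.Defs

set_option autoImplicit false

namespace Pool.MP_aab329_nt.SerreR

open Polynomial Pool.MP_aab329_nt.SerreP

/-- The variables `x₀, x₁` go to the coefficients, `x₂` is the main variable. -/
private noncomputable def eqv (R : Type*) [CommRing R] :
    MvPolynomial (Fin 3) R ≃ₐ[R] (MvPolynomial (Fin 2) R)[X] :=
  (MvPolynomial.renameEquiv R (finRotate 3)).trans (MvPolynomial.finSuccEquiv R 2)

private lemma eqv_C {R : Type*} [CommRing R] (a : R) :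
    eqv R (MvPolynomial.C a) = C (MvPolynomial.C a) := by
  simp [eqv, MvPolynomial.finSuccEquiv_apply]

private lemma eqv_X0 {R : Type*} [CommRing R] :
    eqv R (MvPolynomial.X 0) = C (MvPolynomial.X 0) := by
  have : (finRotate 3) 0 = Fin.succ (0 : Fin 2) := by decide
  simp only [eqv, AlgEquiv.trans_apply, MvPolynomial.renameEquiv_apply, MvPolynomial.rename_X, this,
    MvPolynomial.finSuccEquiv_X_succ]

private lemma eqv_X1 {R : Type*} [CommRing R] :
    eqv R (MvPolynomial.X 1) = C (MvPolynomial.X 1) := by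
  have : (finRotate 3) 1 = Fin.succ (1 : Fin 2) := by decide
  simp only [eqv, AlgEquiv.trans_apply, MvPolynomial.renameEquiv_apply, MvPolynomial.rename_X, this,
    MvPolynomial.finSuccEquiv_X_succ]

private lemma eqv_X2 {R : Type*} [CommRing R] :
    eqv R (MvPolynomial.X 2) = X := by
  have : (finRotate 3) 2 = (0 : Fin 3) := by decide
  simp only [eqv, AlgEquiv.trans_apply, MvPolynomial.renameEquiv_apply, MvPolynomial.rename_X, this,
    MvPolynomial.finSuccEquiv_X_zero]

private lemma eqv_eval₂ {R S : Type*} [CommRing R] [CommRing S] (φ : R →+* S) (x : Fin 3 → S)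
    (F : MvPolynomial (Fin 3) R) :
    (eqv R F).eval₂ (MvPolynomial.eval₂Hom φ ![x 0, x 1]) (x 2) = MvPolynomial.eval₂ φ x F := by
  have h : ((Polynomial.eval₂RingHom (MvPolynomial.eval₂Hom φ ![x 0, x 1]) (x 2)).comp
      (eqv R : MvPolynomial (Fin 3) R →+* (MvPolynomial (Fin 2) R)[X])) =
      MvPolynomial.eval₂Hom φ x := by
    apply MvPolynomial.ringHom_ext
    · intro r; simp [eqv_C]
    · intro i
      fin_cases i
      · simp [eqv_X0]
      · simp [eqv_X1]
      · simp [eqv_X2]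
  exact congrArg (fun g => g F) h

private lemma eqv_map {R S : Type*} [CommRing R] [CommRing S] (φ : R →+* S)
    (F : MvPolynomial (Fin 3) R) :
    eqv S (MvPolynomial.map φ F) = (eqv R F).map (MvPolynomial.map φ) := by
  have h : ((eqv S : MvPolynomial (Fin 3) S →+* (MvPolynomial (Fin 2) S)[X]).comp
      (MvPolynomial.map φ)) = (Polynomial.mapRingHom (MvPolynomial.map φ)).comp
      (eqv R : MvPolynomial (Fin 3) R →+* (MvPolynomial (Fin 2) R)[X]) := by
    apply MvPolynomial.ringHom_ext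
    · intro r; simp [eqv_C]
    · intro i
      fin_cases i
      · simp [eqv_X0]
      · simp [eqv_X1]
      · simp [eqv_X2]
  exact congrArg (fun g => g F) h

private lemma eqv_natDegree {F : MvPolynomial (Fin 3) ℤ} {n : ℕ} (h : F.IsHomogeneous n) :
    (eqv ℤ F).natDegree ≤ n := by
  have h1 : (eqv ℤ F).natDegree =
      MvPolynomial.degreeOf 0 (MvPolynomial.rename (finRotate 3) F) := by
    rw [← MvPolynomial.natDegree_finSuccEquiv]; rfl
  rw [h1]
  refine (MvPolynomial.degreeOf_le_totalDegree _ _).trans ?_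
  exact (MvPolynomial.IsHomogeneous.rename_isHomogeneous h).totalDegree_le

private lemma eqv_coeff {F : MvPolynomial (Fin 3) ℤ} {n : ℕ} (h : F.IsHomogeneous n) :
    (eqv ℤ F).coeff n = MvPolynomial.C (MvPolynomial.eval ![0, 0, 1] F) := by
  have h0 : ((eqv ℤ F).coeff n).IsHomogeneous 0 := by
    have := (MvPolynomial.IsHomogeneous.rename_isHomogeneous
      (f := finRotate 3) h).finSuccEquiv_coeff_isHomogeneous n 0 (by omega)
    exact this
  have h1 : (eqv ℤ F).coeff n = MvPolynomial.C (((eqv ℤ F).coeff n).coeff 0) :=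
    MvPolynomial.totalDegree_eq_zero_iff_eq_C.mp (Nat.le_zero.mp h0.totalDegree_le)
  have h2 : (eqv ℤ F).map (MvPolynomial.eval₂Hom (RingHom.id ℤ) ![0, 0]) =
      C (MvPolynomial.eval ![0, 0, 1] F) * X ^ n := by
    have e0 : (fun i => X * (fun i => C ((![0, 0, 1] : Fin 3 → ℤ) i)) i) =
        (![0, 0, X] : Fin 3 → ℤ[X]) := by
      funext i
      fin_cases i <;> simp
    have e1 := eval₂_smul_hom h (X : ℤ[X]) (fun i => C ((![0, 0, 1] : Fin 3 → ℤ) i))
    rw [e0] at e1
    have e2 : MvPolynomial.eval₂ (Int.castRingHom ℤ[X])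
        (fun i => C ((![0, 0, 1] : Fin 3 → ℤ) i)) F = C (MvPolynomial.eval ![0, 0, 1] F) := by
      have : ((C : ℤ →+* ℤ[X]).comp (MvPolynomial.eval₂Hom (RingHom.id ℤ) ![0, 0, 1])) =
        MvPolynomial.eval₂Hom (Int.castRingHom ℤ[X]) (fun i => C ((![0, 0, 1] : Fin 3 → ℤ) i)) := by
        apply MvPolynomial.ringHom_ext
        · intro r; simp
        · intro i; simp
      exact (congrArg (fun g => g F) this).symm
    rw [e2, ← eqv_eval₂, mul_comm] at e1
    have e3 : ((C : ℤ →+* ℤ[X]).comp (MvPolynomial.eval₂Hom (RingHom.id ℤ) ![0, 0])) =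
        MvPolynomial.eval₂Hom (Int.castRingHom ℤ[X])
          ![(![0, 0, X] : Fin 3 → ℤ[X]) 0, (![0, 0, X] : Fin 3 → ℤ[X]) 1] := by
      apply MvPolynomial.ringHom_ext
      · intro r; simp
      · intro i; fin_cases i <;> simp
    rw [← e1, ← e3]
    rfl
  have h3 := congrArg (fun g => g.coeff n) h2
  simp only [Polynomial.coeff_map, Polynomial.coeff_C_mul, Polynomial.coeff_X_pow, if_true,
    mul_one] at h3
  rw [h1, ← h3]
  conv_rhs => rw [h1]
  simp

/-- Gauss: two relatively prime polynomials, one of them monic, are coprime over the fraction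
field. -/
private lemma gauss {R K : Type*} [CommRing R] [IsDomain R] [IsIntegrallyClosed R] [Field K]
    [Algebra R K] [IsFractionRing R K] {f g : R[X]} (hf : f.Monic) (h : IsRelPrime f g) :
    IsCoprime (f.map (algebraMap R K)) (g.map (algebraMap R K)) := by
  classical
  have hinj : Function.Injective (algebraMap R K) := IsFractionRing.injective R K
  set d := EuclideanDomain.gcd (f.map (algebraMap R K)) (g.map (algebraMap R K)) with hd
  have hd1 : d ∣ f.map (algebraMap R K) := EuclideanDomain.gcd_dvd_left _ _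
  have hd2 : d ∣ g.map (algebraMap R K) := EuclideanDomain.gcd_dvd_right _ _
  have hf0 : f.map (algebraMap R K) ≠ 0 := (hf.map _).ne_zero
  have hd0 : d ≠ 0 := fun h0 => hf0 (by rw [h0] at hd1; exact zero_dvd_iff.mp hd1)
  obtain ⟨d', hd'⟩ := IsIntegrallyClosed.eq_map_mul_C_of_dvd K hf hd1
  have hl : d.leadingCoeff ≠ 0 := Polynomial.leadingCoeff_ne_zero.mpr hd0
  have hm' : (d'.map (algebraMap R K)).Monic := by
    have := congrArg Polynomial.leadingCoeff hd'
    rw [Polynomial.leadingCoeff_mul, Polynomial.leadingCoeff_C] at this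
    exact mul_right_cancel₀ hl (by rw [this, one_mul])
  have hm : d'.Monic := Polynomial.monic_of_injective hinj hm'
  have hdd : d'.map (algebraMap R K) ∣ d := ⟨_, hd'.symm⟩
  have h1 : d' ∣ f := (Polynomial.map_dvd_map _ hinj hm).mp (hdd.trans hd1)
  have h2 : d' ∣ g := (Polynomial.map_dvd_map _ hinj hm).mp (hdd.trans hd2)
  have hu : IsUnit d' := h h1 h2
  have hd'1 : d' = 1 := hm.eq_one_of_isUnit hu
  rw [← EuclideanDomain.gcd_isUnit_iff, ← hd, ← hd', hd'1, Polynomial.map_one, one_mul]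
  exact Polynomial.isUnit_C.mpr (isUnit_iff_ne_zero.mpr hl)

/-- The map of coefficients to a field. -/
private noncomputable def io : MvPolynomial (Fin 2) ℤ →+* FractionRing (MvPolynomial (Fin 2) ℚ) :=
  (algebraMap (MvPolynomial (Fin 2) ℚ) (FractionRing (MvPolynomial (Fin 2) ℚ))).comp
    (MvPolynomial.map (Int.castRingHom ℚ))

private lemma io_inj : Function.Injective io :=
  (IsFractionRing.injective _ _).comp
    (MvPolynomial.map_injective _ (RingHom.injective_int (Int.castRingHom ℚ)))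

private lemma coprime_io (F₁ F₂ : MvPolynomial (Fin 3) ℤ) (n₁ : ℕ) (h₁ : F₁.IsHomogeneous n₁)
    (hn : MvPolynomial.eval ![0, 0, 1] F₁ ≠ 0)
    (hco : IsRelPrime (MvPolynomial.map (Int.castRingHom ℚ) F₁)
      (MvPolynomial.map (Int.castRingHom ℚ) F₂)) :
    IsCoprime ((eqv ℤ F₁).map io) ((eqv ℤ F₂).map io) := by
  set c : ℚ := ((MvPolynomial.eval ![0, 0, 1] F₁ : ℤ) : ℚ) with hc
  have hc0 : c ≠ 0 := by rw [hc]; exact_mod_cast hn
  set g₁ := eqv ℚ (MvPolynomial.map (Int.castRingHom ℚ) F₁) with hg₁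
  set g₂ := eqv ℚ (MvPolynomial.map (Int.castRingHom ℚ) F₂) with hg₂
  have hrel : IsRelPrime g₁ g₂ := by
    intro d hd1 hd2
    obtain ⟨d', rfl⟩ := (eqv ℚ).surjective d
    have h1 : d' ∣ MvPolynomial.map (Int.castRingHom ℚ) F₁ := by
      have := map_dvd (eqv ℚ).symm hd1
      simpa [hg₁] using this
    have h2 : d' ∣ MvPolynomial.map (Int.castRingHom ℚ) F₂ := by
      have := map_dvd (eqv ℚ).symm hd2
      simpa [hg₂] using this
    exact (hco h1 h2).map (eqv ℚ)
  have hdeg : g₁.natDegree ≤ n₁ := by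
    rw [hg₁, eqv_map]
    exact Polynomial.natDegree_map_le.trans (eqv_natDegree h₁)
  have hcoef : g₁.coeff n₁ = MvPolynomial.C c := by
    rw [hg₁, eqv_map, Polynomial.coeff_map, eqv_coeff h₁, MvPolynomial.map_C]
    simp [hc]
  have hu : IsUnit (C (MvPolynomial.C c⁻¹) : (MvPolynomial (Fin 2) ℚ)[X]) := by
    apply IsUnit.map; apply IsUnit.map
    exact isUnit_iff_ne_zero.mpr (inv_ne_zero hc0)
  have hmon : (C (MvPolynomial.C c⁻¹) * g₁).Monic := by
    apply Polynomial.monic_of_natDegree_le_of_coeff_eq_one n₁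
    · exact (Polynomial.natDegree_C_mul_le _ _).trans hdeg
    · rw [Polynomial.coeff_C_mul, hcoef, ← MvPolynomial.C_mul, inv_mul_cancel₀ hc0]; simp
  have hrel' : IsRelPrime (C (MvPolynomial.C c⁻¹) * g₁) g₂ := by
    intro d hd1 hd2
    exact hrel (hu.dvd_mul_left.mp hd1) hd2
  have := gauss (K := FractionRing (MvPolynomial (Fin 2) ℚ)) hmon hrel'
  rw [Polynomial.map_mul, isCoprime_mul_unit_left_left] at this
  · rw [hg₁, hg₂, eqv_map, eqv_map, Polynomial.map_map, Polynomial.map_map] at this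
    exact this
  · exact hu.map (Polynomial.mapRingHom _)

private lemma resA (F₁ F₂ : MvPolynomial (Fin 3) ℤ) (n₁ : ℕ) (h₁ : F₁.IsHomogeneous n₁)
    (hn : MvPolynomial.eval ![0, 0, 1] F₁ ≠ 0)
    (hco : IsRelPrime (MvPolynomial.map (Int.castRingHom ℚ) F₁)
      (MvPolynomial.map (Int.castRingHom ℚ) F₂)) :
    ∃ r : MvPolynomial (Fin 2) ℤ, r ≠ 0 ∧ ∃ p q : (MvPolynomial (Fin 2) ℤ)[X],
      eqv ℤ F₁ * p + eqv ℤ F₂ * q = C r := by
  have hcop := coprime_io F₁ F₂ n₁ h₁ hn hco
  have hF0 : F₁ ≠ 0 := by rintro rfl; simp at hn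
  have hg0 : eqv ℤ F₁ ≠ 0 := by
    intro h0
    exact hF0 ((eqv ℤ).injective (by rw [h0, map_zero]))
  refine ⟨resultant (eqv ℤ F₁) (eqv ℤ F₂) (eqv ℤ F₁).natDegree ((eqv ℤ F₂).natDegree + 1), ?_, ?_⟩
  · intro h0
    have h1 := congrArg io h0
    rw [← resultant_map_map, map_zero, resultant_add_right_deg] at h1
    · rw [pow_one, mul_eq_zero] at h1
      rcases h1 with h1 | h1
      · rw [Polynomial.coeff_map, map_eq_zero_iff io io_inj] at h1
        exact hg0 (Polynomial.leadingCoeff_eq_zero.mp h1)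
      · have h2 := resultant_ne_zero _ _ hcop
        rw [Polynomial.natDegree_map_eq_of_injective io_inj,
          Polynomial.natDegree_map_eq_of_injective io_inj] at h2
        exact h2 h1
    · exact Polynomial.natDegree_map_le
  · obtain ⟨p, q, -, -, h⟩ := exists_mul_add_mul_eq_C_resultant (eqv ℤ F₁) (eqv ℤ F₂)
      (m := (eqv ℤ F₁).natDegree) (n := (eqv ℤ F₂).natDegree + 1) le_rfl (Nat.le_succ _)
      (Or.inr (Nat.succ_ne_zero _))
    exact ⟨p, q, h⟩

/-- Dehomogenisation `x₀ ↦ X`, `x₁ ↦ T X`. -/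
private noncomputable def Phi : MvPolynomial (Fin 2) ℤ →+* ℤ[X][X] :=
  MvPolynomial.eval₂Hom (Int.castRingHom ℤ[X][X]) ![X, C X * X]

private lemma Phi_inj : Function.Injective Phi := by
  set K := FractionRing (MvPolynomial (Fin 2) ℤ)
  set al : MvPolynomial (Fin 2) ℤ →+* K := algebraMap _ _
  have hal : Function.Injective al := IsFractionRing.injective _ _
  have h0 : al (MvPolynomial.X 0) ≠ 0 := by
    rw [Ne, map_eq_zero_iff al hal]
    exact MvPolynomial.X_ne_zero _
  let Psi : ℤ[X][X] →+* K := Polynomial.eval₂RingHom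
    (Polynomial.eval₂RingHom (Int.castRingHom K) (al (MvPolynomial.X 1) / al (MvPolynomial.X 0)))
    (al (MvPolynomial.X 0))
  have h : Psi.comp Phi = al := by
    apply MvPolynomial.ringHom_ext
    · intro r; simp [Psi, Phi]
    · intro i
      fin_cases i
      · simp [Psi, Phi]
      · simp only [Psi, Phi, Polynomial.coe_eval₂RingHom, RingHom.comp_apply,
          MvPolynomial.coe_eval₂Hom, MvPolynomial.eval₂_X]
        simp [div_mul_cancel₀ _ h0]
  have h2 : Function.Injective (Psi.comp Phi) := by rw [h]; exact hal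
  exact Function.Injective.of_comp (f := Psi) h2

private lemma resB (F₁ F₂ : MvPolynomial (Fin 3) ℤ) (n₁ n₂ : ℕ) (h₁ : F₁.IsHomogeneous n₁)
    (h₂ : F₂.IsHomogeneous n₂) (hn : MvPolynomial.eval ![0, 0, 1] F₁ ≠ 0)
    (hco : IsRelPrime (MvPolynomial.map (Int.castRingHom ℚ) F₁)
      (MvPolynomial.map (Int.castRingHom ℚ) F₂)) :
    ∃ a : ℤ[X], a ≠ 0 ∧ ∀ (F : Type) [Field F] (t s : F),
      MvPolynomial.eval₂ (Int.castRingHom F) ![1, t, s] F₁ = 0 →
      MvPolynomial.eval₂ (Int.castRingHom F) ![1, t, s] F₂ = 0 →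
      a.eval₂ (Int.castRingHom F) t = 0 := by
  obtain ⟨r, hr, p, q, hpq⟩ := resA F₁ F₂ n₁ h₁ hn hco
  have hr' : Phi r ≠ 0 := by
    rw [Ne, map_eq_zero_iff Phi Phi_inj]; exact hr
  obtain ⟨m, hm⟩ : ∃ m, (Phi r).coeff m ≠ 0 := by
    by_contra hcon
    push Not at hcon
    exact hr' (Polynomial.ext (by simpa using hcon))
  refine ⟨(Phi r).coeff m, hm, ?_⟩
  intro F _ t s h1 h2
  have key : ∀ (G : MvPolynomial (Fin 3) ℤ) (n : ℕ), G.IsHomogeneous n →
      MvPolynomial.eval₂ (Int.castRingHom F) ![1, t, s] G = 0 →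
      (eqv ℤ G).eval₂ (MvPolynomial.eval₂Hom (Int.castRingHom F[X]) ![X, C t * X])
        (C s * X) = 0 := by
    intro G n hG h0
    have e0 : (fun i => X * (fun i => C ((![1, t, s] : Fin 3 → F) i)) i) =
        (![X, C t * X, C s * X] : Fin 3 → F[X]) := by
      funext i
      fin_cases i
      · simp
      · exact mul_comm _ _
      · exact mul_comm _ _
    have e1 := eval₂_smul_hom hG (X : F[X]) (fun i => C ((![1, t, s] : Fin 3 → F) i))
    rw [e0] at e1
    have e2 : MvPolynomial.eval₂ (Int.castRingHom F[X])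
        (fun i => C ((![1, t, s] : Fin 3 → F) i)) G =
          C (MvPolynomial.eval₂ (Int.castRingHom F) ![1, t, s] G) := by
      have : ((C : F →+* F[X]).comp (MvPolynomial.eval₂Hom (Int.castRingHom F) ![1, t, s])) =
        MvPolynomial.eval₂Hom (Int.castRingHom F[X]) (fun i => C ((![1, t, s] : Fin 3 → F) i)) := by
        apply MvPolynomial.ringHom_ext
        · intro r; simp
        · intro i; simp
      exact (congrArg (fun g => g G) this).symm
    rw [e2, ← eqv_eval₂, h0, C_0, mul_zero] at e1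
    exact e1
  have h3 := congrArg (Polynomial.eval₂ (MvPolynomial.eval₂Hom (Int.castRingHom F[X])
    ![X, C t * X]) (C s * X)) hpq
  rw [Polynomial.eval₂_add, Polynomial.eval₂_mul, Polynomial.eval₂_mul, key F₁ n₁ h₁ h1,
    key F₂ n₂ h₂ h2, Polynomial.eval₂_C, zero_mul, zero_mul, add_zero] at h3
  have h4 : (MvPolynomial.eval₂Hom (Int.castRingHom F[X]) ![X, C t * X]) =
      (Polynomial.mapRingHom (Polynomial.eval₂RingHom (Int.castRingHom F) t)).comp Phi := by
    apply MvPolynomial.ringHom_ext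
    · intro r; simp [Phi]
    · intro i
      fin_cases i
      · simp [Phi]
      · simp [Phi]
  rw [h4] at h3
  have h5 := congrArg (fun g => g.coeff m) h3
  simpa using h5.symm

/-- The form at `(y₂, y₂ T, -(y₀ + y₁ T))`. -/
private noncomputable def fy (F : MvPolynomial (Fin 3) ℤ) : (MvPolynomial (Fin 3) ℤ)[X] :=
  MvPolynomial.eval₂ (Int.castRingHom (MvPolynomial (Fin 3) ℤ)[X])
    ![C (MvPolynomial.X 2), C (MvPolynomial.X 2) * X,
      -(C (MvPolynomial.X 0) + C (MvPolynomial.X 1) * X)] F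

private lemma fy_eval₂ {R : Type*} [CommRing R] (F : MvPolynomial (Fin 3) ℤ) (y : Fin 3 → R)
    (t : R) :
    (fy F).eval₂ (MvPolynomial.eval₂Hom (Int.castRingHom R) y) t =
      MvPolynomial.eval₂ (Int.castRingHom R) ![y 2, y 2 * t, -(y 0 + y 1 * t)] F := by
  have h : ((Polynomial.eval₂RingHom (MvPolynomial.eval₂Hom (Int.castRingHom R) y) t).comp
      (MvPolynomial.eval₂Hom (Int.castRingHom (MvPolynomial (Fin 3) ℤ)[X])
    ![C (MvPolynomial.X 2), C (MvPolynomial.X 2) * X,
      -(C (MvPolynomial.X 0) + C (MvPolynomial.X 1) * X)])) =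
      MvPolynomial.eval₂Hom (Int.castRingHom R) ![y 2, y 2 * t, -(y 0 + y 1 * t)] := by
    apply MvPolynomial.ringHom_ext
    · intro r; simp
    · intro i
      fin_cases i <;> simp
  exact congrArg (fun g => g F) h

private lemma fy_map (F : MvPolynomial (Fin 3) ℤ) {n : ℕ} (hF : F.IsHomogeneous n) :
    (fy F).map (MvPolynomial.eval₂Hom (Int.castRingHom ℤ) ![1, 0, 0]) =
      C ((-1) ^ n * MvPolynomial.eval ![0, 0, 1] F) := by
  have h : ((Polynomial.mapRingHom (MvPolynomial.eval₂Hom (Int.castRingHom ℤ)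
      (![1, 0, 0] : Fin 3 → ℤ))).comp
      (MvPolynomial.eval₂Hom (Int.castRingHom (MvPolynomial (Fin 3) ℤ)[X])
    ![C (MvPolynomial.X 2), C (MvPolynomial.X 2) * X,
      -(C (MvPolynomial.X 0) + C (MvPolynomial.X 1) * X)])) =
      (C : ℤ →+* ℤ[X]).comp (MvPolynomial.eval₂Hom (Int.castRingHom ℤ)
        (fun i => (-1) * (![0, 0, 1] : Fin 3 → ℤ) i)) := by
    apply MvPolynomial.ringHom_ext
    · intro r; simp
    · intro i
      fin_cases i <;> simp
  have h2 := congrArg (fun g => g F) h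
  have h3 := eval₂_smul_hom hF (-1 : ℤ) (![0, 0, 1] : Fin 3 → ℤ)
  have h4 : MvPolynomial.eval₂ (Int.castRingHom ℤ) ![0, 0, 1] F =
      MvPolynomial.eval ![0, 0, 1] F := rfl
  rw [← h4, ← h3]
  exact h2

private lemma resC (F₁ : MvPolynomial (Fin 3) ℤ) (n₁ : ℕ) (h₁ : F₁.IsHomogeneous n₁)
    (hn : MvPolynomial.eval ![0, 0, 1] F₁ ≠ 0) (a : ℤ[X]) (ha : a ≠ 0) :
    ∃ ρ : MvPolynomial (Fin 3) ℤ, ρ ≠ 0 ∧ ∀ (F : Type) [Field F] (y : Fin 3 → F) (t s : F),
      MvPolynomial.eval₂ (Int.castRingHom F) ![1, t, s] F₁ = 0 →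
      a.eval₂ (Int.castRingHom F) t = 0 → y 0 + y 1 * t + y 2 * s = 0 →
      MvPolynomial.eval₂ (Int.castRingHom F) y ρ = 0 := by
  set A : (MvPolynomial (Fin 3) ℤ)[X] := a.map (Int.castRingHom _) with hA
  refine ⟨resultant A (fy F₁) a.natDegree ((fy F₁).natDegree + 1), ?_, ?_⟩
  · intro h0
    have h1 := congrArg (MvPolynomial.eval₂Hom (Int.castRingHom ℤ) (![1, 0, 0] : Fin 3 → ℤ)) h0
    rw [← resultant_map_map, map_zero, fy_map F₁ h₁, resultant_C_right] at h1
    have h2 : A.map (MvPolynomial.eval₂Hom (Int.castRingHom ℤ) (![1, 0, 0] : Fin 3 → ℤ)) = a := by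
      rw [hA, Polynomial.map_map]
      have : ((MvPolynomial.eval₂Hom (Int.castRingHom ℤ) (![1, 0, 0] : Fin 3 → ℤ)).comp
        (Int.castRingHom (MvPolynomial (Fin 3) ℤ))) = RingHom.id ℤ := RingHom.ext_int _ _
      rw [this, Polynomial.map_id]
    rw [h2] at h1
    rcases mul_eq_zero.mp h1 with h3 | h3
    · exact ha (Polynomial.leadingCoeff_eq_zero.mp (pow_eq_zero_iff (by simp) |>.mp h3))
    · have h5 : (-1 : ℤ) ^ n₁ * MvPolynomial.eval ![0, 0, 1] F₁ = 0 := by
        by_contra hne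
        exact pow_ne_zero _ hne h3
      rcases mul_eq_zero.mp h5 with h6 | h6
      · exact pow_ne_zero _ (by norm_num) h6
      · exact hn h6
  · intro F _ y t s hF hat hy
    obtain ⟨p, q, -, -, h⟩ := exists_mul_add_mul_eq_C_resultant A (fy F₁)
      (m := a.natDegree) (n := (fy F₁).natDegree + 1) Polynomial.natDegree_map_le (Nat.le_succ _)
      (Or.inr (Nat.succ_ne_zero _))
    have h3 := congrArg (Polynomial.eval₂ (MvPolynomial.eval₂Hom (Int.castRingHom F) y) t) h
    have h4 : A.eval₂ (MvPolynomial.eval₂Hom (Int.castRingHom F) y) t = 0 := by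
      rw [hA, Polynomial.eval₂_map]
      have : ((MvPolynomial.eval₂Hom (Int.castRingHom F) y).comp
        (Int.castRingHom (MvPolynomial (Fin 3) ℤ))) = Int.castRingHom F := RingHom.ext_int _ _
      rw [this, hat]
    have h5 : (fy F₁).eval₂ (MvPolynomial.eval₂Hom (Int.castRingHom F) y) t = 0 := by
      rw [fy_eval₂]
      have h6 : (![y 2, y 2 * t, -(y 0 + y 1 * t)] : Fin 3 → F) =
          fun i => y 2 * (![1, t, s] : Fin 3 → F) i := by
        funext i
        fin_cases i
        · simp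
        · simp
        · simp only [Fin.reduceFinMk, Matrix.cons_val]
          linear_combination -hy
      rw [h6, eval₂_smul_hom h₁, hF, mul_zero]
    rw [Polynomial.eval₂_add, Polynomial.eval₂_mul, Polynomial.eval₂_mul, h4, h5,
      Polynomial.eval₂_C, zero_mul, zero_mul, add_zero] at h3
    exact h3.symm

/-- Elimination: a prime dividing two coprime forms at a primitive point of the line `y` divides
`G(y)`. Proof: the resultant `r(x₀, x₁)` of `F₁, F₂` with respect to `x₂` is not zero (Gauss, as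
`F₁` has constant leading coefficient), and a nonzero coefficient `a(T)` of `r(X, T X)` vanishes at
`T = t` modulo `p` whenever `F₁, F₂` vanish at `(1, t, s)`. Let `ρ(y)` be the resultant of `a(T)`
and `F₁(y₂, y₂ T, -(y₀ + y₁ T))` and `G = F₁(0, -y₂, y₁) ρ(y)`: the first factor vanishes if
`p ∣ x₀`, the second one otherwise. -/
theorem elim_form (F₁ F₂ : MvPolynomial (Fin 3) ℤ) (n₁ n₂ : ℕ) (h₁ : F₁.IsHomogeneous n₁)
    (h₂ : F₂.IsHomogeneous n₂) (hn : MvPolynomial.eval ![0, 0, 1] F₁ ≠ 0)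
    (hco : IsRelPrime (MvPolynomial.map (Int.castRingHom ℚ) F₁)
      (MvPolynomial.map (Int.castRingHom ℚ) F₂)) :
    ∃ G : MvPolynomial (Fin 3) ℤ, G ≠ 0 ∧ ∀ y x : Fin 3 → ℤ, prim x → dot y x = 0 →
      ∀ p : ℕ, p.Prime → (p : ℤ) ∣ MvPolynomial.eval x F₁ → (p : ℤ) ∣ MvPolynomial.eval x F₂ →
        (p : ℤ) ∣ MvPolynomial.eval y G := by
  obtain ⟨a, ha, hab⟩ := resB F₁ F₂ n₁ n₂ h₁ h₂ hn hco
  obtain ⟨ρ, hρ, hρb⟩ := resC F₁ n₁ h₁ hn a ha
  set D : MvPolynomial (Fin 3) ℤ := MvPolynomial.eval₂ (Int.castRingHom (MvPolynomial (Fin 3) ℤ))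
    ![0, -MvPolynomial.X 2, MvPolynomial.X 1] F₁ with hD
  have hDe : ∀ {R : Type} [CommRing R] (y : Fin 3 → R),
      MvPolynomial.eval₂ (Int.castRingHom R) y D =
        MvPolynomial.eval₂ (Int.castRingHom R) ![0, -y 2, y 1] F₁ := by
    intro R _ y
    have h : (MvPolynomial.eval₂Hom (Int.castRingHom R) y).comp
        (MvPolynomial.eval₂Hom (Int.castRingHom (MvPolynomial (Fin 3) ℤ))
          ![0, -MvPolynomial.X 2, MvPolynomial.X 1]) =
        MvPolynomial.eval₂Hom (Int.castRingHom R) ![0, -y 2, y 1] := by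
      apply MvPolynomial.ringHom_ext
      · intro r; simp
      · intro i
        fin_cases i <;> simp
    exact congrArg (fun g => g F₁) h
  have hD0 : D ≠ 0 := by
    intro h0
    have h1 := hDe (R := ℤ) ![0, 1, 0]
    rw [h0, MvPolynomial.eval₂_zero] at h1
    have h2 : (![0, -(![0, 1, 0] : Fin 3 → ℤ) 2, (![0, 1, 0] : Fin 3 → ℤ) 1] : Fin 3 → ℤ) =
        ![0, 0, 1] := by simp
    rw [h2] at h1
    exact hn h1.symm
  have hcast : ∀ (p : ℕ) (x : Fin 3 → ℤ) (P : MvPolynomial (Fin 3) ℤ),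
      (p : ℤ) ∣ MvPolynomial.eval x P ↔
        MvPolynomial.eval₂ (Int.castRingHom (ZMod p)) (fun i => (x i : ZMod p)) P = 0 := by
    intro p x P
    rw [← ZMod.intCast_zmod_eq_zero_iff_dvd]
    have h : (Int.castRingHom (ZMod p)).comp (MvPolynomial.eval₂Hom (RingHom.id ℤ) x) =
        MvPolynomial.eval₂Hom (Int.castRingHom (ZMod p)) (fun i => (x i : ZMod p)) := by
      apply MvPolynomial.ringHom_ext
      · intro r; simp
      · intro i; simp
    have h2 := congrArg (fun g => g P) h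
    have h3 : ((MvPolynomial.eval x P : ℤ) : ZMod p) =
        MvPolynomial.eval₂ (Int.castRingHom (ZMod p)) (fun i => (x i : ZMod p)) P := h2
    rw [h3]
  refine ⟨D * ρ, mul_ne_zero hD0 hρ, ?_⟩
  intro y x hx hdot p hp hp1 hp2
  have : Fact p.Prime := ⟨hp⟩
  rw [hcast] at hp1 hp2
  rw [hcast, MvPolynomial.eval₂_mul, hDe]
  set X' : Fin 3 → ZMod p := fun i => (x i : ZMod p) with hX'
  set Y' : Fin 3 → ZMod p := fun i => (y i : ZMod p) with hY'
  have hdot' : Y' 0 * X' 0 + Y' 1 * X' 1 + Y' 2 * X' 2 = 0 := by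
    have := congrArg (fun z : ℤ => (z : ZMod p)) hdot
    simpa [dot, hX', hY'] using this
  by_cases hx0 : X' 0 = 0
  · rw [mul_eq_zero]; left
    have key : ∀ lam : ZMod p, -Y' 2 = lam * X' 1 → Y' 1 = lam * X' 2 →
        MvPolynomial.eval₂ (Int.castRingHom (ZMod p)) ![0, -Y' 2, Y' 1] F₁ = 0 := by
      intro lam ha hb
      have h6 : (![0, -Y' 2, Y' 1] : Fin 3 → ZMod p) = fun i => lam * X' i := by
        funext i
        fin_cases i
        · simp [hx0]
        · simpa using ha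
        · simpa using hb
      rw [h6, eval₂_smul_hom h₁, hp1, mul_zero]
    by_cases hx1 : X' 1 = 0
    · by_cases hx2 : X' 2 = 0
      · exfalso
        have h7 : ∀ i ∈ (Finset.univ : Finset (Fin 3)), (p : ℤ) ∣ x i := by
          intro i _
          rw [← ZMod.intCast_zmod_eq_zero_iff_dvd]
          fin_cases i
          · exact hx0
          · exact hx1
          · exact hx2
        have h8 : (p : ℤ) ∣ Finset.univ.gcd x := Finset.dvd_gcd h7
        rw [hx] at h8
        have := Int.eq_one_of_dvd_one (by positivity) h8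
        exact hp.one_lt.ne' (by exact_mod_cast this)
      · refine key (Y' 1 / X' 2) ?_ ?_
        · have : Y' 2 = 0 := by
            rw [hx0, hx1] at hdot'
            have h9 : Y' 2 * X' 2 = 0 := by linear_combination hdot'
            exact (mul_eq_zero.mp h9).resolve_right hx2
          rw [this, hx1]; simp
        · rw [div_mul_cancel₀ _ hx2]
    · refine key (-Y' 2 / X' 1) ?_ ?_
      · rw [div_mul_cancel₀ _ hx1]
      · rw [hx0] at hdot'
        field_simp
        linear_combination hdot'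
  · rw [mul_eq_zero]; right
    have hs : ∀ (G : MvPolynomial (Fin 3) ℤ) (n : ℕ), G.IsHomogeneous n →
        MvPolynomial.eval₂ (Int.castRingHom (ZMod p)) X' G = 0 →
        MvPolynomial.eval₂ (Int.castRingHom (ZMod p)) ![1, X' 1 / X' 0, X' 2 / X' 0] G = 0 := by
      intro G n hG h0
      have h6 : (![1, X' 1 / X' 0, X' 2 / X' 0] : Fin 3 → ZMod p) =
          fun i => (X' 0)⁻¹ * X' i := by
        funext i
        fin_cases i
        · simp [hx0]
        · simp [div_eq_inv_mul]
        · simp [div_eq_inv_mul]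
      rw [h6, eval₂_smul_hom hG, h0, mul_zero]
    refine hρb (ZMod p) Y' (X' 1 / X' 0) (X' 2 / X' 0) (hs F₁ n₁ h₁ hp1) ?_ ?_
    · exact hab (ZMod p) _ _ (hs F₁ n₁ h₁ hp1) (hs F₂ n₂ h₂ hp2)
    · field_simp
      linear_combination hdot'

end Pool.MP_aab329_nt.SerreR
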