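import Pool.Agent.Lib.MP_aab329_nt.R.Shear

set_option autoImplicit false

namespace Pool.MP_aab329_nt.SerreR

open Polynomial Real Pool.MP_aab329_nt.SerreP

private lemma clear_den' {σ : Type*} (F : MvPolynomial σ ℚ) :
    ∃ (N : ℤ) (G : MvPolynomial σ ℤ), N ≠ 0 ∧
      MvPolynomial.map (Int.castRingHom ℚ) G = MvPolynomial.C (N : ℚ) * F := by
  induction F using MvPolynomial.induction_on' with
  | monomial u a =>
    refine ⟨(a.den : ℤ), MvPolynomial.monomial u a.num, by exact_mod_cast a.den_nz, ?_⟩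
    rw [MvPolynomial.map_monomial, MvPolynomial.C_mul_monomial]
    congr 1
    simp only [eq_intCast, Int.cast_natCast]
    rw [mul_comm]
    exact (Rat.mul_den_eq_num a).symm
  | add p q hp hq =>
    obtain ⟨N1, G1, h1, e1⟩ := hp
    obtain ⟨N2, G2, h2, e2⟩ := hq
    refine ⟨N1 * N2, MvPolynomial.C N2 * G1 + MvPolynomial.C N1 * G2, mul_ne_zero h1 h2, ?_⟩
    rw [map_add, map_mul, map_mul, e1, e2, MvPolynomial.map_C, MvPolynomial.map_C]
    push_cast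
    simp only [map_mul, eq_intCast]
    ring

private lemma clear_sq (F : MvPolynomial (Fin 3) ℚ) :
    ∃ (N : ℤ) (G : MvPolynomial (Fin 3) ℤ), N ≠ 0 ∧
      MvPolynomial.map (Int.castRingHom ℚ) G = MvPolynomial.C ((N : ℚ) ^ 2) * F := by
  obtain ⟨N, G, hN, hG⟩ := clear_den' F
  refine ⟨N, MvPolynomial.C N * G, hN, ?_⟩
  rw [map_mul, hG, MvPolynomial.map_C, pow_two, map_mul]
  simp only [eq_intCast]
  ring

private lemma eval_map_int (G : MvPolynomial (Fin 3) ℤ) (x : Fin 3 → ℤ) :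
    MvPolynomial.eval (fun j => ((x j : ℤ) : ℚ)) (MvPolynomial.map (Int.castRingHom ℚ) G) =
      ((MvPolynomial.eval x G : ℤ) : ℚ) := by
  have h : (MvPolynomial.eval (fun j => ((x j : ℤ) : ℚ))).comp
      (MvPolynomial.map (Int.castRingHom ℚ)) = (Int.castRingHom ℚ).comp (MvPolynomial.eval x) := by
    apply MvPolynomial.ringHom_ext
    · intro r; simp
    · intro i; simp
  have := congrArg (fun g : MvPolynomial (Fin 3) ℤ →+* ℚ => g G) h
  simpa using this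

private lemma mx_le_iff3 (B : ℕ) (x : Fin 3 → ℤ) : mx x ≤ B ↔ ∀ i, |x i| ≤ (B : ℤ) := by
  unfold mx
  rw [Finset.sup_le_iff]
  constructor
  · intro h i
    have := h i (Finset.mem_univ i)
    rw [Int.abs_eq_natAbs]; exact_mod_cast this
  · intro h i _
    have := h i
    rw [Int.abs_eq_natAbs] at this; exact_mod_cast this

private lemma box_finite3 (B : ℕ) (P : (Fin 3 → ℤ) → Prop) (h : ∀ x, P x → mx x ≤ B) :
    {x | P x}.Finite := by
  apply Set.Finite.subset (Set.Finite.pi' (fun _ : Fin 3 => Set.finite_Icc (-(B : ℤ)) B))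
  intro x hx i
  have := (mx_le_iff3 B x).1 (h x hx) i
  rw [abs_le] at this
  exact ⟨this.1, this.2⟩

private lemma ncard_two (P : (Fin 3 → ℤ) → Prop) (h : ∀ x, P x → mx x ≤ 2) :
    {x | P x}.ncard ≤ 125 := by
  have hsub : {x | P x} ⊆
      ((Fintype.piFinset fun _ : Fin 3 => Finset.Icc (-2 : ℤ) 2 : Finset (Fin 3 → ℤ)) :
        Set (Fin 3 → ℤ)) := by
    intro x hx
    rw [Finset.mem_coe, Fintype.mem_piFinset]
    intro i
    have := (mx_le_iff3 2 x).1 (h x hx) i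
    rw [abs_le] at this
    rw [Finset.mem_Icc]
    exact ⟨by exact_mod_cast this.1, by exact_mod_cast this.2⟩
  have h2 := Set.ncard_le_ncard hsub (Finset.finite_toSet _)
  rw [Set.ncard_coe_finset] at h2
  have h3 : (Fintype.piFinset fun _ : Fin 3 => Finset.Icc (-2 : ℤ) 2).card = 125 := by
    simp [Fintype.card_piFinset]
  omega

private lemma pair_of {F₁ F₂ : MvPolynomial (Fin 3) ℚ} {k₁ k₂ : ℕ}
    (h₁ : F₁.IsHomogeneous (2 * k₁)) (h₂ : F₂.IsHomogeneous (2 * k₂))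
    (hco : IsRelPrime F₁ F₂)
    (hs₁ : ∀ (c : ℚ) (Q : MvPolynomial (Fin 3) ℚ), F₁ ≠ MvPolynomial.C c * Q ^ 2)
    (hs₂ : ∀ (c : ℚ) (Q : MvPolynomial (Fin 3) ℚ), F₂ ≠ MvPolynomial.C c * Q ^ 2)
    {N₁ N₂ : ℤ} (hN₁ : N₁ ≠ 0) (hN₂ : N₂ ≠ 0) {G₁ G₂ : MvPolynomial (Fin 3) ℤ}
    (e₁ : MvPolynomial.map (Int.castRingHom ℚ) G₁ = MvPolynomial.C ((N₁ : ℚ) ^ 2) * F₁)
    (e₂ : MvPolynomial.map (Int.castRingHom ℚ) G₂ = MvPolynomial.C ((N₂ : ℚ) ^ 2) * F₂) :
    Pair G₁ G₂ k₁ k₂ := by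
  have hunit : ∀ N : ℤ, N ≠ 0 →
      IsUnit (MvPolynomial.C ((N : ℚ) ^ 2) : MvPolynomial (Fin 3) ℚ) := by
    intro N hN
    apply IsUnit.map
    apply IsUnit.mk0
    have : (N : ℚ) ≠ 0 := by exact_mod_cast hN
    positivity
  have hhom : ∀ (N : ℤ) (F : MvPolynomial (Fin 3) ℚ) (G : MvPolynomial (Fin 3) ℤ) (n : ℕ),
      F.IsHomogeneous n → MvPolynomial.map (Int.castRingHom ℚ) G = MvPolynomial.C ((N : ℚ) ^ 2) * F →
      G.IsHomogeneous n := by
    intro N F G n hF hG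
    apply MvPolynomial.IsHomogeneous.of_map (f := Int.castRingHom ℚ) (RingHom.injective_int _)
    rw [hG]
    have := (MvPolynomial.isHomogeneous_C (Fin 3) ((N : ℚ) ^ 2)).mul hF
    simpa using this
  have hsq : ∀ (N : ℤ) (F : MvPolynomial (Fin 3) ℚ) (G : MvPolynomial (Fin 3) ℤ), N ≠ 0 →
      (∀ (c : ℚ) (Q : MvPolynomial (Fin 3) ℚ), F ≠ MvPolynomial.C c * Q ^ 2) →
      MvPolynomial.map (Int.castRingHom ℚ) G = MvPolynomial.C ((N : ℚ) ^ 2) * F →
      ∀ (c : ℚ) (Q : MvPolynomial (Fin 3) ℚ),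
        MvPolynomial.map (Int.castRingHom ℚ) G ≠ MvPolynomial.C c * Q ^ 2 := by
    intro N F G hN hF hG c Q hcQ
    have hNQ : (N : ℚ) ≠ 0 := by exact_mod_cast hN
    apply hF (((N : ℚ) ^ 2)⁻¹ * c) Q
    rw [hG] at hcQ
    have h2 := congrArg (fun R => MvPolynomial.C (((N : ℚ) ^ 2)⁻¹) * R) hcQ
    beta_reduce at h2
    rw [← mul_assoc, ← map_mul, inv_mul_cancel₀ (pow_ne_zero 2 hNQ), map_one, one_mul,
      ← mul_assoc, ← map_mul] at h2
    exact h2
  refine ⟨hhom N₁ F₁ G₁ _ h₁ e₁, hhom N₂ F₂ G₂ _ h₂ e₂, ?_, hsq N₁ F₁ G₁ hN₁ hs₁ e₁,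
    hsq N₂ F₂ G₂ hN₂ hs₂ e₂⟩
  rw [e₁, e₂]
  intro d hd1 hd2
  apply hco
  · exact ((hunit N₁ hN₁).dvd_mul_left).mp hd1
  · exact ((hunit N₂ hN₂).dvd_mul_left).mp hd2

/-- Proof: if `a t^2 + b t + c = 0` then `b^2 - 4 a c = (2 a t + b)^2`, so `F₁(x) F₂(x) P(x)^2` is a
rational square (`Polynomial.discr_of_degree_eq_two`; `degreeOf none = 2` gives degree 2 of
`optionEquivLeft ℚ (Fin 3) F`). Points with `P(x) = 0`: `zeros_box` for an integral multiple of `P`.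
Others: `F₁(x) F₂(x)` is a rational square; take integral multiples `d₁^2 F₁`, `d₂^2 F₂` and apply
`main_int`. `B = 2` is covered by a constant.

Serre's bound for double covers of the plane whose branch curve is reducible over `ℚ` into two
curves of even degree. -/
theorem serre_double (F : MvPolynomial (Option (Fin 3)) ℚ) (hdeg : F.degreeOf none = 2)
    (F₁ F₂ P : MvPolynomial (Fin 3) ℚ) (k₁ k₂ : ℕ)
    (h₁ : F₁.IsHomogeneous (2 * k₁)) (h₂ : F₂.IsHomogeneous (2 * k₂)) (hP : P ≠ 0)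
    (hdisc : (MvPolynomial.optionEquivLeft ℚ (Fin 3) F).discr = F₁ * F₂ * P ^ 2)
    (hco : IsRelPrime F₁ F₂)
    (hs₁ : ∀ (c : ℚ) (Q : MvPolynomial (Fin 3) ℚ), F₁ ≠ MvPolynomial.C c * Q ^ 2)
    (hs₂ : ∀ (c : ℚ) (Q : MvPolynomial (Fin 3) ℚ), F₂ ≠ MvPolynomial.C c * Q ^ 2) :
    ∃ (c : ℕ) (C : ℝ), ∀ B : ℕ, 2 ≤ B →
      (({x : Fin 3 → ℤ | (∀ i, |x i| ≤ (B : ℤ)) ∧ Finset.univ.gcd x = 1 ∧
          ∃ t : ℚ, MvPolynomial.eval
            (fun i : Option (Fin 3) => Option.elim i t (fun j => ((x j : ℤ) : ℚ))) F = 0}.ncard :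
              ℕ) : ℝ)
        ≤ C * (B : ℝ) ^ 2 * (log (B : ℝ)) ^ c := by
  obtain ⟨N₁, G₁, hN₁, e₁⟩ := clear_sq F₁
  obtain ⟨N₂, G₂, hN₂, e₂⟩ := clear_sq F₂
  obtain ⟨N₃, P', hN₃, e₃⟩ := clear_den' P
  have hpair := pair_of h₁ h₂ hco hs₁ hs₂ hN₁ hN₂ e₁ e₂
  have hN1Q : (N₁ : ℚ) ≠ 0 := by exact_mod_cast hN₁
  have hN2Q : (N₂ : ℚ) ≠ 0 := by exact_mod_cast hN₂
  have hN3Q : (N₃ : ℚ) ≠ 0 := by exact_mod_cast hN₃
  have hP' : P' ≠ 0 := by
    intro h0
    rw [h0, map_zero] at e₃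
    rcases mul_eq_zero.mp e₃.symm with h | h
    · exact hN3Q (by simpa using h)
    · exact hP h
  -- the quadratic
  obtain ⟨q, hq⟩ : ∃ q, q = MvPolynomial.optionEquivLeft ℚ (Fin 3) F := ⟨_, rfl⟩
  have hF0 : F ≠ 0 := by
    intro h0
    rw [h0] at hdeg
    simp at hdeg
  have hdegq : q.degree = 2 := by
    rw [hq, MvPolynomial.degree_optionEquivLeft _ hF0, hdeg]; rfl
  have hnd : q.natDegree = 2 := Polynomial.natDegree_eq_of_degree_eq_some hdegq
  rw [← hq, Polynomial.discr_of_degree_eq_two hdegq] at hdisc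
  have key : ∀ (x : Fin 3 → ℤ) (t : ℚ), MvPolynomial.eval
      (fun i : Option (Fin 3) => Option.elim i t (fun j => ((x j : ℤ) : ℚ))) F = 0 →
      MvPolynomial.eval x P' = 0 ∨
        IsSquare (MvPolynomial.eval x G₁ * MvPolynomial.eval x G₂) := by
    intro x t ht
    rw [MvPolynomial.optionEquivLeft_elim_eval, ← hq] at ht
    obtain ⟨X, hX⟩ : ∃ X : Fin 3 → ℚ, X = fun j => ((x j : ℤ) : ℚ) := ⟨_, rfl⟩
    rw [← hX] at ht
    have hqe : (Polynomial.map (MvPolynomial.eval X) q).eval t =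
        MvPolynomial.eval X (q.coeff 0) + MvPolynomial.eval X (q.coeff 1) * t +
          MvPolynomial.eval X (q.coeff 2) * t ^ 2 := by
      rw [Polynomial.eval_eq_sum_range' (n := 3)
        (lt_of_le_of_lt (Polynomial.natDegree_map_le) (by omega))]
      simp [Finset.sum_range_succ]
    rw [hqe] at ht
    have hd := congrArg (MvPolynomial.eval X) hdisc
    simp only [map_sub, map_mul, map_pow] at hd
    by_cases hPx : MvPolynomial.eval x P' = 0
    · exact Or.inl hPx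
    · right
      have hPX : MvPolynomial.eval X P ≠ 0 := by
        intro h0
        apply hPx
        have h1 := congrArg (MvPolynomial.eval X) e₃
        rw [hX, eval_map_int, map_mul, ← hX, h0, mul_zero] at h1
        exact_mod_cast h1
      have hG1 := congrArg (MvPolynomial.eval X) e₁
      have hG2 := congrArg (MvPolynomial.eval X) e₂
      rw [hX, eval_map_int, map_mul, MvPolynomial.eval_C, ← hX] at hG1
      rw [hX, eval_map_int, map_mul, MvPolynomial.eval_C, ← hX] at hG2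
      rw [← Rat.isSquare_intCast_iff]
      push_cast
      rw [hG1, hG2]
      have h4 : MvPolynomial.eval X (4 : MvPolynomial (Fin 3) ℚ) = 4 :=
        map_ofNat (MvPolynomial.eval X) 4
      rw [h4] at hd
      refine ⟨N₁ * N₂ * ((2 * MvPolynomial.eval X (q.coeff 2) * t +
        MvPolynomial.eval X (q.coeff 1)) / MvPolynomial.eval X P), ?_⟩
      have hsq : MvPolynomial.eval X F₁ * MvPolynomial.eval X F₂ * MvPolynomial.eval X P ^ 2 =
          (2 * MvPolynomial.eval X (q.coeff 2) * t + MvPolynomial.eval X (q.coeff 1)) ^ 2 := by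
        rw [← hd]
        linear_combination (-4 * MvPolynomial.eval X (q.coeff 2)) * ht
      have hsq2 : MvPolynomial.eval X F₁ * MvPolynomial.eval X F₂ =
          ((2 * MvPolynomial.eval X (q.coeff 2) * t + MvPolynomial.eval X (q.coeff 1)) /
            MvPolynomial.eval X P) ^ 2 := by
        rw [div_pow, eq_div_iff (pow_ne_zero 2 hPX)]
        exact hsq
      calc (N₁ : ℚ) ^ 2 * MvPolynomial.eval X F₁ * ((N₂ : ℚ) ^ 2 * MvPolynomial.eval X F₂)
          = (N₁ : ℚ) ^ 2 * (N₂ : ℚ) ^ 2 * (MvPolynomial.eval X F₁ * MvPolynomial.eval X F₂) := by ring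
        _ = _ := by rw [hsq2]; ring
  obtain ⟨C1, hC1, h1⟩ := zeros_box P' hP'
  obtain ⟨c, C2, hC2, h2⟩ := main_int hpair
  refine ⟨c, C1 + C2 + 125 / (log 2) ^ c, ?_⟩
  intro B hB
  have hlog2 : 0 < log 2 := Real.log_pos (by norm_num)
  rcases Nat.lt_or_ge B 3 with hB3 | hB3
  · have hB2 : B = 2 := by omega
    subst hB2
    have hle : (({x : Fin 3 → ℤ | (∀ i, |x i| ≤ ((2 : ℕ) : ℤ)) ∧ Finset.univ.gcd x = 1 ∧
          ∃ t : ℚ, MvPolynomial.eval
            (fun i : Option (Fin 3) => Option.elim i t (fun j => ((x j : ℤ) : ℚ))) F =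
              0}.ncard : ℕ) : ℝ) ≤ 125 := by
      exact_mod_cast ncard_two (fun x : Fin 3 → ℤ => (∀ i, |x i| ≤ ((2 : ℕ) : ℤ)) ∧
        Finset.univ.gcd x = 1 ∧ ∃ t : ℚ, MvPolynomial.eval
            (fun i : Option (Fin 3) => Option.elim i t (fun j => ((x j : ℤ) : ℚ))) F = 0)
        (fun x hx => (mx_le_iff3 2 x).2 hx.1)
    refine hle.trans ?_
    have h3 : (125 : ℝ) / (log 2) ^ c * ((2 : ℕ) : ℝ) ^ 2 * (log ((2 : ℕ) : ℝ)) ^ c = 500 := by
      push_cast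
      field_simp
      norm_num
    have h4 : 0 ≤ (C1 + C2) * ((2 : ℕ) : ℝ) ^ 2 * (log ((2 : ℕ) : ℝ)) ^ c := by
      push_cast; positivity
    have h5 : (C1 + C2 + 125 / (log 2) ^ c) * ((2 : ℕ) : ℝ) ^ 2 * (log ((2 : ℕ) : ℝ)) ^ c =
        (C1 + C2) * ((2 : ℕ) : ℝ) ^ 2 * (log ((2 : ℕ) : ℝ)) ^ c +
          (125 : ℝ) / (log 2) ^ c * ((2 : ℕ) : ℝ) ^ 2 * (log ((2 : ℕ) : ℝ)) ^ c := by ring
    rw [h5, h3]; linarith
  · have hBR : (3 : ℝ) ≤ B := by exact_mod_cast hB3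
    have hBpos : (0 : ℝ) < B := by linarith
    have hlog1 : 1 ≤ log (B : ℝ) := by
      rw [Real.le_log_iff_exp_le hBpos]
      have := Real.exp_one_lt_d9
      linarith
    have hsub : {x : Fin 3 → ℤ | (∀ i, |x i| ≤ (B : ℤ)) ∧ Finset.univ.gcd x = 1 ∧
          ∃ t : ℚ, MvPolynomial.eval
            (fun i : Option (Fin 3) => Option.elim i t (fun j => ((x j : ℤ) : ℚ))) F = 0} ⊆
        {x : Fin 3 → ℤ | mx x ≤ B ∧ MvPolynomial.eval x P' = 0} ∪
        {x : Fin 3 → ℤ | prim x ∧ mx x ≤ B ∧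
          IsSquare (MvPolynomial.eval x G₁ * MvPolynomial.eval x G₂)} := by
      rintro x ⟨hx1, hx2, t, ht⟩
      have hmx : mx x ≤ B := (mx_le_iff3 B x).2 hx1
      rcases key x t ht with h | h
      · exact Or.inl ⟨hmx, h⟩
      · exact Or.inr ⟨hx2, hmx, h⟩
    have hfin : ({x : Fin 3 → ℤ | mx x ≤ B ∧ MvPolynomial.eval x P' = 0} ∪
        {x : Fin 3 → ℤ | prim x ∧ mx x ≤ B ∧
          IsSquare (MvPolynomial.eval x G₁ * MvPolynomial.eval x G₂)}).Finite :=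
      (box_finite3 B _ (fun x hx => hx.1)).union (box_finite3 B _ (fun x hx => hx.2.1))
    have hc := (Set.ncard_le_ncard hsub hfin).trans (Set.ncard_union_le _ _)
    have hcR : (({x : Fin 3 → ℤ | (∀ i, |x i| ≤ (B : ℤ)) ∧ Finset.univ.gcd x = 1 ∧
          ∃ t : ℚ, MvPolynomial.eval
            (fun i : Option (Fin 3) => Option.elim i t (fun j => ((x j : ℤ) : ℚ))) F =
              0}.ncard : ℕ) : ℝ) ≤
        ({x : Fin 3 → ℤ | mx x ≤ B ∧ MvPolynomial.eval x P' = 0}.ncard : ℝ) +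
        ({x : Fin 3 → ℤ | prim x ∧ mx x ≤ B ∧
          IsSquare (MvPolynomial.eval x G₁ * MvPolynomial.eval x G₂)}.ncard : ℝ) := by
      exact_mod_cast hc
    have g1 := h1 B (by omega)
    have g2 := h2 B hB3
    have p1 : (1 : ℝ) ≤ (log B) ^ c := one_le_pow₀ hlog1
    have f1 : C1 * (B : ℝ) ^ 2 ≤ C1 * (B : ℝ) ^ 2 * (log B) ^ c :=
      le_mul_of_one_le_right (by positivity) p1
    have f5 : 0 ≤ 125 / (log 2) ^ c * (B : ℝ) ^ 2 * (log (B : ℝ)) ^ c := by positivity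
    have f6 : (C1 + C2 + 125 / (log 2) ^ c) * (B : ℝ) ^ 2 * (log (B : ℝ)) ^ c =
        C1 * (B : ℝ) ^ 2 * (log B) ^ c + C2 * (B : ℝ) ^ 2 * (log B) ^ c +
          125 / (log 2) ^ c * (B : ℝ) ^ 2 * (log (B : ℝ)) ^ c := by ring
    rw [f6]
    linarith

end Pool.MP_aab329_nt.SerreR
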