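import Pool.Agent.Lib.MP_aab329_nt.RootSize
import Pool.Agent.Lib.MP_aab329_nt.R.LineGen
import Pool.Agent.Lib.MP_aab329_nt.R.Base
import Pool.Agent.Lib.MP_aab329_nt.R.Irr
import Pool.Agent.Lib.MP_aab329_nt.R.EList

set_option autoImplicit false

namespace Pool.MP_aab329_nt.SerreR

open Polynomial Real Pool.MP_aab329_nt.SerreP

private theorem four_fin (B : ℕ) : {x : Fin 3 → ℤ | mx x ≤ B}.Finite := by
  have h1 : {x : Fin 3 → ℤ | mx x ≤ B} ⊆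
      (↑(Fintype.piFinset fun _ : Fin 3 => Finset.Icc (-(B : ℤ)) B) : Set (Fin 3 → ℤ)) := by
    intro x hx
    rw [Finset.mem_coe, Fintype.mem_piFinset]
    intro i
    rw [Finset.mem_Icc]
    have h2 : (x i).natAbs ≤ mx x := Finset.le_sup (f := fun i => (x i).natAbs) (Finset.mem_univ i)
    have h3 : mx x ≤ B := hx
    omega
  exact (Finset.finite_toSet _).subset h1

/-- Evaluation of the fourfold cover. -/
theorem quf_eval (e : ℤ) (F₁ F₂ : MvPolynomial (Fin 3) ℤ) (x : Fin 3 → ℤ) (τ : ℤ) :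
    (sp (quf e F₁ F₂) x).eval τ = τ ^ 4 -
      2 * e * (MvPolynomial.eval x F₁ + MvPolynomial.eval x F₂) * τ ^ 2 +
      e ^ 2 * (MvPolynomial.eval x F₁ - MvPolynomial.eval x F₂) ^ 2 := by
  rw [sp_quf, eval_add, eval_sub, eval_pow, eval_X, eval_mul, eval_C, eval_pow, eval_X, eval_C]
  rfl

/-- Derivative of the fourfold cover. -/
theorem quf_deriv (e : ℤ) (F₁ F₂ : MvPolynomial (Fin 3) ℤ) (x : Fin 3 → ℤ) (τ : ℤ) :
    (derivative (sp (quf e F₁ F₂) x)).eval τ = 4 * τ ^ 3 -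
      4 * e * (MvPolynomial.eval x F₁ + MvPolynomial.eval x F₂) * τ := by
  rw [sp_quf]
  have h : MvPolynomial.eval₂ (Int.castRingHom ℤ) x F₁ = MvPolynomial.eval x F₁ := rfl
  have h' : MvPolynomial.eval₂ (Int.castRingHom ℤ) x F₂ = MvPolynomial.eval x F₂ := rfl
  rw [h, h']
  simp only [derivative_add, derivative_sub, derivative_X_pow, derivative_C, add_zero, Int.cast_id,
    derivative_C_mul, eval_sub, eval_mul, eval_C, eval_pow, eval_X, Nat.cast_ofNat]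
  norm_num
  ring

/-- Irreducibility of the restriction of the fourfold cover. -/
theorem quf_irr {F₁ F₂ : MvPolynomial (Fin 3) ℤ} {y : Fin 3 → ℤ} {e : ℤ} (he : e ≠ 0)
    (h1 : ¬ SqLine F₁ y) (h2 : ¬ SqLine F₂ y) (hg : ¬ BadLine (sqf (F₁ * F₂)) y)
    (u v : Fin 3 → ℚ) (hli : LinearIndependent ℚ ![u, v]) (hu : dot (rat y) u = 0)
    (hv : dot (rat y) v = 0) : Irreducible (gline (quf e F₁ F₂) u v) := by
  have heQ : (e : ℚ) ≠ 0 := by exact_mod_cast he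
  have hce : ((e : ℤ) : ℚ[X]) = C (e : ℚ) := by simp
  have hinv : C ((e : ℚ)⁻¹) * ((e : ℤ) : ℚ[X]) = 1 := by
    rw [hce, ← C_mul, inv_mul_cancel₀ heQ, C_1]
  have key : ∀ r : ℚ[X], IsSquare (((e : ℤ) : ℚ[X]) * r) → CSq r := by
    rintro r ⟨p, hp⟩
    refine ⟨(e : ℚ)⁻¹, p, ?_⟩
    rw [sq, ← hp, ← mul_assoc, hinv, one_mul]
  rw [gline_quf]
  have h3 := irr4 (((e : ℤ) : ℚ[X]) * res F₁ u v) (((e : ℤ) : ℚ[X]) * res F₂ u v)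
    (fun h => h1 ⟨u, v, hli, hu, hv, key _ h⟩) (fun h => h2 ⟨u, v, hli, hu, hv, key _ h⟩) ?_
  · convert h3 using 3
    · congr 2
      ring
    · ring
  · rintro ⟨p, hp⟩
    apply hg
    refine ⟨u, v, hli, hu, hv, C ((e : ℚ)⁻¹) * p, ?_⟩
    rw [gline_sqf, eval_sub, eval_pow, eval_X, eval_C]
    have h4 : res (F₁ * F₂) u v = res F₁ u v * res F₂ u v := by
      unfold res; rw [MvPolynomial.eval₂_mul]
    rw [h4]
    have h5 : (C ((e : ℚ)⁻¹) * p) ^ 2 = (C ((e : ℚ)⁻¹) * ((e : ℤ) : ℚ[X])) ^ 2 *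
        (res F₁ u v * res F₂ u v) := by
      linear_combination -(C ((e : ℚ)⁻¹)) ^ 2 * hp
    rw [h5, hinv]
    ring

/-- Fourfold cover on a line, uniformly in the twist `e`. Proof: `line_gen m 4 E C'`,
`f = quf e F₁ F₂`; irreducibility of `gline f u v` (`gline_quf`) from `irr4` with `A = e res F₁`,
`B = e res F₂`: if `e r₁ = p^2` then `r₁ = (1/e) p^2` and the line is a `SqLine` of `F₁`; if
`e^2 r₁ r₂ = p^2` then `p / e` is a root of `gline (sqf (F₁ F₂))`. For a point take `z₁, z₂ > 0`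
(absolute values), `τ = e (z₁ + z₂)`: `f(τ) = 0`, `f'(τ) = 8 e^3 z₁ z₂ (z₁ + z₂) ≠ 0`. Sizes:
`|e|, z₁^2 ≤ |F₁(x)|`, `z₂^2 ≤ |F₂(x)|` and `eval_bound` (in `R/EList.lean`). The constants do not
depend on `e`. -/
theorem four_line {m : ℕ} (hm : 1 ≤ m) {F₁ F₂ : MvPolynomial (Fin 3) ℤ}
    (h₁ : F₁.IsHomogeneous (2 * m)) (h₂ : F₂.IsHomogeneous (2 * m)) :
    ∃ (c : ℕ) (C : ℝ), 0 < C ∧ ∀ e : ℤ, e ≠ 0 → ∀ B : ℕ, 3 ≤ B →
      ∀ y : Fin 3 → ℤ, prim y → nsq y ≤ 9 * B →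
      ¬ SqLine F₁ y → ¬ SqLine F₂ y → ¬ BadLine (sqf (F₁ * F₂)) y →
      ({x : Fin 3 → ℤ | prim x ∧ mx x ≤ B ∧ dot y x = 0 ∧ MvPolynomial.eval x F₁ ≠ 0 ∧
        MvPolynomial.eval x F₂ ≠ 0 ∧ ∃ z₁ z₂ : ℤ, MvPolynomial.eval x F₁ = e * z₁ ^ 2 ∧
        MvPolynomial.eval x F₂ = e * z₂ ^ 2}.ncard : ℝ) ≤
        C * ((B : ℝ) ^ 2 / mx y) ^ (1 / 4 : ℝ) * (log B) ^ c := by
  obtain ⟨E₁, C₁, hC₁, hb₁⟩ := eval_bound F₁
  obtain ⟨E₂, C₂, hC₂, hb₂⟩ := eval_bound F₂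
  set E : ℕ := E₁ + E₂ with hE
  set M : ℝ := 1 + C₁ + C₂ with hM
  have hM1 : 1 ≤ M := by rw [hM]; linarith
  obtain ⟨c, C, hC, hline⟩ := line_gen m 4 (6 * E) (64 * M ^ 6) hm (by norm_num)
    (by nlinarith [one_le_pow₀ hM1 (n := 6)])
  refine ⟨c, C, hC, ?_⟩
  intro e he B hB y hy hyB hs1 hs2 hgood
  have h1 := hline (quf e F₁ F₂) (quf_wmonic h₁ h₂ e) B hB y hy hyB
    (quf_irr he hs1 hs2 hgood)
  have h2 : (1 : ℝ) / ((4 : ℕ) : ℝ) = 1 / 4 := by norm_num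
  rw [h2] at h1
  refine le_trans ?_ h1
  have hfin : {x : Fin 3 → ℤ | prim x ∧ mx x ≤ B ∧ dot y x = 0 ∧ ∃ τ : ℤ,
      (sp (quf e F₁ F₂) x).eval τ = 0 ∧ (derivative (sp (quf e F₁ F₂) x)).eval τ ≠ 0 ∧
      |(τ : ℝ)| ≤ 64 * M ^ 6 * (B : ℝ) ^ (6 * E) ∧
        |(((derivative (sp (quf e F₁ F₂) x)).eval τ : ℤ) : ℝ)| ≤
          64 * M ^ 6 * (B : ℝ) ^ (6 * E)}.Finite := by
    apply (four_fin B).subset
    rintro x ⟨-, h, -⟩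
    exact h
  apply Nat.cast_le.2
  apply Set.ncard_le_ncard _ hfin
  rintro x ⟨hp, hx, hyx, hn1, hn2, z₁, z₂, hz1, hz2⟩
  have hz10 : z₁ ≠ 0 := by rintro rfl; apply hn1; rw [hz1]; ring
  have hz20 : z₂ ≠ 0 := by rintro rfl; apply hn2; rw [hz2]; ring
  have ha1 : 0 < |z₁| := abs_pos.2 hz10
  have ha2 : 0 < |z₂| := abs_pos.2 hz20
  have hz1' : MvPolynomial.eval x F₁ = e * |z₁| ^ 2 := by rw [hz1, sq_abs]
  have hz2' : MvPolynomial.eval x F₂ = e * |z₂| ^ 2 := by rw [hz2, sq_abs]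
  have hd : (derivative (sp (quf e F₁ F₂) x)).eval (e * (|z₁| + |z₂|)) =
      8 * e ^ 3 * (|z₁| * |z₂|) * (|z₁| + |z₂|) := by
    rw [quf_deriv, hz1', hz2']; ring
  -- sizes
  have hB1 : (1 : ℝ) ≤ B := by exact_mod_cast (by omega : 1 ≤ B)
  have hBE : (1 : ℝ) ≤ (B : ℝ) ^ E := one_le_pow₀ hB1
  have hsz1 : |((MvPolynomial.eval x F₁ : ℤ) : ℝ)| ≤ M * (B : ℝ) ^ E := by
    refine (hb₁ B x (by omega) hx).trans ?_
    have h3 : (B : ℝ) ^ E₁ ≤ (B : ℝ) ^ E := pow_le_pow_right₀ hB1 (by omega)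
    have h4 : C₁ ≤ M := by rw [hM]; linarith
    exact mul_le_mul h4 h3 (by positivity) (by linarith)
  have hsz2 : |((MvPolynomial.eval x F₂ : ℤ) : ℝ)| ≤ M * (B : ℝ) ^ E := by
    refine (hb₂ B x (by omega) hx).trans ?_
    have h3 : (B : ℝ) ^ E₂ ≤ (B : ℝ) ^ E := pow_le_pow_right₀ hB1 (by omega)
    have h4 : C₂ ≤ M := by rw [hM]; linarith
    exact mul_le_mul h4 h3 (by positivity) (by linarith)
  set S : ℝ := M * (B : ℝ) ^ E with hS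
  have hS1 : 1 ≤ S := by rw [hS]; nlinarith
  have he1 : (1 : ℤ) ≤ |e| := Int.one_le_abs he
  have hle : ∀ (F z : ℤ), z ≠ 0 → F = e * z ^ 2 → |(F : ℝ)| ≤ S →
      |(e : ℝ)| ≤ S ∧ ((|z| : ℤ) : ℝ) ≤ S := by
    intro F z hz hF hFS
    have hzz : (1 : ℤ) ≤ |z| := Int.one_le_abs hz
    have h3 : |F| = |e| * |z| ^ 2 := by rw [hF, abs_mul, abs_pow]
    have h4 : |e| ≤ |F| := by
      rw [h3]
      exact le_mul_of_one_le_right (abs_nonneg e) (one_le_pow₀ hzz)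
    have h5 : |z| ≤ |F| := by
      rw [h3]
      have : |z| ≤ |z| ^ 2 := by nlinarith
      nlinarith [mul_le_mul_of_nonneg_right he1 (sq_nonneg |z|)]
    constructor
    · refine le_trans ?_ hFS
      exact_mod_cast h4
    · refine le_trans ?_ hFS
      exact_mod_cast h5
  obtain ⟨hes, hzs1⟩ := hle _ z₁ hz10 hz1 hsz1
  obtain ⟨-, hzs2⟩ := hle _ z₂ hz20 hz2 hsz2
  have hp1 : (0 : ℝ) ≤ ((|z₁| : ℤ) : ℝ) := by exact_mod_cast ha1.le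
  have hp2 : (0 : ℝ) ≤ ((|z₂| : ℤ) : ℝ) := by exact_mod_cast ha2.le
  have hS6 : 64 * M ^ 6 * (B : ℝ) ^ (6 * E) = 64 * S ^ 6 := by
    rw [hS, mul_pow, ← pow_mul]; ring_nf
  have hpw : S ^ 2 ≤ S ^ 6 := pow_le_pow_right₀ hS1 (by norm_num)
  refine ⟨hp, hx, hyx, e * (|z₁| + |z₂|), ?_, ?_, ?_, ?_⟩
  · rw [quf_eval, hz1', hz2']; ring
  · rw [hd]
    positivity
  · rw [hS6]
    push_cast
    push_cast at hzs1 hzs2 hp1 hp2
    rw [abs_mul, abs_of_nonneg (by linarith : (0 : ℝ) ≤ |(z₁ : ℝ)| + |(z₂ : ℝ)|)]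
    have h3 : |(e : ℝ)| * (|(z₁ : ℝ)| + |(z₂ : ℝ)|) ≤ S * (S + S) :=
      mul_le_mul hes (by linarith) (by linarith) (by linarith)
    nlinarith
  · rw [hS6, hd]
    push_cast
    push_cast at hzs1 hzs2 hp1 hp2
    have h3 : |8 * (e : ℝ) ^ 3 * (|(z₁ : ℝ)| * |(z₂ : ℝ)|) * (|(z₁ : ℝ)| + |(z₂ : ℝ)|)| =
        8 * |(e : ℝ)| ^ 3 * (|(z₁ : ℝ)| * |(z₂ : ℝ)|) * (|(z₁ : ℝ)| + |(z₂ : ℝ)|) := by
      rw [abs_mul, abs_mul, abs_mul, abs_pow, abs_of_nonneg (by norm_num : (0 : ℝ) ≤ 8),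
        abs_of_nonneg (mul_nonneg hp1 hp2),
        abs_of_nonneg (by linarith : (0 : ℝ) ≤ |(z₁ : ℝ)| + |(z₂ : ℝ)|)]
    rw [h3]
    have h4 : |(e : ℝ)| ^ 3 ≤ S ^ 3 := pow_le_pow_left₀ (abs_nonneg _) hes 3
    have h5 : |(z₁ : ℝ)| * |(z₂ : ℝ)| ≤ S * S := mul_le_mul hzs1 hzs2 hp2 (by linarith)
    have h6 : |(z₁ : ℝ)| + |(z₂ : ℝ)| ≤ S + S := by linarith
    calc 8 * |(e : ℝ)| ^ 3 * (|(z₁ : ℝ)| * |(z₂ : ℝ)|) * (|(z₁ : ℝ)| + |(z₂ : ℝ)|)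
        ≤ 8 * S ^ 3 * (S * S) * (S + S) := by gcongr
      _ = 16 * S ^ 6 := by ring
      _ ≤ 64 * S ^ 6 := by nlinarith [pow_pos (by linarith : 0 < S) 6]

end Pool.MP_aab329_nt.SerreR
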