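import Pool.Agent.Lib.MP_aab329_nt.R.Pair
import Pool.Agent.Lib.MP_aab329_nt.R.Four
import Pool.Agent.Lib.MP_aab329_nt.R.EList

set_option autoImplicit false

namespace Pool.MP_aab329_nt.SerreR

open Polynomial Real Pool.MP_aab329_nt.SerreP

private theorem gr_res_mul (F G : MvPolynomial (Fin 3) ℤ) (u v : Fin 3 → ℚ) :
    res (F * G) u v = res F u v * res G u v := by
  unfold res
  rw [MvPolynomial.eval₂_mul]

private theorem gr_res_pow (F : MvPolynomial (Fin 3) ℤ) (n : ℕ) (u v : Fin 3 → ℚ) :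
    res (F ^ n) u v = res F u v ^ n := by
  unfold res
  rw [MvPolynomial.eval₂_pow]

private theorem gr_res_X (u v : Fin 3 → ℚ) :
    res (MvPolynomial.X 2) u v = C (u 2) * X + C (v 2) := by
  unfold res
  rw [MvPolynomial.eval₂_X]

private theorem gr_lin_ne (y : Fin 3 → ℤ) (hy : y 0 ≠ 0 ∨ y 1 ≠ 0) (u v : Fin 3 → ℚ)
    (hli : LinearIndependent ℚ ![u, v]) (hu : dot (rat y) u = 0) (hv : dot (rat y) v = 0) :
    (C (u 2) * X + C (v 2) : ℚ[X]) ≠ 0 := by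
  intro h
  have h1 : u 2 = 0 := by
    have := congrArg (fun p => Polynomial.coeff p 1) h
    simpa using this
  have h2 : v 2 = 0 := by
    have := congrArg (fun p => Polynomial.coeff p 0) h
    simpa using this
  unfold dot rat at hu hv
  rw [h1, mul_zero, add_zero] at hu
  rw [h2, mul_zero, add_zero] at hv
  rw [LinearIndependent.pair_iff] at hli
  rcases hy with h0 | h0
  · have h0' : (y 0 : ℚ) ≠ 0 := by exact_mod_cast h0
    -- the combination v1 u - u1 v vanishes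
    have h3 : v 1 * u 0 - u 1 * v 0 = 0 := by
      have : (y 0 : ℚ) * (v 1 * u 0 - u 1 * v 0) = 0 := by
        linear_combination v 1 * hu - u 1 * hv
      exact (mul_eq_zero.1 this).resolve_left h0'
    have h4 := hli (v 1) (-u 1) (by
      funext i
      fin_cases i
      · simp only [Pi.add_apply, Pi.smul_apply, smul_eq_mul, Pi.zero_apply, Fin.zero_eta]
        linear_combination h3
      · simp only [Pi.add_apply, Pi.smul_apply, smul_eq_mul, Pi.zero_apply, Fin.mk_one]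
        ring
      · simp only [Pi.add_apply, Pi.smul_apply, smul_eq_mul, Pi.zero_apply, Fin.reduceFinMk]
        rw [h1, h2]
        ring)
    have hu1 : u 1 = 0 := by simpa using h4.2
    have hu0 : u 0 = 0 := by
      rw [hu1, mul_zero, add_zero] at hu
      exact (mul_eq_zero.1 hu).resolve_left h0'
    have h5 := hli 1 0 (by
      funext i
      fin_cases i <;> simp [hu0, hu1, h1])
    exact one_ne_zero h5.1
  · have h0' : (y 1 : ℚ) ≠ 0 := by exact_mod_cast h0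
    have h3 : v 0 * u 1 - u 0 * v 1 = 0 := by
      have : (y 1 : ℚ) * (v 0 * u 1 - u 0 * v 1) = 0 := by
        linear_combination v 0 * hu - u 0 * hv
      exact (mul_eq_zero.1 this).resolve_left h0'
    have h4 := hli (v 0) (-u 0) (by
      funext i
      fin_cases i
      · simp only [Pi.add_apply, Pi.smul_apply, smul_eq_mul, Pi.zero_apply, Fin.zero_eta]
        ring
      · simp only [Pi.add_apply, Pi.smul_apply, smul_eq_mul, Pi.zero_apply, Fin.mk_one]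
        linear_combination h3
      · simp only [Pi.add_apply, Pi.smul_apply, smul_eq_mul, Pi.zero_apply, Fin.reduceFinMk]
        rw [h1, h2]
        ring)
    have hu0 : u 0 = 0 := by simpa using h4.2
    have hu1 : u 1 = 0 := by
      rw [hu0, mul_zero, zero_add] at hu
      exact (mul_eq_zero.1 hu).resolve_left h0'
    have h5 := hli 1 0 (by
      funext i
      fin_cases i <;> simp [hu0, hu1, h1])
    exact one_ne_zero h5.1

private theorem gr_csq (r s : ℚ[X]) (hs : s ≠ 0) (h : CSq (r * s ^ 2)) : CSq r := by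
  obtain ⟨c, q, hq⟩ := h
  by_cases hc : c = 0
  · refine ⟨0, 0, ?_⟩
    rw [hc, C_0, zero_mul] at hq
    rw [C_0, zero_mul]
    exact (mul_eq_zero.1 hq).resolve_right (pow_ne_zero 2 hs)
  · have h1 : s ^ 2 ∣ q ^ 2 := by
      refine ⟨C c⁻¹ * r, ?_⟩
      have h2 : (C c⁻¹ : ℚ[X]) * C c = 1 := by
        rw [← C_mul, inv_mul_cancel₀ hc, C_1]
      linear_combination (-(C c⁻¹ : ℚ[X])) * hq - q ^ 2 * h2
    obtain ⟨t, ht⟩ := (IsIntegrallyClosed.pow_dvd_pow_iff two_ne_zero).1 h1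
    refine ⟨c, t, ?_⟩
    have h3 : s ^ 2 ≠ 0 := pow_ne_zero 2 hs
    apply mul_right_cancel₀ h3
    rw [hq, ht]
    ring

private theorem gr_sq (r s p : ℚ[X]) (hs : s ≠ 0) (h : p ^ 2 = r * s ^ 2) : ∃ t, t ^ 2 = r := by
  have h1 : s ^ 2 ∣ p ^ 2 := ⟨r, by rw [h]; ring⟩
  obtain ⟨t, ht⟩ := (IsIntegrallyClosed.pow_dvd_pow_iff two_ne_zero).1 h1
  refine ⟨t, ?_⟩
  have h3 : s ^ 2 ≠ 0 := pow_ne_zero 2 hs
  apply mul_right_cancel₀ h3
  rw [← h, ht]
  ring

private theorem gr_mx_sq (y : Fin 3 → ℤ) : ((mx y : ℕ) : ℤ) ^ 2 ≤ nsq y := by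
  obtain ⟨i, -, hi⟩ := Finset.exists_mem_eq_sup (Finset.univ : Finset (Fin 3))
    Finset.univ_nonempty (fun i => (y i).natAbs)
  have h1 : ((mx y : ℕ) : ℤ) ^ 2 = y i * y i := by
    unfold mx
    rw [hi, sq]
    exact Int.natAbs_mul_self' (y i)
  rw [h1]
  unfold nsq dot
  fin_cases i <;> simp <;> nlinarith [mul_self_nonneg (y 0), mul_self_nonneg (y 1),
    mul_self_nonneg (y 2)]

private theorem gr_finite (B : ℕ) : {x : Fin 3 → ℤ | mx x ≤ B}.Finite := by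
  refine (Set.finite_Icc (fun _ : Fin 3 => -(B : ℤ)) (fun _ => (B : ℤ))).subset ?_
  intro x hx
  have h : ∀ i, (x i).natAbs ≤ B := by
    have hx' : mx x ≤ B := hx
    unfold mx at hx'
    rw [Finset.sup_le_iff] at hx'
    exact fun i => hx' i (Finset.mem_univ i)
  rw [Set.mem_Icc]
  constructor
  · intro i
    have := h i
    show -(B : ℤ) ≤ x i
    omega
  · intro i
    have := h i
    show x i ≤ (B : ℤ)
    omega

/-- Good lines: the points of a line which is neither bad nor special. Proof: by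
`two_squares_times` with `g = G(y)` each point has `F₁(x) = e z₁^2`, `F₂(x) = e z₂^2` for some
`e` with `|e|` a divisor of `G(y)`; there are at most `2 K B^(1/16)` such `e` (`few_twists`;
`mx y ≤ B` since `nsq y ≤ 9 B`: for small `B` (`B < 9`) use a constant, or use `mx y ^2 ≤ 9 B` and
enlarge). For each `e` apply `four_line` with `m = k₂` to `F₁ * X 2 ^ (2 (k₂ - k₁))` and `F₂`.
On the line `X₂` is a nonzero linear polynomial `l` (as `y ≠ ± e₂`), and if `r₁ l^(2k)` is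
a constant times a square so is `r₁`; if `r₁ l^(2k) r₂` is a square so is `r₁ r₂`. -/
theorem good_line_R {F₁ F₂ : MvPolynomial (Fin 3) ℤ} {k₁ k₂ : ℕ} (h : Pair F₁ F₂ k₁ k₂)
    (hk : k₁ ≤ k₂) (G : MvPolynomial (Fin 3) ℤ)
    (hG : ∀ y x : Fin 3 → ℤ, prim x → dot y x = 0 →
      ∀ p : ℕ, p.Prime → (p : ℤ) ∣ MvPolynomial.eval x F₁ → (p : ℤ) ∣ MvPolynomial.eval x F₂ →
        (p : ℤ) ∣ MvPolynomial.eval y G) :
    ∃ (c : ℕ) (C : ℝ), 0 < C ∧ ∀ B : ℕ, 3 ≤ B → ∀ y : Fin 3 → ℤ, prim y → nsq y ≤ 9 * B →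
      ¬ BadLine (sqf (F₁ * F₂)) y → ¬ SqLine F₁ y → ¬ SqLine F₂ y → MvPolynomial.eval y G ≠ 0 →
      (y 0 ≠ 0 ∨ y 1 ≠ 0) →
      ({x : Fin 3 → ℤ | prim x ∧ mx x ≤ B ∧ dot y x = 0 ∧ x 2 ≠ 0 ∧ MvPolynomial.eval x F₁ ≠ 0 ∧
        MvPolynomial.eval x F₂ ≠ 0 ∧
        IsSquare (MvPolynomial.eval x F₁ * MvPolynomial.eval x F₂)}.ncard : ℝ) ≤
        C * (B : ℝ) ^ (1 / 16 : ℝ) * ((B : ℝ) ^ 2 / mx y) ^ (1 / 4 : ℝ) * (log B) ^ c := by
  obtain ⟨-, -, -, hk2, -⟩ := h.basic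
  set k : ℕ := k₂ - k₁ with hkdef
  set F : MvPolynomial (Fin 3) ℤ := F₁ * MvPolynomial.X 2 ^ (2 * k) with hF
  have hFh : F.IsHomogeneous (2 * k₂) := by
    have h1 := h.h₁.mul ((MvPolynomial.isHomogeneous_X ℤ (2 : Fin 3)).pow (2 * k))
    have h2 : 2 * k₁ + 1 * (2 * k) = 2 * k₂ := by omega
    rw [h2] at h1
    exact h1
  obtain ⟨c, C, hC, h4⟩ := four_line hk2 hFh h.h₂
  obtain ⟨K, hK, htw⟩ := few_twists G
  refine ⟨c, 2 * K * (9 : ℝ) ^ (1 / 16 : ℝ) * C, by positivity, ?_⟩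
  intro B hB y hy hyB hbad hs1 hs2 hGy hy01
  have hB0 : (0 : ℝ) < B := by exact_mod_cast (by omega : 0 < B)
  have hlog : 0 ≤ log (B : ℝ) := Real.log_natCast_nonneg B
  -- the conditions for the twisted pair
  have hl : ∀ u v : Fin 3 → ℚ, LinearIndependent ℚ ![u, v] → dot (rat y) u = 0 →
      dot (rat y) v = 0 → (Polynomial.C (u 2) * X + Polynomial.C (v 2) : ℚ[X]) ^ k ≠ 0 := fun u v h1 h2 h3 =>
    pow_ne_zero k (gr_lin_ne y hy01 u v h1 h2 h3)
  have hs1' : ¬ SqLine F y := by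
    rintro ⟨u, v, h1, h2, h3, h5⟩
    apply hs1
    refine ⟨u, v, h1, h2, h3, ?_⟩
    apply gr_csq _ _ (hl u v h1 h2 h3)
    rw [hF, gr_res_mul, gr_res_pow, gr_res_X] at h5
    rw [← pow_mul, mul_comm k 2]
    exact h5
  have hbad' : ¬ BadLine (sqf (F * F₂)) y := by
    rintro ⟨u, v, h1, h2, h3, p, h5⟩
    apply hbad
    rw [gline_sqf, eval_sub, eval_pow, eval_X, eval_C, sub_eq_zero, hF, gr_res_mul, gr_res_mul,
      gr_res_pow, gr_res_X] at h5
    obtain ⟨t, ht⟩ := gr_sq (res F₁ u v * res F₂ u v)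
      ((Polynomial.C (u 2) * X + Polynomial.C (v 2)) ^ k) p
      (hl u v h1 h2 h3) (by rw [h5, ← pow_mul, mul_comm k 2]; ring)
    refine ⟨u, v, h1, h2, h3, t, ?_⟩
    rw [gline_sqf, eval_sub, eval_pow, eval_X, eval_C, sub_eq_zero, gr_res_mul]
    exact ht
  -- the twists
  set D : Finset ℕ := (MvPolynomial.eval y G).natAbs.divisors with hD
  set T : Finset ℤ := D.image (fun d : ℕ => (d : ℤ)) ∪ D.image (fun d : ℕ => -(d : ℤ)) with hT
  have hTcard : T.card ≤ 2 * D.card := by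
    calc T.card ≤ (D.image (fun d : ℕ => (d : ℤ))).card + (D.image (fun d : ℕ => -(d : ℤ))).card :=
          Finset.card_union_le _ _
      _ ≤ D.card + D.card := Nat.add_le_add Finset.card_image_le Finset.card_image_le
      _ = 2 * D.card := by ring
  have hT0 : ∀ e ∈ T, e ≠ 0 := by
    intro e he
    rw [hT, Finset.mem_union, Finset.mem_image, Finset.mem_image] at he
    rcases he with ⟨d, hd, rfl⟩ | ⟨d, hd, rfl⟩
    · have := Nat.pos_of_mem_divisors hd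
      omega
    · have := Nat.pos_of_mem_divisors hd
      omega
  set P : ℤ → Set (Fin 3 → ℤ) := fun e => {x : Fin 3 → ℤ | prim x ∧ mx x ≤ B ∧ dot y x = 0 ∧
      MvPolynomial.eval x F ≠ 0 ∧ MvPolynomial.eval x F₂ ≠ 0 ∧
      ∃ z₁ z₂ : ℤ, MvPolynomial.eval x F = e * z₁ ^ 2 ∧ MvPolynomial.eval x F₂ = e * z₂ ^ 2}
    with hP
  have hsub : {x : Fin 3 → ℤ | prim x ∧ mx x ≤ B ∧ dot y x = 0 ∧ x 2 ≠ 0 ∧
      MvPolynomial.eval x F₁ ≠ 0 ∧ MvPolynomial.eval x F₂ ≠ 0 ∧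
      IsSquare (MvPolynomial.eval x F₁ * MvPolynomial.eval x F₂)} ⊆ ⋃ e ∈ T, P e := by
    rintro x ⟨h1, h2, h3, h5, h6, h7, h8⟩
    obtain ⟨e, z, w, he0, hed, hz, hw⟩ := two_squares_times _ _ _ h6 h7 hGy h8
      (hG y x h1 h3)
    rw [Set.mem_iUnion₂]
    refine ⟨e, ?_, h1, h2, h3, ?_, h7, z * x 2 ^ k, w, ?_, hw⟩
    · rw [hT, Finset.mem_union, Finset.mem_image, Finset.mem_image]
      rcases le_total 0 e with h9 | h9
      · exact Or.inl ⟨e.natAbs, hed, by omega⟩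
      · exact Or.inr ⟨e.natAbs, hed, by omega⟩
    · rw [hF, map_mul, map_pow, MvPolynomial.eval_X]
      exact mul_ne_zero h6 (pow_ne_zero _ h5)
    · rw [hF, map_mul, map_pow, MvPolynomial.eval_X, hz, mul_comm 2 k, pow_mul]
      ring
  have hfin : (⋃ e ∈ T, P e).Finite := by
    refine (gr_finite B).subset ?_
    intro x hx
    rw [Set.mem_iUnion₂] at hx
    obtain ⟨e, -, hx⟩ := hx
    exact hx.2.1
  have hcard : ({x : Fin 3 → ℤ | prim x ∧ mx x ≤ B ∧ dot y x = 0 ∧ x 2 ≠ 0 ∧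
      MvPolynomial.eval x F₁ ≠ 0 ∧ MvPolynomial.eval x F₂ ≠ 0 ∧
      IsSquare (MvPolynomial.eval x F₁ * MvPolynomial.eval x F₂)}.ncard : ℝ) ≤
      ∑ e ∈ T, ((P e).ncard : ℝ) := by
    have h1 := (Set.ncard_le_ncard hsub hfin).trans (Finset.set_ncard_biUnion_le T P)
    exact_mod_cast h1
  refine hcard.trans ?_
  have hbd : ∀ e ∈ T, ((P e).ncard : ℝ) ≤ C * ((B : ℝ) ^ 2 / mx y) ^ (1 / 4 : ℝ) * (log B) ^ c :=
    fun e he => h4 e (hT0 e he) B hB y hy hyB hs1' hs2 hbad'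
  have hnn : 0 ≤ C * ((B : ℝ) ^ 2 / mx y) ^ (1 / 4 : ℝ) * (log B) ^ c := by positivity
  refine (Finset.sum_le_card_nsmul _ _ _ hbd).trans ?_
  rw [nsmul_eq_mul]
  have hD2 : (D.card : ℝ) ≤ K * ((9 : ℝ) ^ (1 / 16 : ℝ) * (B : ℝ) ^ (1 / 16 : ℝ)) := by
    have hmx : mx y ≤ 9 * B := by
      have h1 := (gr_mx_sq y).trans hyB
      have h2 : ((mx y : ℕ) : ℤ) ≤ ((mx y : ℕ) : ℤ) ^ 2 := by
        rcases Nat.eq_zero_or_pos (mx y) with h3 | h3
        · rw [h3]; norm_num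
        · have : (1 : ℤ) ≤ mx y := by exact_mod_cast h3
          nlinarith
      have h3 : ((mx y : ℕ) : ℤ) ≤ 9 * (B : ℤ) := h2.trans h1
      exact_mod_cast h3
    have h1 := htw (9 * B) (by omega) y hmx hGy
    refine h1.trans (le_of_eq ?_)
    rw [Nat.cast_mul, Nat.cast_ofNat, Real.mul_rpow (by norm_num) hB0.le]
  have hT2 : (T.card : ℝ) ≤ 2 * (K * ((9 : ℝ) ^ (1 / 16 : ℝ) * (B : ℝ) ^ (1 / 16 : ℝ))) := by
    have h1 : (T.card : ℝ) ≤ 2 * D.card := by exact_mod_cast hTcard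
    linarith
  calc (T.card : ℝ) * (C * ((B : ℝ) ^ 2 / mx y) ^ (1 / 4 : ℝ) * (log B) ^ c)
      ≤ (2 * (K * ((9 : ℝ) ^ (1 / 16 : ℝ) * (B : ℝ) ^ (1 / 16 : ℝ)))) *
        (C * ((B : ℝ) ^ 2 / mx y) ^ (1 / 4 : ℝ) * (log B) ^ c) :=
        mul_le_mul_of_nonneg_right hT2 hnn
    _ = _ := by ring

end Pool.MP_aab329_nt.SerreR
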