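import Pool.Agent.Lib.MP_aab329_nt.BadCount
import Pool.Agent.Lib.MP_aab329_nt.AnyLine
import Pool.Agent.Lib.MP_aab329_nt.R.Base

set_option autoImplicit false

namespace Pool.MP_aab329_nt.SerreR

open Polynomial Real Pool.MP_aab329_nt.SerreP

private theorem sc_mx_le_iff (B : ℕ) (x : Fin 3 → ℤ) : mx x ≤ B ↔ ∀ i, |x i| ≤ (B : ℤ) := by
  unfold mx
  rw [Finset.sup_le_iff]
  constructor
  · intro h i
    have := h i (Finset.mem_univ i)
    rw [Int.abs_eq_natAbs]; exact_mod_cast this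
  · intro h i _
    have := h i
    rw [Int.abs_eq_natAbs] at this; exact_mod_cast this

/-- cross product -/
private def cr (y z : Fin 3 → ℤ) : Fin 3 → ℤ :=
  ![y 1 * z 2 - y 2 * z 1, y 2 * z 0 - y 0 * z 2, y 0 * z 1 - y 1 * z 0]

private theorem dot_cr_left (y z : Fin 3 → ℤ) : dot y (cr y z) = 0 := by
  simp [dot, cr]; ring

private theorem dot_cr_right (y z : Fin 3 → ℤ) : dot z (cr y z) = 0 := by
  simp [dot, cr]; ring

private theorem mx_cr (y z : Fin 3 → ℤ) : mx (cr y z) ≤ 2 * mx z * mx y := by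
  rw [sc_mx_le_iff]
  have hy := (sc_mx_le_iff (mx y) y).1 le_rfl
  have hz := (sc_mx_le_iff (mx z) z).1 le_rfl
  have key : ∀ i j k l, |y i * z j - y k * z l| ≤ ((2 * mx z * mx y : ℕ) : ℤ) := by
    intro i j k l
    have h1 : |y i * z j| ≤ (mx y : ℤ) * (mx z : ℤ) := by
      rw [abs_mul]; exact mul_le_mul (hy i) (hz j) (abs_nonneg _) (by positivity)
    have h2 : |y k * z l| ≤ (mx y : ℤ) * (mx z : ℤ) := by
      rw [abs_mul]; exact mul_le_mul (hy k) (hz l) (abs_nonneg _) (by positivity)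
    have h3 := abs_sub (y i * z j) (y k * z l)
    push_cast
    nlinarith
  intro i
  fin_cases i
  · exact key 1 2 2 1
  · exact key 2 0 0 2
  · exact key 0 1 1 0

/-- primitive part -/
private theorem prim_part (w : Fin 3 → ℤ) (hw : w ≠ 0) :
    ∃ (a : Fin 3 → ℤ) (g : ℤ), prim a ∧ g ≠ 0 ∧ (∀ i, w i = g * a i) ∧ mx a ≤ mx w := by
  obtain ⟨a, ha1, ha2⟩ := Finset.extract_gcd w (Finset.univ_nonempty (α := Fin 3))
  set g := Finset.univ.gcd w with hg
  have hg0 : g ≠ 0 := by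
    intro h0
    apply hw
    funext i
    have := ha1 i (Finset.mem_univ i)
    rw [this, h0]; simp
  refine ⟨a, g, ha2, hg0, fun i => ha1 i (Finset.mem_univ i), ?_⟩
  rw [sc_mx_le_iff]
  intro i
  have h1 := (sc_mx_le_iff (mx w) w).1 le_rfl i
  rw [ha1 i (Finset.mem_univ i), abs_mul] at h1
  have h2 : 1 ≤ |g| := Int.one_le_abs hg0
  nlinarith [abs_nonneg (a i)]

private theorem prim_ne {y : Fin 3 → ℤ} (hy : prim y) : y ≠ 0 := by
  rintro rfl
  unfold prim at hy
  have h4 : Finset.univ.gcd (0 : Fin 3 → ℤ) = 0 := by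
    rw [Finset.gcd_eq_zero_iff]; simp
  rw [h4] at hy
  exact zero_ne_one hy

/-- primitive vectors with zero cross product are equal up to sign -/
private theorem prim_parallel {y z : Fin 3 → ℤ} (hy : prim y) (hz : prim z) (h : cr y z = 0) :
    y = z ∨ y = -z := by
  have h0 : y 1 * z 2 - y 2 * z 1 = 0 := congrFun h 0
  have h1 : y 2 * z 0 - y 0 * z 2 = 0 := congrFun h 1
  have h2 : y 0 * z 1 - y 1 * z 0 = 0 := congrFun h 2
  have hsym : ∀ i j, y i * z j = y j * z i := by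
    intro i j
    fin_cases i <;> fin_cases j <;> simp <;> linarith
  -- z j divides y j, etc.
  have hdvd : ∀ j, z j ∣ y j := by
    intro j
    have h3 : z j ∣ Finset.univ.gcd (fun i => y j * z i) := by
      apply Finset.dvd_gcd
      intro i _
      rw [← hsym i j]; exact Dvd.intro_left _ rfl
    rw [Finset.gcd_mul_left] at h3
    have hz' : Finset.univ.gcd (fun i => z i) = 1 := hz
    rw [hz', mul_one] at h3
    exact (dvd_normalize_iff.1 h3)
  have hdvd' : ∀ j, y j ∣ z j := by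
    intro j
    have h3 : y j ∣ Finset.univ.gcd (fun i => z j * y i) := by
      apply Finset.dvd_gcd
      intro i _
      rw [mul_comm, hsym i j]; exact Dvd.intro _ rfl
    rw [Finset.gcd_mul_left] at h3
    have hy' : Finset.univ.gcd (fun i => y i) = 1 := hy
    rw [hy', mul_one] at h3
    exact (dvd_normalize_iff.1 h3)
  have habs : ∀ j, |y j| = |z j| := by
    intro j
    have := Int.natAbs_eq_of_dvd_dvd (hdvd j) (hdvd' j)
    rw [Int.abs_eq_natAbs, Int.abs_eq_natAbs, this]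
  have hne : ∃ k, y k ≠ 0 := by
    by_contra hc
    push Not at hc
    exact prim_ne hy (funext hc)
  obtain ⟨k, hk⟩ := hne
  rcases abs_eq_abs.1 (habs k) with hk1 | hk1
  · left
    funext j
    have := hsym j k
    rw [← hk1] at this
    have h5 : (y j - z j) * y k = 0 := by linarith
    rcases mul_eq_zero.1 h5 with h6 | h6
    · linarith
    · exact absurd h6 hk
  · right
    funext j
    have := hsym j k
    have h7 : z k = - y k := by rw [hk1]; ring
    rw [h7] at this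
    have h5 : (y j + z j) * y k = 0 := by linarith
    rcases mul_eq_zero.1 h5 with h6 | h6
    · simp only [Pi.neg_apply]; linarith
    · exact absurd h6 hk

/-- lattice points of a plane in a box -/
private theorem plane_box (B : ℕ) (w : Fin 3 → ℤ) (hw : w ≠ 0) :
    {x : Fin 3 → ℤ | mx x ≤ B ∧ dot w x = 0}.Finite ∧
    {x : Fin 3 → ℤ | mx x ≤ B ∧ dot w x = 0}.ncard ≤ (2 * B + 1) ^ 2 := by
  have hk : ∃ k, w k ≠ 0 := by
    by_contra hc
    push Not at hc
    exact hw (funext hc)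
  obtain ⟨k, hk⟩ := hk
  set S : Set (Fin 3 → ℤ) := {x : Fin 3 → ℤ | mx x ≤ B ∧ dot w x = 0} with hS
  set T : Finset (ℤ × ℤ) := Finset.Icc (-(B : ℤ)) B ×ˢ Finset.Icc (-(B : ℤ)) B with hT
  have hTc : T.card = (2 * B + 1) ^ 2 := by
    rw [hT, Finset.card_product, Int.card_Icc]
    have : ((B : ℤ) + 1 - -(B : ℤ)).toNat = 2 * B + 1 := by omega
    rw [this]; ring
  have hmaps : ∀ x ∈ S, (x (k + 1), x (k + 2)) ∈ (T : Set (ℤ × ℤ)) := by
    rintro x ⟨hx, -⟩
    rw [sc_mx_le_iff] at hx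
    rw [Finset.mem_coe, hT, Finset.mem_product, Finset.mem_Icc, Finset.mem_Icc,
      ← abs_le, ← abs_le]
    exact ⟨hx _, hx _⟩
  have hinj : Set.InjOn (fun x : Fin 3 → ℤ => (x (k + 1), x (k + 2))) S := by
    rintro x ⟨-, hx⟩ x' ⟨-, hx'⟩ he
    simp only [Prod.mk.injEq] at he
    obtain ⟨e1, e2⟩ := he
    unfold dot at hx hx'
    have hmul : w k * x k = w k * x' k := by
      fin_cases k
      · have e1' : x 1 = x' 1 := e1
        have e2' : x 2 = x' 2 := e2
        change w 0 * x 0 = w 0 * x' 0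
        rw [e1', e2'] at hx
        linarith
      · have e1' : x 2 = x' 2 := e1
        have e2' : x 0 = x' 0 := e2
        change w 1 * x 1 = w 1 * x' 1
        rw [e1', e2'] at hx
        linarith
      · have e1' : x 0 = x' 0 := e1
        have e2' : x 1 = x' 1 := e2
        change w 2 * x 2 = w 2 * x' 2
        rw [e1', e2'] at hx
        linarith
    have h3 : x k = x' k := mul_left_cancel₀ hk hmul
    funext i
    fin_cases k <;> fin_cases i <;> simp at e1 e2 h3 ⊢ <;> assumption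
  have hfin : S.Finite := by
    apply Set.Finite.of_finite_image _ hinj
    exact (Finset.finite_toSet T).subset (by rintro _ ⟨x, hx, rfl⟩; exact hmaps x hx)
  refine ⟨hfin, ?_⟩
  have := Set.ncard_le_ncard_of_injOn (fun x : Fin 3 → ℤ => (x (k + 1), x (k + 2))) hmaps hinj
    (Finset.finite_toSet T)
  rw [Set.ncard_coe_finset, hTc] at this
  exact this

private theorem res_C_mul (k : ℤ) (G : MvPolynomial (Fin 3) ℤ) (u v : Fin 3 → ℚ) :
    res (MvPolynomial.C k * G) u v = C (k : ℚ) * res G u v := by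
  unfold res
  rw [MvPolynomial.eval₂_mul, MvPolynomial.eval₂_C]
  simp

private theorem eval₂_rat (G : MvPolynomial (Fin 3) ℤ) (a : Fin 3 → ℤ) :
    MvPolynomial.eval₂ (Int.castRingHom ℚ) (rat a) G = ((MvPolynomial.eval a G : ℤ) : ℚ) := by
  have h : MvPolynomial.eval₂Hom (Int.castRingHom ℚ) (rat a) =
      (Int.castRingHom ℚ).comp (MvPolynomial.eval a) := by
    apply MvPolynomial.ringHom_ext
    · intro r; simp
    · intro i; simp [rat]
  have h1 := congrArg (fun g : MvPolynomial (Fin 3) ℤ →+* ℚ => g G) h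
  simpa using h1

private theorem res_eval_zero (G : MvPolynomial (Fin 3) ℤ) (w : Fin 3 → ℚ) (a : Fin 3 → ℤ) :
    (res G w (rat a)).eval 0 = ((MvPolynomial.eval a G : ℤ) : ℚ) := by
  rw [← eval₂_rat]
  have h : (evalRingHom (0 : ℚ)).comp (MvPolynomial.eval₂Hom (Int.castRingHom ℚ[X])
      (fun c => C (w c) * X + C (rat a c))) = MvPolynomial.eval₂Hom (Int.castRingHom ℚ) (rat a) := by
    apply MvPolynomial.ringHom_ext
    · intro r; simp
    · intro i; simp
  exact congrArg (fun g : MvPolynomial (Fin 3) ℤ →+* ℚ => g G) h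

/-- a `SqLine` is a `BadLine` of a twist -/
private theorem sq_twist {G : MvPolynomial (Fin 3) ℤ} {y : Fin 3 → ℤ} (h : SqLine G y) :
    ∃ k : ℤ, k ≠ 0 ∧ BadLine (sqf (MvPolynomial.C k * G)) y := by
  obtain ⟨u, v, hli, hu, hv, c, q, hq⟩ := h
  by_cases hc : c = 0
  · refine ⟨1, one_ne_zero, u, v, hli, hu, hv, 0, ?_⟩
    rw [gline_sqf, res_C_mul, hq, hc]
    simp
  · refine ⟨c.num * c.den, mul_ne_zero (Rat.num_ne_zero.2 hc) (by exact_mod_cast c.den_nz),
      u, v, hli, hu, hv, C (c.num : ℚ) * q, ?_⟩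
    rw [gline_sqf, res_C_mul, hq]
    have h1 : (((c.num * (c.den : ℤ) : ℤ) : ℚ)) * c = (c.num : ℚ) ^ 2 := by
      have h2 : (c.den : ℚ) * c = c.num := by
        rw [mul_comm]; exact Rat.mul_den_eq_num c
      push_cast
      linear_combination (c.num : ℚ) * h2
    simp only [eval_sub, eval_pow, eval_X, eval_C]
    rw [← mul_assoc, ← C_mul, h1, mul_pow, C_pow]
    ring

private theorem sq_bad {m : ℕ} {G : MvPolynomial (Fin 3) ℤ}
    (hG : G.IsHomogeneous (2 * m)) {y a : Fin 3 → ℤ} (hy : y ≠ 0) (ha : a ≠ 0)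
    (hya : dot y a = 0) (hGa : MvPolynomial.eval a G ≠ 0) (h : SqLine G y) :
    BadLine (sqf (MvPolynomial.C (MvPolynomial.eval a G) * G)) y := by
  obtain ⟨k, hk, hb⟩ := sq_twist h
  have hf : WMonic m 2 (sqf (MvPolynomial.C k * G)) := by
    apply sqf_wmonic
    simpa using (MvPolynomial.isHomogeneous_C (Fin 3) k).mul hG
  obtain ⟨u, v, hli, hu, hv, -⟩ := h
  have hra : rat a ≠ 0 := by
    intro h
    apply ha
    funext i
    have := congrFun h i
    simpa [rat] using this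
  have hya' : dot (rat y) (rat a) = 0 := by
    have : ((dot y a : ℤ) : ℚ) = 0 := by rw [hya]; simp
    simpa [dot, rat] using this
  have hw : ∃ w : Fin 3 → ℚ, LinearIndependent ℚ ![w, rat a] ∧ dot (rat y) w = 0 := by
    by_contra hc
    push Not at hc
    have hu' : ¬ LinearIndependent ℚ ![u, rat a] := fun h => hc u h hu
    have hv' : ¬ LinearIndependent ℚ ![v, rat a] := fun h => hc v h hv
    rw [LinearIndependent.pair_symm_iff, LinearIndependent.pair_iff' hra] at hu' hv'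
    push Not at hu' hv'
    obtain ⟨c, hc1⟩ := hu'
    obtain ⟨d, hd1⟩ := hv'
    rw [LinearIndependent.pair_iff] at hli
    have := hli d (-c) (by rw [← hc1, ← hd1, smul_smul, smul_smul]; module)
    have hd0 : d = 0 := this.1
    have hc0 : c = 0 := by simpa using this.2
    have h7 := hli 1 0 (by rw [← hc1, hc0]; simp)
    exact one_ne_zero h7.1
  obtain ⟨w, hwli, hwd⟩ := hw
  obtain ⟨p, hp⟩ := root_any_basis hf y hy hb w (rat a) hwli hwd hya'
  refine ⟨w, rat a, hwli, hwd, hya', C (p.eval 0 / k) * p, ?_⟩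
  rw [gline_sqf, res_C_mul] at hp ⊢
  simp only [eval_sub, eval_pow, eval_X, eval_C] at hp ⊢
  have hk' : (k : ℚ) ≠ 0 := by exact_mod_cast hk
  have h0 : (p.eval 0) ^ 2 = (k : ℚ) * ((MvPolynomial.eval a G : ℤ) : ℚ) := by
    have h1 := congrArg (Polynomial.eval 0) hp
    simp only [eval_sub, eval_pow, eval_mul, eval_C, eval_zero, res_eval_zero] at h1
    linarith
  have h2 : (p.eval 0 / k) ^ 2 * k = ((MvPolynomial.eval a G : ℤ) : ℚ) := by
    rw [div_pow, h0]; field_simp
  have hp' : p ^ 2 = C (k : ℚ) * res G w (rat a) := by linear_combination hp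
  rw [mul_pow, hp', ← C_pow, ← mul_assoc, ← C_mul, h2, sub_self]

private theorem sqf_noRoot {G : MvPolynomial (Fin 3) ℤ}
    (hns : ∀ (c : ℚ) (Q : MvPolynomial (Fin 3) ℚ),
      MvPolynomial.map (Int.castRingHom ℚ) G ≠ MvPolynomial.C c * Q ^ 2) {k : ℤ} (hk : k ≠ 0) :
    NoRoot (sqf (MvPolynomial.C k * G)) := by
  intro P hP
  have hk' : (k : ℚ) ≠ 0 := by exact_mod_cast hk
  rw [sp_sqf] at hP
  simp only [eval_sub, eval_pow, eval_X, eval_C] at hP
  have h1 : MvPolynomial.eval₂ (Int.castRingHom (MvPolynomial (Fin 3) ℚ))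
      (fun c => (MvPolynomial.X c : MvPolynomial (Fin 3) ℚ)) (MvPolynomial.C k * G) =
      MvPolynomial.C (k : ℚ) * MvPolynomial.map (Int.castRingHom ℚ) G := by
    have h : MvPolynomial.eval₂Hom (Int.castRingHom (MvPolynomial (Fin 3) ℚ))
        (fun c => (MvPolynomial.X c : MvPolynomial (Fin 3) ℚ)) =
        MvPolynomial.map (Int.castRingHom ℚ) := by
      apply MvPolynomial.ringHom_ext
      · intro r; simp
      · intro i; simp
    have h2 := congrArg (fun g : MvPolynomial (Fin 3) ℤ →+* MvPolynomial (Fin 3) ℚ =>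
      g (MvPolynomial.C k * G)) h
    simp only [map_mul, MvPolynomial.map_C] at h2
    rw [MvPolynomial.coe_eval₂Hom] at h2
    rw [MvPolynomial.eval₂_mul]
    simpa using h2
  rw [h1] at hP
  apply hns (1 / k) P
  have h2 : P ^ 2 = MvPolynomial.C (k : ℚ) * MvPolynomial.map (Int.castRingHom ℚ) G := by
    linear_combination hP
  rw [h2, ← mul_assoc, ← MvPolynomial.C_mul]
  have h3 : (1 / (k : ℚ)) * k = 1 := by field_simp
  rw [h3, MvPolynomial.C_1, one_mul]

private theorem through_count {m : ℕ} {G : MvPolynomial (Fin 3) ℤ}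
    (hG : G.IsHomogeneous (2 * m))
    (hns : ∀ (c : ℚ) (Q : MvPolynomial (Fin 3) ℚ),
      MvPolynomial.map (Int.castRingHom ℚ) G ≠ MvPolynomial.C c * Q ^ 2)
    {a : Fin 3 → ℤ} (ha : a ≠ 0) (hGa : MvPolynomial.eval a G ≠ 0) :
    {y : Fin 3 → ℤ | prim y ∧ dot y a = 0 ∧ SqLine G y}.Finite ∧
    {y : Fin 3 → ℤ | prim y ∧ dot y a = 0 ∧ SqLine G y}.ncard ≤ 2 * 2 * (m * 2 + 1) + 2 := by
  set k := MvPolynomial.eval a G with hk
  have hf : WMonic m 2 (sqf (MvPolynomial.C k * G)) := by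
    apply sqf_wmonic
    simpa using (MvPolynomial.isHomogeneous_C (Fin 3) k).mul hG
  have hk' : (k : ℚ) ≠ 0 := by exact_mod_cast hGa
  obtain ⟨h1, h2⟩ := bad_through (by norm_num) hf (sqf_noRoot hns hGa) a ha (by
    intro τ hτ
    rw [sp_sqf] at hτ ⊢
    simp only [eval_sub, eval_pow, eval_X, eval_C] at hτ
    rw [MvPolynomial.eval₂_mul, MvPolynomial.eval₂_C, eval₂_rat, ← hk] at hτ
    simp only [derivative_sub, derivative_X_pow, derivative_C, sub_zero, eval_mul, eval_pow, eval_X]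
    intro h0
    have h3 : τ = 0 := by simpa using h0
    rw [h3] at hτ
    apply hk'
    have h4 : (k : ℚ) * k = 0 := by
      have : (Int.castRingHom ℚ) k = (k : ℚ) := rfl
      rw [this] at hτ
      linarith
    simpa using h4)
  have hsub : {y : Fin 3 → ℤ | prim y ∧ dot y a = 0 ∧ SqLine G y} ⊆
      {y : Fin 3 → ℤ | prim y ∧ dot y a = 0 ∧ BadLine (sqf (MvPolynomial.C k * G)) y} := by
    rintro y ⟨py, hya, hy⟩
    exact ⟨py, hya, sq_bad hG (prim_ne py) ha hya hGa hy⟩
  exact ⟨h1.subset hsub, (Set.ncard_le_ncard hsub h1).trans h2⟩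

private theorem exists_Qz {G : MvPolynomial (Fin 3) ℤ} (hG0 : G ≠ 0) :
    ∃ Q z : Fin 3 → ℤ, MvPolynomial.eval Q G ≠ 0 ∧ prim z ∧ dot z Q = 0 := by
  obtain ⟨Q, hQ⟩ : ∃ Q : Fin 3 → ℤ, MvPolynomial.eval Q G ≠ 0 := by
    by_contra h
    push Not at h
    exact hG0 (MvPolynomial.funext fun x => by rw [h x, map_zero])
  have key : ∃ w : Fin 3 → ℤ, w ≠ 0 ∧ dot w Q = 0 := by
    by_cases h0 : Q 0 = 0
    · refine ⟨![1, 0, 0], ?_, ?_⟩
      · intro h
        have := congrFun h 0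
        simp at this
      · simp [dot, h0]
    · refine ⟨![Q 1, - Q 0, 0], ?_, ?_⟩
      · intro h
        have := congrFun h 1
        simp at this
        exact h0 this
      · simp [dot]; ring
  obtain ⟨w, hw, hwQ⟩ := key
  obtain ⟨z, g, pz, hg, hgz, -⟩ := prim_part w hw
  refine ⟨Q, z, hQ, pz, ?_⟩
  have h1 : dot w Q = g * dot z Q := by
    unfold dot; rw [hgz 0, hgz 1, hgz 2]; ring
  rw [hwQ] at h1
  rcases mul_eq_zero.1 h1.symm with h | h
  · exact absurd h hg
  · exact h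

/-- Lines on which a form that is not a constant times a square becomes one. Proof: take an
integral `Q` with `G(Q) ≠ 0`, a primitive `z` with `dot z Q = 0`. A primitive `y ≠ ± z` meets `z`
in a primitive point `a` (primitive part of the cross product, `mx a ≤ 2 mx z mx y`; see
`BadCount.lean`). If `G(a) ≠ 0` and `y` is a `SqLine` of `G`, then `y` is a `BadLine` of
`sqf (C (G(a)) * G)` (if `G = c q^2` on the line then `G(a) = c q(a)^2`, so
`G(a) G = (c q(a) q)^2` for `c q(a)^2 = G(a)`), which has `NoRoot` by `hns`, so `bad_through` gives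
at most `4 (2 m + 1) + 2` such `y` for each `a`; there are `O(Y^2)` points `a` of height `O(Y)` on
the line `z` (two coordinates determine the third). The primitive `a` on `z` with `G(a) = 0` are
finitely many (`plane_zeros_finite`) and each is on `O(Y^2)` lines. -/
theorem sq_count {m : ℕ} (hm : 1 ≤ m) {G : MvPolynomial (Fin 3) ℤ}
    (hG : G.IsHomogeneous (2 * m)) (hG0 : G ≠ 0)
    (hns : ∀ (c : ℚ) (Q : MvPolynomial (Fin 3) ℚ),
      MvPolynomial.map (Int.castRingHom ℚ) G ≠ MvPolynomial.C c * Q ^ 2) :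
    ∃ C : ℝ, 0 < C ∧ ∀ Y : ℕ, 1 ≤ Y →
      ({y : Fin 3 → ℤ | prim y ∧ mx y ≤ Y ∧ SqLine G y}.ncard : ℝ) ≤ C * (Y : ℝ) ^ 2 := by
  classical
  obtain ⟨Q, z, hQ, pz, hzQ⟩ := exists_Qz hG0
  have hZ := plane_zeros_finite G (2 * m) hG z Q pz hzQ hQ
  set K : ℕ := 2 * 2 * (m * 2 + 1) + 2 with hK
  set Z := hZ.toFinset with hZd
  set M : ℕ := mx z with hM
  refine ⟨((2 + (4 * M + 1) ^ 2 * K + Z.card * 9 : ℕ) : ℝ), by positivity, ?_⟩
  intro Y hY
  -- points on the line `z`
  obtain ⟨pf, pc⟩ := plane_box (2 * M * Y) z (prim_ne pz)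
  set S : Finset (Fin 3 → ℤ) := pf.toFinset.filter
    (fun a => prim a ∧ MvPolynomial.eval a G ≠ 0) with hS
  have hSc : S.card ≤ (2 * (2 * M * Y) + 1) ^ 2 := by
    refine (Finset.card_filter_le _ _).trans ?_
    rw [← Set.ncard_eq_toFinset_card _ pf]
    exact pc
  have hA : ∀ a ∈ S, {y : Fin 3 → ℤ | prim y ∧ dot y a = 0 ∧ SqLine G y}.Finite ∧
      {y : Fin 3 → ℤ | prim y ∧ dot y a = 0 ∧ SqLine G y}.ncard ≤ K := by
    intro a ha
    rw [hS, Finset.mem_filter] at ha
    exact through_count hG hns (prim_ne ha.2.1) ha.2.2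
  have hB : ∀ a ∈ Z, {y : Fin 3 → ℤ | mx y ≤ Y ∧ dot a y = 0}.Finite ∧
      {y : Fin 3 → ℤ | mx y ≤ Y ∧ dot a y = 0}.ncard ≤ (2 * Y + 1) ^ 2 := by
    intro a ha
    rw [hZd, Set.Finite.mem_toFinset] at ha
    exact plane_box Y a (prim_ne ha.1)
  have hsub : {y : Fin 3 → ℤ | prim y ∧ mx y ≤ Y ∧ SqLine G y} ⊆
      ({z, -z} ∪ (⋃ a ∈ S, {y : Fin 3 → ℤ | prim y ∧ dot y a = 0 ∧ SqLine G y})) ∪
        (⋃ a ∈ Z, {y : Fin 3 → ℤ | mx y ≤ Y ∧ dot a y = 0}) := by
    rintro y ⟨py, hy1, hy2⟩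
    by_cases h0 : cr y z = 0
    · left; left
      rcases prim_parallel py pz h0 with h1 | h1
      · left; exact h1
      · right; exact h1
    obtain ⟨a, g, pa, hg0, hga, hma⟩ := prim_part (cr y z) h0
    have d1 : dot y a = 0 := by
      have e1 := dot_cr_left y z
      have e2 : dot y (cr y z) = g * dot y a := by
        unfold dot; rw [hga 0, hga 1, hga 2]; ring
      rw [e2] at e1
      rcases mul_eq_zero.1 e1 with h | h
      · exact absurd h hg0
      · exact h
    have d2 : dot z a = 0 := by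
      have e1 := dot_cr_right y z
      have e2 : dot z (cr y z) = g * dot z a := by
        unfold dot; rw [hga 0, hga 1, hga 2]; ring
      rw [e2] at e1
      rcases mul_eq_zero.1 e1 with h | h
      · exact absurd h hg0
      · exact h
    have hma' : mx a ≤ 2 * M * Y := by
      calc mx a ≤ mx (cr y z) := hma
        _ ≤ 2 * mx z * mx y := mx_cr y z
        _ ≤ 2 * M * Y := Nat.mul_le_mul_left _ hy1
    by_cases hGa : MvPolynomial.eval a G = 0
    · right
      rw [Set.mem_iUnion₂]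
      refine ⟨a, ?_, hy1, ?_⟩
      · rw [hZd, Set.Finite.mem_toFinset]; exact ⟨pa, d2, hGa⟩
      · unfold dot at d1 ⊢
        linarith
    · left; right
      rw [Set.mem_iUnion₂]
      refine ⟨a, ?_, py, d1, hy2⟩
      rw [hS, Finset.mem_filter, Set.Finite.mem_toFinset]
      exact ⟨⟨hma', d2⟩, pa, hGa⟩
  have f1 : (⋃ a ∈ S, {y : Fin 3 → ℤ | prim y ∧ dot y a = 0 ∧ SqLine G y}).Finite :=
    Set.Finite.biUnion (Finset.finite_toSet S) fun a ha => (hA a ha).1
  have f2 : (⋃ a ∈ Z, {y : Fin 3 → ℤ | mx y ≤ Y ∧ dot a y = 0}).Finite :=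
    Set.Finite.biUnion (Finset.finite_toSet Z) fun a ha => (hB a ha).1
  have f0 : ({z, -z} : Set (Fin 3 → ℤ)).Finite := Set.toFinite _
  have c0 : ({z, -z} : Set (Fin 3 → ℤ)).ncard ≤ 2 :=
    (Set.ncard_insert_le _ _).trans (by simp)
  have c1 : (⋃ a ∈ S, {y : Fin 3 → ℤ | prim y ∧ dot y a = 0 ∧ SqLine G y}).ncard ≤
      S.card * K := by
    refine (Finset.set_ncard_biUnion_le S _).trans ?_
    refine (Finset.sum_le_card_nsmul _ _ K fun a ha => (hA a ha).2).trans ?_
    simp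
  have c2 : (⋃ a ∈ Z, {y : Fin 3 → ℤ | mx y ≤ Y ∧ dot a y = 0}).ncard ≤
      Z.card * (2 * Y + 1) ^ 2 := by
    refine (Finset.set_ncard_biUnion_le Z _).trans ?_
    refine (Finset.sum_le_card_nsmul _ _ ((2 * Y + 1) ^ 2) fun a ha => (hB a ha).2).trans ?_
    simp
  have hcard : {y : Fin 3 → ℤ | prim y ∧ mx y ≤ Y ∧ SqLine G y}.ncard ≤
      2 + S.card * K + Z.card * (2 * Y + 1) ^ 2 := by
    refine (Set.ncard_le_ncard hsub ((f0.union f1).union f2)).trans ?_
    refine (Set.ncard_union_le _ _).trans ?_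
    refine add_le_add ((Set.ncard_union_le _ _).trans ?_) c2
    exact add_le_add c0 c1
  have hfin : {y : Fin 3 → ℤ | prim y ∧ mx y ≤ Y ∧ SqLine G y}.ncard ≤
      (2 + (4 * M + 1) ^ 2 * K + Z.card * 9) * Y ^ 2 := by
    refine hcard.trans ?_
    have hY2 : 1 ≤ Y ^ 2 := Nat.one_le_pow _ _ hY
    have b1 : (2 * (2 * M * Y) + 1) ^ 2 ≤ (4 * M + 1) ^ 2 * Y ^ 2 := by
      rw [← mul_pow]
      apply Nat.pow_le_pow_left
      nlinarith
    have b2 : (2 * Y + 1) ^ 2 ≤ 9 * Y ^ 2 := by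
      have : 2 * Y + 1 ≤ 3 * Y := by omega
      calc (2 * Y + 1) ^ 2 ≤ (3 * Y) ^ 2 := Nat.pow_le_pow_left this 2
        _ = 9 * Y ^ 2 := by ring
    calc 2 + S.card * K + Z.card * (2 * Y + 1) ^ 2
        ≤ 2 * Y ^ 2 + ((4 * M + 1) ^ 2 * Y ^ 2) * K + Z.card * (9 * Y ^ 2) := by
          refine add_le_add (add_le_add (by omega) ?_) (Nat.mul_le_mul_left _ b2)
          exact Nat.mul_le_mul_right _ (hSc.trans b1)
      _ = (2 + (4 * M + 1) ^ 2 * K + Z.card * 9) * Y ^ 2 := by ring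
  exact_mod_cast hfin

end Pool.MP_aab329_nt.SerreR
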