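import Pool.Agent.Lib.MP_aab329_nt.Sums

set_option autoImplicit false

namespace Pool.MP_aab329_nt.SerreR

open Polynomial Real Pool.MP_aab329_nt.SerreP

/-- As `sum_third` (`Sums.lean`, `card_shell`). -/
theorem sum_quarter (Y : ℕ) :
    ∑ y ∈ box Y, (1 / (mx y : ℝ)) ^ (1 / 4 : ℝ) ≤ 26 * (Y : ℝ) ^ (11 / 4 : ℝ) := by
  have hmaps : ∀ y ∈ box Y, mx y ∈ Finset.Icc 1 Y := by
    intro y hy
    rw [Finset.mem_Icc]
    exact (mem_box Y y).1 hy
  rw [← Finset.sum_fiberwise_of_maps_to hmaps]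
  have hj : ∀ j ∈ Finset.Icc 1 Y,
      ∑ y ∈ (box Y).filter (fun y => mx y = j), (1 / (mx y : ℝ)) ^ (1 / 4 : ℝ) ≤
        26 * (Y : ℝ) ^ (7 / 4 : ℝ) := by
    intro j hj
    rw [Finset.mem_Icc] at hj
    have h0 : (0 : ℝ) < j := by exact_mod_cast hj.1
    have h1 : ∀ y ∈ (box Y).filter (fun y => mx y = j),
        (1 / (mx y : ℝ)) ^ (1 / 4 : ℝ) = (1 / (j : ℝ)) ^ (1 / 4 : ℝ) := by
      intro y hy
      rw [(Finset.mem_filter.1 hy).2]
    rw [Finset.sum_congr rfl h1, Finset.sum_const, nsmul_eq_mul]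
    have h2 : (((box Y).filter (fun y => mx y = j)).card : ℝ) ≤ 26 * (j : ℝ) ^ 2 := by
      exact_mod_cast card_shell Y j hj.1
    have h3 : (0 : ℝ) ≤ (1 / (j : ℝ)) ^ (1 / 4 : ℝ) := by positivity
    refine (mul_le_mul_of_nonneg_right h2 h3).trans ?_
    have h4 : (j : ℝ) ^ 2 * (1 / (j : ℝ)) ^ (1 / 4 : ℝ) = (j : ℝ) ^ (7 / 4 : ℝ) := by
      rw [one_div, Real.inv_rpow h0.le, ← Real.rpow_natCast, ← Real.rpow_neg h0.le,
        ← Real.rpow_add h0]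
      norm_num
    rw [mul_assoc, h4]
    have h5 : (j : ℝ) ^ (7 / 4 : ℝ) ≤ (Y : ℝ) ^ (7 / 4 : ℝ) := by
      apply Real.rpow_le_rpow h0.le _ (by norm_num)
      exact_mod_cast hj.2
    linarith
  refine (Finset.sum_le_sum hj).trans ?_
  rw [Finset.sum_const, Nat.card_Icc, nsmul_eq_mul, Nat.add_sub_cancel]
  rcases Nat.eq_zero_or_pos Y with h | h
  · subst h
    simp
  · have h0 : (0 : ℝ) < Y := by exact_mod_cast h
    have h6 : (Y : ℝ) * (Y : ℝ) ^ (7 / 4 : ℝ) = (Y : ℝ) ^ (11 / 4 : ℝ) := by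
      nth_rewrite 1 [← Real.rpow_one (Y : ℝ)]
      rw [← Real.rpow_add h0]
      norm_num
    rw [← h6]
    linarith

private theorem SumR_geom (r : ℝ) (hr : 2 ≤ r) (n : ℕ) :
    ∑ k ∈ Finset.range (n + 1), r ^ k ≤ 2 * r ^ n := by
  induction n with
  | zero => simp
  | succ n ih =>
    rw [Finset.sum_range_succ]
    have h : 2 * r ^ n ≤ r ^ (n + 1) := by
      rw [pow_succ, mul_comm (r ^ n)]
      exact mul_le_mul_of_nonneg_right hr (by positivity)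
    linarith

private theorem SumR_finite (j : ℕ) (S : Set (Fin 3 → ℤ)) :
    {y : Fin 3 → ℤ | mx y ≤ j ∧ y ∈ S}.Finite := by
  have h0 : {y : Fin 3 → ℤ | mx y = 0}.Finite := by
    refine (Set.finite_singleton (0 : Fin 3 → ℤ)).subset ?_
    intro y hy
    rw [Set.mem_singleton_iff]
    have hy' : mx y = 0 := hy
    funext i
    have h1 : (y i).natAbs ≤ mx y := by
      unfold mx
      exact Finset.le_sup (f := fun i => (y i).natAbs) (Finset.mem_univ i)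
    have h2 : (y i).natAbs = 0 := by omega
    simpa using h2
  refine ((box j).finite_toSet.union h0).subset ?_
  rintro y ⟨hy, -⟩
  rcases Nat.eq_zero_or_pos (mx y) with h | h
  · exact Or.inr h
  · left
    rw [Finset.mem_coe, mem_box]
    exact ⟨h, hy⟩

/-- A set with `O(Y^2)` elements of height at most `Y`. As `sum_sparse` (`Sums.lean`), dyadic: the
part with `2^k ≤ mx y < 2^(k+1)` gives at most `C 4^(k+1) 2^(-k/2)`, a geometric sum with ratio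
`2^(3/2)`. -/
theorem sum_special (S : Set (Fin 3 → ℤ)) (C : ℝ) (hC : 0 < C)
    (h : ∀ H : ℕ, 1 ≤ H → ({y : Fin 3 → ℤ | mx y ≤ H ∧ y ∈ S}.ncard : ℝ) ≤ C * (H : ℝ) ^ 2) :
    ∃ C' : ℝ, 0 < C' ∧ ∀ Y : ℕ, 1 ≤ Y → ∀ A : Finset (Fin 3 → ℤ), A ⊆ box Y →
      (∀ y ∈ A, y ∈ S) → ∑ y ∈ A, (1 / (mx y : ℝ)) ^ (1 / 2 : ℝ) ≤ C' * (Y : ℝ) ^ (3 / 2 : ℝ) := by
  refine ⟨8 * C, by positivity, ?_⟩
  intro Y hY A hA hAS
  have hmaps : ∀ y ∈ A, Nat.log 2 (mx y) ∈ Finset.range (Nat.log 2 Y + 1) := by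
    intro y hy
    rw [Finset.mem_range, Nat.lt_succ_iff]
    exact Nat.log_mono_right ((mem_box Y y).1 (hA hy)).2
  rw [← Finset.sum_fiberwise_of_maps_to hmaps]
  have hk : ∀ k ∈ Finset.range (Nat.log 2 Y + 1),
      ∑ y ∈ A.filter (fun y => Nat.log 2 (mx y) = k), (1 / (mx y : ℝ)) ^ (1 / 2 : ℝ) ≤
        4 * C * ((2 : ℝ) ^ (3 / 2 : ℝ)) ^ k := by
    intro k hk
    have h1 : ∀ y ∈ A.filter (fun y => Nat.log 2 (mx y) = k),
        (1 / (mx y : ℝ)) ^ (1 / 2 : ℝ) ≤ (1 / (2 : ℝ) ^ k) ^ (1 / 2 : ℝ) := by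
      intro y hy
      rw [Finset.mem_filter] at hy
      have hy1 := ((mem_box Y y).1 (hA hy.1)).1
      have h2 : 2 ^ k ≤ mx y := by
        rw [← hy.2]; exact Nat.pow_log_le_self 2 (by omega)
      refine Real.rpow_le_rpow (by positivity) ?_ (by norm_num)
      apply one_div_le_one_div_of_le (by positivity)
      exact_mod_cast h2
    refine (Finset.sum_le_sum h1).trans ?_
    rw [Finset.sum_const, nsmul_eq_mul]
    have h3 : ((A.filter (fun y => Nat.log 2 (mx y) = k)).card : ℝ) ≤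
        ({y : Fin 3 → ℤ | mx y ≤ 2 ^ (k + 1) ∧ y ∈ S}.ncard : ℝ) := by
      have hfin := SumR_finite (2 ^ (k + 1)) S
      have : (↑(A.filter (fun y => Nat.log 2 (mx y) = k)) : Set (Fin 3 → ℤ)) ⊆
          {y : Fin 3 → ℤ | mx y ≤ 2 ^ (k + 1) ∧ y ∈ S} := by
        intro y hy
        rw [Finset.mem_coe, Finset.mem_filter] at hy
        refine ⟨?_, hAS y hy.1⟩
        have := Nat.lt_pow_succ_log_self (b := 2) (by norm_num) (mx y)
        rw [hy.2] at this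
        exact this.le
      have h4 := Set.ncard_le_ncard this hfin
      rw [Set.ncard_coe_finset] at h4
      exact_mod_cast h4
    have h5 := h (2 ^ (k + 1)) Nat.one_le_two_pow
    have h9 : (0 : ℝ) < 2 ^ k := by positivity
    have h10 : (0 : ℝ) ≤ (1 / (2 : ℝ) ^ k) ^ (1 / 2 : ℝ) := by positivity
    refine (mul_le_mul_of_nonneg_right (h3.trans h5) h10).trans (le_of_eq ?_)
    have h11 : ((2 : ℝ) ^ (3 / 2 : ℝ)) ^ k = ((2 : ℝ) ^ k) ^ (3 / 2 : ℝ) := by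
      rw [← Real.rpow_natCast, ← Real.rpow_mul (by norm_num), ← Real.rpow_natCast,
        ← Real.rpow_mul (by norm_num)]
      congr 1
      ring
    have h12 : ((2 : ℝ) ^ k) ^ 2 * (1 / (2 : ℝ) ^ k) ^ (1 / 2 : ℝ) = ((2 : ℝ) ^ k) ^ (3 / 2 : ℝ) := by
      have h13 : ((2 : ℝ) ^ k) ^ 2 = ((2 : ℝ) ^ k) ^ (2 : ℝ) := (Real.rpow_two _).symm
      rw [one_div, Real.inv_rpow h9.le, h13, ← Real.rpow_neg h9.le, ← Real.rpow_add h9]
      norm_num
    rw [h11, ← h12]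
    push_cast
    ring
  refine (Finset.sum_le_sum hk).trans ?_
  rw [← Finset.mul_sum]
  have hr : (2 : ℝ) ≤ (2 : ℝ) ^ (3 / 2 : ℝ) := by
    nth_rewrite 1 [← Real.rpow_one (2 : ℝ)]
    exact Real.rpow_le_rpow_of_exponent_le (by norm_num) (by norm_num)
  have hg := SumR_geom _ hr (Nat.log 2 Y)
  have hY' : ((2 : ℝ) ^ (3 / 2 : ℝ)) ^ (Nat.log 2 Y) ≤ (Y : ℝ) ^ (3 / 2 : ℝ) := by
    have h1 : ((2 : ℝ) ^ (3 / 2 : ℝ)) ^ (Nat.log 2 Y) = ((2 : ℝ) ^ (Nat.log 2 Y)) ^ (3 / 2 : ℝ) := by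
      rw [← Real.rpow_natCast, ← Real.rpow_mul (by norm_num), ← Real.rpow_natCast,
        ← Real.rpow_mul (by norm_num)]
      congr 1
      ring
    rw [h1]
    refine Real.rpow_le_rpow (by positivity) ?_ (by norm_num)
    have := Nat.pow_log_le_self 2 (x := Y) (by omega)
    exact_mod_cast this
  calc 4 * C * ∑ k ∈ Finset.range (Nat.log 2 Y + 1), ((2 : ℝ) ^ (3 / 2 : ℝ)) ^ k
      ≤ 4 * C * (2 * (Y : ℝ) ^ (3 / 2 : ℝ)) :=
        mul_le_mul_of_nonneg_left (by linarith) (by positivity)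
    _ = 8 * C * (Y : ℝ) ^ (3 / 2 : ℝ) := by ring

end Pool.MP_aab329_nt.SerreR
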