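import Pool.Agent.Lib.MP_aab329_nt.Cover
import Pool.Agent.Lib.MP_aab329_nt.AnyLine
import Pool.Agent.Lib.MP_aab329_nt.ZerosBox
import Pool.Agent.Lib.MP_aab329_nt.R.Dbl
import Pool.Agent.Lib.MP_aab329_nt.R.Bad2
import Pool.Agent.Lib.MP_aab329_nt.R.SqCount
import Pool.Agent.Lib.MP_aab329_nt.R.Elim
import Pool.Agent.Lib.MP_aab329_nt.R.SumR
import Pool.Agent.Lib.MP_aab329_nt.R.GoodR

set_option autoImplicit false

namespace Pool.MP_aab329_nt.SerreR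

open Polynomial Real Pool.MP_aab329_nt.SerreP

private noncomputable def allBox (B : ℕ) : Finset (Fin 3 → ℤ) :=
  Fintype.piFinset fun _ : Fin 3 => Finset.Icc (-(B : ℤ)) B

private theorem mem_allBox (B : ℕ) (x : Fin 3 → ℤ) : x ∈ allBox B ↔ ∀ i, |x i| ≤ (B : ℤ) := by
  simp [allBox, abs_le]

private theorem mx_le_iff (B : ℕ) (x : Fin 3 → ℤ) : mx x ≤ B ↔ ∀ i, |x i| ≤ (B : ℤ) := by
  unfold mx
  rw [Finset.sup_le_iff]
  constructor
  · intro h i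
    have := h i (Finset.mem_univ i)
    rw [Int.abs_eq_natAbs]; exact_mod_cast this
  · intro h i _
    have := h i
    rw [Int.abs_eq_natAbs] at this; exact_mod_cast this

private theorem ncard_eq (B : ℕ) (P : (Fin 3 → ℤ) → Prop) [DecidablePred P]
    (h : ∀ x, P x → mx x ≤ B) :
    {x | P x}.ncard = ((allBox B).filter P).card := by
  rw [← Set.ncard_coe_finset]
  congr 1
  ext x
  simp only [Finset.coe_filter, Set.mem_ofPred_eq]
  constructor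
  · intro hx
    exact ⟨(mem_allBox B x).2 ((mx_le_iff B x).1 (h x hx)), hx⟩
  · exact fun hx => hx.2

private theorem one_le_mx {y : Fin 3 → ℤ} (hy : prim y) : 1 ≤ mx y := by
  by_contra hc
  have h0 : mx y = 0 := by omega
  have h1 : ∀ i, |y i| ≤ ((0 : ℕ) : ℤ) := (mx_le_iff 0 y).1 (by omega)
  have h2 : y = 0 := by
    funext i
    have := h1 i
    simpa using this
  subst h2
  unfold prim at hy
  have : Finset.univ.gcd (0 : Fin 3 → ℤ) = 0 := by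
    rw [Finset.gcd_eq_zero_iff]; simp
  rw [this] at hy
  exact zero_ne_one hy

private theorem nsq_le {y : Fin 3 → ℤ} {B : ℕ} (h : mx y ^ 2 ≤ 3 * B) : nsq y ≤ 9 * B := by
  have h1 : ∀ i, |y i| ≤ ((mx y : ℕ) : ℤ) := (mx_le_iff (mx y) y).1 le_rfl
  have h2 : ∀ i, y i * y i ≤ ((mx y : ℕ) : ℤ) ^ 2 := by
    intro i
    have := abs_le.1 (h1 i)
    nlinarith [this.1, this.2]
  have h3 : (((mx y : ℕ) : ℤ)) ^ 2 ≤ 3 * B := by exact_mod_cast h
  unfold nsq dot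
  linarith [h2 0, h2 1, h2 2]

/-- The main count when the forms do not vanish at `(0 : 0 : 1)`. Proof: `G` from `elim_form`.
Zeros of `F₁ F₂` and of `X₂`: `zeros_box`. Any other point lies on a line `y` with
`mx y ^ 2 ≤ 3 B` (`cover`), so `nsq y ≤ 9 B`, `y ∈ box (Nat.sqrt (3 B))`. Bad lines
(`BadLine (sqf (F₁ F₂)) y`): `any_line`, `bad_count2`, `sum_sparse`. Special lines (`SqLine F₁`,
`SqLine F₂`, `G(y) = 0`, `y₀ = y₁ = 0`): `dbl_line` for `F₁ F₂` (degree `2 (k₁ + k₂)`), there are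
`O(Y^2)` of height `≤ Y` (`sq_count`, `zeros_box`), `sum_special`: total
`B B^(3/4) ≤ B^2`. The others: `good_line_R`, `sum_quarter`: total
`B^(1/16) B^(1/2) (3 B)^(11/8) ≤ 27 B^2`. -/
theorem main_001 {F₁ F₂ : MvPolynomial (Fin 3) ℤ} {k₁ k₂ : ℕ} (h : Pair F₁ F₂ k₁ k₂)
    (hk : k₁ ≤ k₂) (hn : MvPolynomial.eval ![0, 0, 1] F₁ ≠ 0) :
    ∃ (c : ℕ) (C : ℝ), 0 < C ∧ ∀ B : ℕ, 3 ≤ B →
      ({x : Fin 3 → ℤ | prim x ∧ mx x ≤ B ∧
        IsSquare (MvPolynomial.eval x F₁ * MvPolynomial.eval x F₂)}.ncard : ℝ) ≤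
        C * (B : ℝ) ^ 2 * (log B) ^ c := by
  classical
  obtain ⟨hF1, hF2, hk1, hk2, hnr⟩ := h.basic
  obtain ⟨G, hG0, hG⟩ := elim_form F₁ F₂ (2 * k₁) (2 * k₂) h.h₁ h.h₂ hn h.co
  have h12 : (F₁ * F₂).IsHomogeneous (2 * (k₁ + k₂)) := by
    have := h.h₁.mul h.h₂
    rwa [← mul_add] at this
  have hm : 1 ≤ k₁ + k₂ := by omega
  have h12ne : F₁ * F₂ ≠ 0 := mul_ne_zero hF1 hF2
  obtain ⟨C1, hC1, h1⟩ := zeros_box (F₁ * F₂) h12ne
  obtain ⟨C2, hC2, h2⟩ := zeros_box (MvPolynomial.X 2) (MvPolynomial.X_ne_zero 2)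
  obtain ⟨cg, Cg, hCg, hg⟩ := good_line_R h hk G hG
  obtain ⟨cd, Cd, hCd, hd⟩ := dbl_line hm h12
  obtain ⟨Ca, hCa, ha⟩ := any_line
  obtain ⟨cb, Cb, hCb, hb⟩ := bad_count2 hm h12 h12ne hnr
  obtain ⟨Cq1, hCq1, hq1⟩ := sq_count hk1 h.h₁ hF1 h.s₁
  obtain ⟨Cq2, hCq2, hq2⟩ := sq_count hk2 h.h₂ hF2 h.s₂
  obtain ⟨Cz, hCz, hz⟩ := zeros_box G hG0
  obtain ⟨C3, hC3, h3⟩ := zeros_box (MvPolynomial.X 0) (MvPolynomial.X_ne_zero 0)
  -- the special lines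
  set Sp : Set (Fin 3 → ℤ) := {y | prim y ∧ (SqLine F₁ y ∨ SqLine F₂ y ∨
    MvPolynomial.eval y G = 0 ∨ (y 0 = 0 ∧ y 1 = 0))} with hSp
  have hSpc : ∀ H : ℕ, 1 ≤ H → ({y : Fin 3 → ℤ | mx y ≤ H ∧ y ∈ Sp}.ncard : ℝ) ≤
      (Cq1 + Cq2 + Cz + C3) * (H : ℝ) ^ 2 := by
    intro H hH
    have g1 := hq1 H hH
    have g2 := hq2 H hH
    have g3 := hz H hH
    have g4 := h3 H hH
    rw [ncard_eq H _ (fun x hx => hx.2.1)] at g1 g2
    rw [ncard_eq H _ (fun x hx => hx.1)] at g3 g4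
    rw [ncard_eq H _ (fun x hx => hx.1)]
    have hsub : (allBox H).filter (fun y => mx y ≤ H ∧ y ∈ Sp) ⊆
        (((allBox H).filter (fun y => prim y ∧ mx y ≤ H ∧ SqLine F₁ y) ∪
          (allBox H).filter (fun y => prim y ∧ mx y ≤ H ∧ SqLine F₂ y)) ∪
          (allBox H).filter (fun y => mx y ≤ H ∧ MvPolynomial.eval y G = 0)) ∪
          (allBox H).filter (fun y => mx y ≤ H ∧ MvPolynomial.eval y (MvPolynomial.X 0) = 0) := by
      intro y hy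
      rw [Finset.mem_filter] at hy
      obtain ⟨hyB, hyH, hyp, hc⟩ := hy
      simp only [Finset.mem_union, Finset.mem_filter, MvPolynomial.eval_X]
      rcases hc with hc | hc | hc | hc
      · left; left; left; exact ⟨hyB, hyp, hyH, hc⟩
      · left; left; right; exact ⟨hyB, hyp, hyH, hc⟩
      · left; right; exact ⟨hyB, hyH, hc⟩
      · right; exact ⟨hyB, hyH, hc.1⟩
    have hcard := (Finset.card_le_card hsub).trans ((Finset.card_union_le _ _).trans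
      (add_le_add_left ((Finset.card_union_le _ _).trans
        (add_le_add_left (Finset.card_union_le _ _) _)) _))
    have hcardR : (((allBox H).filter (fun y => mx y ≤ H ∧ y ∈ Sp)).card : ℝ) ≤
        (((allBox H).filter (fun y => prim y ∧ mx y ≤ H ∧ SqLine F₁ y)).card : ℝ) +
        (((allBox H).filter (fun y => prim y ∧ mx y ≤ H ∧ SqLine F₂ y)).card : ℝ) +
        (((allBox H).filter (fun y => mx y ≤ H ∧ MvPolynomial.eval y G = 0)).card : ℝ) +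
        (((allBox H).filter (fun y => mx y ≤ H ∧
          MvPolynomial.eval y (MvPolynomial.X 0) = 0)).card : ℝ) := by exact_mod_cast hcard
    linarith
  obtain ⟨Cp, hCp, hspec⟩ := sum_special Sp (Cq1 + Cq2 + Cz + C3) (by positivity) hSpc
  obtain ⟨Cs, hCs, hsum⟩ := sum_sparse {y | prim y ∧ BadLine (sqf (F₁ * F₂)) y} cb Cb hCb (by
    intro H hH
    refine le_trans (le_of_eq ?_) (hb H hH)
    congr 2
    ext y
    simp only [Set.mem_ofPred_eq]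
    tauto)
  set c : ℕ := cg + cd + cb + 1 with hc
  set C0 : ℝ := C1 + C2 + 234 * Cg + 3 * Cd * Cp + Ca * Cs * 2 ^ (cb + 1) with hC0
  have hC0pos : 0 < C0 := by positivity
  refine ⟨c, C0, hC0pos, ?_⟩
  intro B hB3
  have hBR : (3 : ℝ) ≤ B := by exact_mod_cast hB3
  have hBpos : (0 : ℝ) < B := by linarith
  have hB1 : (1 : ℝ) ≤ B := by linarith
  have hlog1 : 1 ≤ log (B : ℝ) := by
    rw [Real.le_log_iff_exp_le hBpos]
    have := Real.exp_one_lt_d9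
    linarith
  set L := log (B : ℝ) with hL
  have hL0 : 0 ≤ L := by linarith
  set Y := Nat.sqrt (3 * B) with hY
  have hY2 : Y ^ 2 ≤ 3 * B := by rw [hY, sq]; exact Nat.sqrt_le _
  have hY1 : 1 ≤ Y := by
    rw [hY]; apply Nat.le_sqrt.2; omega
  set T1 : (Fin 3 → ℤ) → Finset (Fin 3 → ℤ) := fun y =>
    (allBox B).filter (fun x => mx x ≤ B ∧ dot y x = 0) with hT1
  set T2 : (Fin 3 → ℤ) → Finset (Fin 3 → ℤ) := fun y =>
    (allBox B).filter (fun x => prim x ∧ mx x ≤ B ∧ dot y x = 0 ∧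
      MvPolynomial.eval x (F₁ * F₂) ≠ 0 ∧ IsSquare (MvPolynomial.eval x (F₁ * F₂))) with hT2
  set T3 : (Fin 3 → ℤ) → Finset (Fin 3 → ℤ) := fun y =>
    (allBox B).filter (fun x => prim x ∧ mx x ≤ B ∧ dot y x = 0 ∧ x 2 ≠ 0 ∧
      MvPolynomial.eval x F₁ ≠ 0 ∧ MvPolynomial.eval x F₂ ≠ 0 ∧
      IsSquare (MvPolynomial.eval x F₁ * MvPolynomial.eval x F₂)) with hT3
  set T : (Fin 3 → ℤ) → Finset (Fin 3 → ℤ) := fun y =>
    if BadLine (sqf (F₁ * F₂)) y then T1 y else if y ∈ Sp then T2 y else T3 y with hT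
  set Yb : Finset (Fin 3 → ℤ) := (box Y).filter (fun y => prim y) with hYb
  rw [ncard_eq B _ (fun x hx => hx.2.1)]
  have hsub : ((allBox B).filter (fun x => prim x ∧ mx x ≤ B ∧
        IsSquare (MvPolynomial.eval x F₁ * MvPolynomial.eval x F₂))) ⊆
      ((allBox B).filter (fun x => mx x ≤ B ∧ MvPolynomial.eval x (F₁ * F₂) = 0) ∪
       (allBox B).filter (fun x => mx x ≤ B ∧ MvPolynomial.eval x (MvPolynomial.X 2) = 0)) ∪
       Yb.biUnion T := by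
    intro x hx
    rw [Finset.mem_filter] at hx
    obtain ⟨hxB, hxp, hmx, hsq⟩ := hx
    by_cases hx12 : MvPolynomial.eval x (F₁ * F₂) = 0
    · apply Finset.mem_union_left; apply Finset.mem_union_left
      rw [Finset.mem_filter]; exact ⟨hxB, hmx, hx12⟩
    by_cases hx2 : MvPolynomial.eval x (MvPolynomial.X 2) = 0
    · apply Finset.mem_union_left; apply Finset.mem_union_right
      rw [Finset.mem_filter]; exact ⟨hxB, hmx, hx2⟩
    apply Finset.mem_union_right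
    obtain ⟨y, hy1, hy2, hy3⟩ := cover x B (by omega) hmx
    rw [Finset.mem_biUnion]
    refine ⟨y, ?_, ?_⟩
    · rw [hYb, Finset.mem_filter, mem_box]
      refine ⟨⟨one_le_mx hy1, ?_⟩, hy1⟩
      rw [hY, Nat.le_sqrt, ← sq]; exact hy3
    · rw [MvPolynomial.eval_X] at hx2
      have hx12' := hx12
      rw [map_mul] at hx12'
      obtain ⟨hx1', hx2'⟩ := mul_ne_zero_iff.1 hx12'
      simp only [hT]
      split_ifs with hbad hsp
      · simp only [hT1, Finset.mem_filter]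
        exact ⟨hxB, hmx, hy2⟩
      · simp only [hT2, Finset.mem_filter]
        refine ⟨hxB, hxp, hmx, hy2, hx12, ?_⟩
        rw [map_mul]; exact hsq
      · simp only [hT3, Finset.mem_filter]
        exact ⟨hxB, hxp, hmx, hy2, hx2, hx1', hx2', hsq⟩
  have hcard := (Finset.card_le_card hsub).trans ((Finset.card_union_le _ _).trans
    (add_le_add (Finset.card_union_le _ _) Finset.card_biUnion_le))
  have hcardR : ((((allBox B).filter (fun x => prim x ∧ mx x ≤ B ∧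
        IsSquare (MvPolynomial.eval x F₁ * MvPolynomial.eval x F₂))).card : ℕ) : ℝ) ≤
      (((allBox B).filter (fun x => mx x ≤ B ∧ MvPolynomial.eval x (F₁ * F₂) = 0)).card : ℝ) +
      (((allBox B).filter (fun x => mx x ≤ B ∧
        MvPolynomial.eval x (MvPolynomial.X 2) = 0)).card : ℝ) +
      ∑ y ∈ Yb, ((T y).card : ℝ) := by exact_mod_cast hcard
  have e1 : (((allBox B).filter (fun x => mx x ≤ B ∧
      MvPolynomial.eval x (F₁ * F₂) = 0)).card : ℝ) ≤ C1 * (B : ℝ) ^ 2 := by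
    have := h1 B (by omega)
    rwa [ncard_eq B _ (fun x hx => hx.1)] at this
  have e2 : (((allBox B).filter (fun x => mx x ≤ B ∧
      MvPolynomial.eval x (MvPolynomial.X 2) = 0)).card : ℝ) ≤ C2 * (B : ℝ) ^ 2 := by
    have := h2 B (by omega)
    rwa [ncard_eq B _ (fun x hx => hx.1)] at this
  have hYbmem : ∀ y ∈ Yb, prim y ∧ 1 ≤ mx y ∧ mx y ≤ Y ∧ nsq y ≤ 9 * B := by
    intro y hy
    rw [hYb, Finset.mem_filter, mem_box] at hy
    refine ⟨hy.2, hy.1.1, hy.1.2, nsq_le (le_trans ?_ hY2)⟩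
    exact Nat.pow_le_pow_left hy.1.2 2
  set w1 : ℝ := Ca * (B : ℝ) ^ 2 with hw1
  set w2 : ℝ := Cd * B * L ^ cd with hw2
  set w3 : ℝ := Cg * (B : ℝ) ^ (1 / 16 : ℝ) * ((B : ℝ) ^ 2) ^ (1 / 4 : ℝ) * L ^ cg with hw3
  have hw10 : 0 ≤ w1 := by positivity
  have hw20 : 0 ≤ w2 := by positivity
  have hw30 : 0 ≤ w3 := by positivity
  have e3 : ∀ y ∈ Yb, ((T y).card : ℝ) ≤ w3 * (1 / (mx y : ℝ)) ^ (1 / 4 : ℝ) +
      (if y ∈ Sp then w2 * (1 / (mx y : ℝ)) ^ (1 / 2 : ℝ) else 0) +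
      (if BadLine (sqf (F₁ * F₂)) y then w1 * (1 / (mx y : ℝ)) else 0) := by
    intro y hy
    obtain ⟨p1, p2, p3, p4⟩ := hYbmem y hy
    have hmy : (0 : ℝ) < mx y := by exact_mod_cast p2
    have q3 : 0 ≤ w3 * (1 / (mx y : ℝ)) ^ (1 / 4 : ℝ) := by positivity
    have q2 : 0 ≤ w2 * (1 / (mx y : ℝ)) ^ (1 / 2 : ℝ) := by positivity
    have q1 : 0 ≤ w1 * (1 / (mx y : ℝ)) := by positivity
    by_cases hbad : BadLine (sqf (F₁ * F₂)) y
    · have hTy : T y = T1 y := by simp only [hT, if_pos hbad]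
      have g0 := ha B hB3 y p1 p4
      rw [ncard_eq B _ (fun x hx => hx.1)] at g0
      have h8 : Ca * ((B : ℝ) ^ 2 / mx y) = w1 * (1 / (mx y : ℝ)) := by rw [hw1]; ring
      rw [h8] at g0
      rw [hTy, if_pos hbad]
      split_ifs
      · linarith
      · linarith
    · by_cases hsp : y ∈ Sp
      · have hTy : T y = T2 y := by simp only [hT, if_neg hbad, if_pos hsp]
        have g0 := hd B hB3 y p1 p4 hbad
        rw [ncard_eq B _ (fun x hx => hx.2.1)] at g0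
        have h8 : Cd * ((B : ℝ) ^ 2 / mx y) ^ (1 / 2 : ℝ) * (log B) ^ cd =
            w2 * (1 / (mx y : ℝ)) ^ (1 / 2 : ℝ) := by
          have h9 : ((B : ℝ) ^ 2) ^ (1 / 2 : ℝ) = B := by
            rw [← Real.rpow_natCast, ← Real.rpow_mul hBpos.le]; norm_num
          rw [div_eq_mul_one_div, Real.mul_rpow (by positivity) (by positivity), h9, hw2]
          ring
        rw [h8] at g0
        rw [hTy, if_neg hbad, if_pos hsp]
        linarith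
      · have hTy : T y = T3 y := by simp only [hT, if_neg hbad, if_neg hsp]
        have hsp' := hsp
        simp only [hSp, Set.mem_ofPred_eq, not_and, not_or] at hsp'
        obtain ⟨n1, n2, n3, n4⟩ := hsp' p1
        have n4' : y 0 ≠ 0 ∨ y 1 ≠ 0 := by tauto
        have g0 := hg B hB3 y p1 p4 hbad n1 n2 n3 n4'
        rw [ncard_eq B _ (fun x hx => hx.2.1)] at g0
        have h8 : Cg * (B : ℝ) ^ (1 / 16 : ℝ) * ((B : ℝ) ^ 2 / mx y) ^ (1 / 4 : ℝ) *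
            (log B) ^ cg = w3 * (1 / (mx y : ℝ)) ^ (1 / 4 : ℝ) := by
          rw [div_eq_mul_one_div ((B : ℝ) ^ 2), Real.mul_rpow (by positivity) (by positivity), hw3]
          ring
        rw [h8] at g0
        rw [hTy, if_neg hbad, if_neg hsp]
        linarith
  have e4 := Finset.sum_le_sum e3
  rw [Finset.sum_add_distrib, Finset.sum_add_distrib, ← Finset.mul_sum] at e4
  have e5 : ∑ y ∈ Yb, (1 / (mx y : ℝ)) ^ (1 / 4 : ℝ) ≤ 26 * (Y : ℝ) ^ (11 / 4 : ℝ) := by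
    refine le_trans (Finset.sum_le_sum_of_subset_of_nonneg (Finset.filter_subset _ _) ?_)
      (sum_quarter Y)
    intro y _ _; positivity
  have e5' : ∑ y ∈ Yb, (if y ∈ Sp then w2 * (1 / (mx y : ℝ)) ^ (1 / 2 : ℝ) else 0) ≤
      w2 * (Cp * (Y : ℝ) ^ (3 / 2 : ℝ)) := by
    rw [← Finset.sum_filter, ← Finset.mul_sum]
    apply mul_le_mul_of_nonneg_left _ hw20
    apply hspec Y hY1
    · exact (Finset.filter_subset _ _).trans (Finset.filter_subset _ _)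
    · intro y hy
      rw [Finset.mem_filter] at hy
      exact hy.2
  have e6 : ∑ y ∈ Yb, (if BadLine (sqf (F₁ * F₂)) y then w1 * (1 / (mx y : ℝ)) else 0) ≤
      w1 * (Cs * (log (Y + 2)) ^ (cb + 1)) := by
    rw [← Finset.sum_filter, ← Finset.mul_sum]
    apply mul_le_mul_of_nonneg_left _ hw10
    apply hsum Y hY1
    · exact (Finset.filter_subset _ _).trans (Finset.filter_subset _ _)
    · intro y hy
      rw [Finset.mem_filter, hYb, Finset.mem_filter] at hy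
      exact ⟨hy.1.2, hy.2⟩
  -- numerics
  have hYR : (Y : ℝ) ^ 2 ≤ 3 * B := by exact_mod_cast hY2
  have hY0 : (0 : ℝ) ≤ Y := Nat.cast_nonneg _
  have e7 : (B : ℝ) ^ (1 / 16 : ℝ) * ((B : ℝ) ^ 2) ^ (1 / 4 : ℝ) * (Y : ℝ) ^ (11 / 4 : ℝ) ≤
      9 * (B : ℝ) ^ 2 := by
    have g1 : (Y : ℝ) ^ (11 / 4 : ℝ) = ((Y : ℝ) ^ 2) ^ (11 / 8 : ℝ) := by
      rw [← Real.rpow_natCast, ← Real.rpow_mul hY0]; norm_num
    have g2 : ((Y : ℝ) ^ 2) ^ (11 / 8 : ℝ) ≤ (3 * (B : ℝ)) ^ (11 / 8 : ℝ) :=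
      Real.rpow_le_rpow (by positivity) hYR (by norm_num)
    have g3 : (3 * (B : ℝ)) ^ (11 / 8 : ℝ) = 3 ^ (11 / 8 : ℝ) * (B : ℝ) ^ (11 / 8 : ℝ) :=
      Real.mul_rpow (by norm_num) hBpos.le
    have g4 : ((B : ℝ) ^ 2) ^ (1 / 4 : ℝ) = (B : ℝ) ^ (1 / 2 : ℝ) := by
      rw [← Real.rpow_natCast, ← Real.rpow_mul hBpos.le]; norm_num
    have g5 : (B : ℝ) ^ (1 / 16 : ℝ) * (B : ℝ) ^ (1 / 2 : ℝ) * (B : ℝ) ^ (11 / 8 : ℝ) ≤
        (B : ℝ) ^ 2 := by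
      rw [← Real.rpow_add hBpos, ← Real.rpow_add hBpos, ← Real.rpow_natCast]
      apply Real.rpow_le_rpow_of_exponent_le hB1
      norm_num
    have g6 : (3 : ℝ) ^ (11 / 8 : ℝ) ≤ 9 := by
      have : (3 : ℝ) ^ (11 / 8 : ℝ) ≤ (3 : ℝ) ^ (2 : ℝ) :=
        Real.rpow_le_rpow_of_exponent_le (by norm_num) (by norm_num)
      calc (3 : ℝ) ^ (11 / 8 : ℝ) ≤ (3 : ℝ) ^ (2 : ℝ) := this
        _ = 9 := by norm_num
    rw [g1, g4]
    calc (B : ℝ) ^ (1 / 16 : ℝ) * (B : ℝ) ^ (1 / 2 : ℝ) * ((Y : ℝ) ^ 2) ^ (11 / 8 : ℝ)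
        ≤ (B : ℝ) ^ (1 / 16 : ℝ) * (B : ℝ) ^ (1 / 2 : ℝ) *
          (3 ^ (11 / 8 : ℝ) * (B : ℝ) ^ (11 / 8 : ℝ)) := by
          rw [← g3]; exact mul_le_mul_of_nonneg_left g2 (by positivity)
      _ = 3 ^ (11 / 8 : ℝ) *
          ((B : ℝ) ^ (1 / 16 : ℝ) * (B : ℝ) ^ (1 / 2 : ℝ) * (B : ℝ) ^ (11 / 8 : ℝ)) := by ring
      _ ≤ 9 * (B : ℝ) ^ 2 := mul_le_mul g6 g5 (by positivity) (by norm_num)
  have e7' : (Y : ℝ) ^ (3 / 2 : ℝ) ≤ 3 * B := by
    have g1 : (Y : ℝ) ^ (3 / 2 : ℝ) = ((Y : ℝ) ^ 2) ^ (3 / 4 : ℝ) := by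
      rw [← Real.rpow_natCast, ← Real.rpow_mul hY0]; norm_num
    have g2 : ((Y : ℝ) ^ 2) ^ (3 / 4 : ℝ) ≤ (3 * (B : ℝ)) ^ (3 / 4 : ℝ) :=
      Real.rpow_le_rpow (by positivity) hYR (by norm_num)
    have g3 : (3 * (B : ℝ)) ^ (3 / 4 : ℝ) ≤ (3 * (B : ℝ)) ^ (1 : ℝ) :=
      Real.rpow_le_rpow_of_exponent_le (by linarith) (by norm_num)
    rw [Real.rpow_one] at g3
    rw [g1]
    exact g2.trans g3
  have e8 : log ((Y : ℝ) + 2) ≤ 2 * L := by
    have g1 : (Y : ℝ) + 2 ≤ (B : ℝ) ^ 2 := by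
      have : (Y : ℝ) ≤ B := by
        nlinarith
      nlinarith
    calc log ((Y : ℝ) + 2) ≤ log ((B : ℝ) ^ 2) := Real.log_le_log (by positivity) g1
      _ = 2 * L := by rw [Real.log_pow]; push_cast; ring
  have e9 : (log ((Y : ℝ) + 2)) ^ (cb + 1) ≤ 2 ^ (cb + 1) * L ^ (cb + 1) := by
    rw [← mul_pow]
    apply pow_le_pow_left₀ _ e8
    apply Real.log_nonneg; linarith
  have p1 : (1 : ℝ) ≤ L ^ c := one_le_pow₀ hlog1
  have p2 : L ^ cg ≤ L ^ c := pow_le_pow_right₀ hlog1 (by omega)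
  have p2' : L ^ cd ≤ L ^ c := pow_le_pow_right₀ hlog1 (by omega)
  have p3 : L ^ (cb + 1) ≤ L ^ c := pow_le_pow_right₀ hlog1 (by omega)
  have hB2 : (0 : ℝ) ≤ (B : ℝ) ^ 2 := by positivity
  have f1 : C1 * (B : ℝ) ^ 2 ≤ C1 * (B : ℝ) ^ 2 * L ^ c := le_mul_of_one_le_right (by positivity) p1
  have f2 : C2 * (B : ℝ) ^ 2 ≤ C2 * (B : ℝ) ^ 2 * L ^ c := le_mul_of_one_le_right (by positivity) p1
  have f3 : w3 * ∑ y ∈ Yb, (1 / (mx y : ℝ)) ^ (1 / 4 : ℝ) ≤ 234 * Cg * (B : ℝ) ^ 2 * L ^ c := by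
    calc w3 * ∑ y ∈ Yb, (1 / (mx y : ℝ)) ^ (1 / 4 : ℝ)
        ≤ w3 * (26 * (Y : ℝ) ^ (11 / 4 : ℝ)) := mul_le_mul_of_nonneg_left e5 hw30
      _ = 26 * Cg * L ^ cg * ((B : ℝ) ^ (1 / 16 : ℝ) * ((B : ℝ) ^ 2) ^ (1 / 4 : ℝ) *
          (Y : ℝ) ^ (11 / 4 : ℝ)) := by rw [hw3]; ring
      _ ≤ 26 * Cg * L ^ cg * (9 * (B : ℝ) ^ 2) := mul_le_mul_of_nonneg_left e7 (by positivity)
      _ = 234 * Cg * (B : ℝ) ^ 2 * L ^ cg := by ring
      _ ≤ 234 * Cg * (B : ℝ) ^ 2 * L ^ c := mul_le_mul_of_nonneg_left p2 (by positivity)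
  have f3' : w2 * (Cp * (Y : ℝ) ^ (3 / 2 : ℝ)) ≤ 3 * Cd * Cp * (B : ℝ) ^ 2 * L ^ c := by
    calc w2 * (Cp * (Y : ℝ) ^ (3 / 2 : ℝ)) ≤ w2 * (Cp * (3 * B)) :=
          mul_le_mul_of_nonneg_left (mul_le_mul_of_nonneg_left e7' hCp.le) hw20
      _ = 3 * Cd * Cp * (B : ℝ) ^ 2 * L ^ cd := by rw [hw2]; ring
      _ ≤ 3 * Cd * Cp * (B : ℝ) ^ 2 * L ^ c := mul_le_mul_of_nonneg_left p2' (by positivity)
  have f4 : w1 * (Cs * (log (Y + 2)) ^ (cb + 1)) ≤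
      Ca * Cs * 2 ^ (cb + 1) * (B : ℝ) ^ 2 * L ^ c := by
    calc w1 * (Cs * (log (Y + 2)) ^ (cb + 1))
        ≤ w1 * (Cs * (2 ^ (cb + 1) * L ^ (cb + 1))) := by
          apply mul_le_mul_of_nonneg_left _ hw10
          exact mul_le_mul_of_nonneg_left e9 hCs.le
      _ = Ca * Cs * 2 ^ (cb + 1) * (B : ℝ) ^ 2 * L ^ (cb + 1) := by rw [hw1]; ring
      _ ≤ Ca * Cs * 2 ^ (cb + 1) * (B : ℝ) ^ 2 * L ^ c :=
          mul_le_mul_of_nonneg_left p3 (by positivity)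
  calc ((((allBox B).filter (fun x => prim x ∧ mx x ≤ B ∧
        IsSquare (MvPolynomial.eval x F₁ * MvPolynomial.eval x F₂))).card : ℕ) : ℝ)
      ≤ C1 * (B : ℝ) ^ 2 * L ^ c + C2 * (B : ℝ) ^ 2 * L ^ c +
        (234 * Cg * (B : ℝ) ^ 2 * L ^ c + 3 * Cd * Cp * (B : ℝ) ^ 2 * L ^ c +
          Ca * Cs * 2 ^ (cb + 1) * (B : ℝ) ^ 2 * L ^ c) := by
        linarith
    _ = C0 * (B : ℝ) ^ 2 * L ^ c := by rw [hC0]; ring

end Pool.MP_aab329_nt.SerreR
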