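import Pool.Agent.Lib.MP_aab329_nt.R.Base

set_option autoImplicit false

namespace Pool.MP_aab329_nt.SerreR

open Polynomial Real Pool.MP_aab329_nt.SerreP

/-- The two forms and all hypotheses, except for the position of the point `(0 : 0 : 1)`. -/
structure Pair (F₁ F₂ : MvPolynomial (Fin 3) ℤ) (k₁ k₂ : ℕ) : Prop where
  h₁ : F₁.IsHomogeneous (2 * k₁)
  h₂ : F₂.IsHomogeneous (2 * k₂)
  co : IsRelPrime (MvPolynomial.map (Int.castRingHom ℚ) F₁)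
      (MvPolynomial.map (Int.castRingHom ℚ) F₂)
  s₁ : ∀ (c : ℚ) (Q : MvPolynomial (Fin 3) ℚ),
      MvPolynomial.map (Int.castRingHom ℚ) F₁ ≠ MvPolynomial.C c * Q ^ 2
  s₂ : ∀ (c : ℚ) (Q : MvPolynomial (Fin 3) ℚ),
      MvPolynomial.map (Int.castRingHom ℚ) F₂ ≠ MvPolynomial.C c * Q ^ 2

private theorem Pair_ne {F : MvPolynomial (Fin 3) ℤ}
    (hs : ∀ (c : ℚ) (Q : MvPolynomial (Fin 3) ℚ),
      MvPolynomial.map (Int.castRingHom ℚ) F ≠ MvPolynomial.C c * Q ^ 2) : F ≠ 0 := by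
  rintro rfl
  exact hs 0 1 (by simp)

private theorem Pair_pos {F : MvPolynomial (Fin 3) ℤ} {k : ℕ} (h : F.IsHomogeneous (2 * k))
    (hs : ∀ (c : ℚ) (Q : MvPolynomial (Fin 3) ℚ),
      MvPolynomial.map (Int.castRingHom ℚ) F ≠ MvPolynomial.C c * Q ^ 2) : 1 ≤ k := by
  by_contra hk
  have hk0 : k = 0 := by omega
  subst hk0
  rw [mul_zero, ← MvPolynomial.totalDegree_zero_iff_isHomogeneous,
    MvPolynomial.totalDegree_eq_zero_iff_eq_C] at h
  obtain ⟨r, hr⟩ : ∃ r : ℤ, F = MvPolynomial.C r := ⟨_, h⟩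
  refine hs (r : ℚ) 1 ?_
  rw [hr]
  simp

private theorem Pair_sq {A B P : MvPolynomial (Fin 3) ℚ} (hco : IsRelPrime A B)
    (h : A * B = P ^ 2) : ∃ (c : ℚ) (Q : MvPolynomial (Fin 3) ℚ), A = MvPolynomial.C c * Q ^ 2 := by
  classical
  have : GCDMonoid (MvPolynomial (Fin 3) ℚ) := UniqueFactorizationMonoid.toGCDMonoid _
  obtain ⟨d, u, hd⟩ := exists_associated_pow_of_mul_eq_pow (gcd_isUnit_iff_isRelPrime.2 hco) h
  obtain ⟨c, hc, hcu⟩ := MvPolynomial.isUnit_iff_eq_C_of_isReduced.1 u.isUnit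
  refine ⟨c, d, ?_⟩
  rw [← hd, hcu, mul_comm]

/-- Consequences of `Pair`: both forms are nonzero of positive degree and their product is not a
square. (If `k₁ = 0` then `F₁` is a constant `= c 1^2`; `F₁ = 0 = 0 · 1^2` is excluded too; if
`F₁ F₂ = Q^2` over `ℚ`, as they are coprime in a UFD each is a unit times a square
(`exists_associated_pow_of_mul_eq_pow`, over a UFD/GCD monoid), units of `ℚ[x]` are constants.) -/
theorem Pair.basic {F₁ F₂ : MvPolynomial (Fin 3) ℤ} {k₁ k₂ : ℕ} (h : Pair F₁ F₂ k₁ k₂) :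
    F₁ ≠ 0 ∧ F₂ ≠ 0 ∧ 1 ≤ k₁ ∧ 1 ≤ k₂ ∧ NoRoot (sqf (F₁ * F₂)) := by
  refine ⟨Pair_ne h.s₁, Pair_ne h.s₂, Pair_pos h.h₁ h.s₁, Pair_pos h.h₂ h.s₂, ?_⟩
  intro P hP
  rw [sp_sqf] at hP
  have he : ∀ F : MvPolynomial (Fin 3) ℤ,
      MvPolynomial.eval₂ (Int.castRingHom (MvPolynomial (Fin 3) ℚ))
        (fun c => (MvPolynomial.X c : MvPolynomial (Fin 3) ℚ)) F =
      MvPolynomial.map (Int.castRingHom ℚ) F := by
    intro F
    rw [← MvPolynomial.coe_eval₂Hom]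
    congr 1
    apply MvPolynomial.ringHom_ext
    · intro r; simp
    · intro i; simp
  rw [he] at hP
  rw [map_mul, eval_sub, eval_pow, eval_X, eval_C] at hP
  obtain ⟨c, Q, hQ⟩ := Pair_sq h.co (sub_eq_zero.1 hP).symm
  exact h.s₁ c Q hQ

end Pool.MP_aab329_nt.SerreR
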