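import Pool.Agent.Lib.MP_aab329_nt.R.Main

set_option autoImplicit false

namespace Pool.MP_aab329_nt.SerreR

open Polynomial Real Pool.MP_aab329_nt.SerreP

private noncomputable def shv {R : Type*} [CommRing R] (a b : R) : Fin 3 → MvPolynomial (Fin 3) R :=
  ![MvPolynomial.X 0 + MvPolynomial.C a * MvPolynomial.X 2,
    MvPolynomial.X 1 + MvPolynomial.C b * MvPolynomial.X 2, MvPolynomial.X 2]

private noncomputable def sh {R : Type*} [CommRing R] (a b : R) (F : MvPolynomial (Fin 3) R) :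
    MvPolynomial (Fin 3) R := MvPolynomial.aeval (shv a b) F

private theorem sh_mul {R : Type*} [CommRing R] (a b : R) (F G : MvPolynomial (Fin 3) R) :
    sh a b (F * G) = sh a b F * sh a b G := map_mul _ _ _

private theorem sh_pow {R : Type*} [CommRing R] (a b : R) (F : MvPolynomial (Fin 3) R) (n : ℕ) :
    sh a b (F ^ n) = sh a b F ^ n := map_pow _ _ _

private theorem sh_C {R : Type*} [CommRing R] (a b c : R) :
    sh a b (MvPolynomial.C c) = MvPolynomial.C c := by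
  unfold sh; rw [MvPolynomial.aeval_C]; rfl

private theorem sh_eval {R : Type*} [CommRing R] (a b : R) (F : MvPolynomial (Fin 3) R)
    (x : Fin 3 → R) :
    MvPolynomial.eval x (sh a b F) = MvPolynomial.eval ![x 0 + a * x 2, x 1 + b * x 2, x 2] F := by
  have h : (MvPolynomial.eval x).comp (MvPolynomial.aeval (shv a b) :
      MvPolynomial (Fin 3) R →ₐ[R] MvPolynomial (Fin 3) R).toRingHom =
      MvPolynomial.eval ![x 0 + a * x 2, x 1 + b * x 2, x 2] := by
    apply MvPolynomial.ringHom_ext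
    · intro r; simp
    · intro i
      fin_cases i <;> simp [shv]
  have := congrArg (fun g : MvPolynomial (Fin 3) R →+* R => g F) h
  simpa [sh] using this

private theorem sh_hom {R : Type*} [CommRing R] (a b : R) {F : MvPolynomial (Fin 3) R} {n : ℕ}
    (hF : F.IsHomogeneous n) : (sh a b F).IsHomogeneous n := by
  have h := hF.aeval (shv a b) (n := 1) (by
    intro i
    have hX : ∀ j : Fin 3, (MvPolynomial.X j : MvPolynomial (Fin 3) R).IsHomogeneous 1 :=
      fun j => MvPolynomial.isHomogeneous_X _ _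
    have hCX : ∀ c : R, (MvPolynomial.C c * MvPolynomial.X 2 :
        MvPolynomial (Fin 3) R).IsHomogeneous 1 := by
      intro c
      have := (MvPolynomial.isHomogeneous_C (Fin 3) c).mul (hX 2)
      rwa [zero_add] at this
    fin_cases i
    · exact (hX 0).add (hCX a)
    · exact (hX 1).add (hCX b)
    · exact hX 2)
  rwa [one_mul] at h

private theorem sh_inv {R : Type*} [CommRing R] (a b : R) (F : MvPolynomial (Fin 3) R) :
    sh (-a) (-b) (sh a b F) = F := by
  have h : (MvPolynomial.aeval (shv (-a) (-b)) :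
      MvPolynomial (Fin 3) R →ₐ[R] MvPolynomial (Fin 3) R).comp (MvPolynomial.aeval (shv a b)) =
      AlgHom.id R _ := by
    apply MvPolynomial.algHom_ext
    intro i
    fin_cases i <;> simp [shv]
  have := congrArg (fun g : MvPolynomial (Fin 3) R →ₐ[R] MvPolynomial (Fin 3) R => g F) h
  simpa [sh] using this

private theorem sh_inv' {R : Type*} [CommRing R] (a b : R) (F : MvPolynomial (Fin 3) R) :
    sh a b (sh (-a) (-b) F) = F := by
  have := sh_inv (-a) (-b) F
  rwa [neg_neg, neg_neg] at this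

private theorem sh_map (a b : ℤ) (F : MvPolynomial (Fin 3) ℤ) :
    MvPolynomial.map (Int.castRingHom ℚ) (sh a b F) =
      sh (a : ℚ) (b : ℚ) (MvPolynomial.map (Int.castRingHom ℚ) F) := by
  have h : (MvPolynomial.map (Int.castRingHom ℚ)).comp (MvPolynomial.aeval (shv a b) :
      MvPolynomial (Fin 3) ℤ →ₐ[ℤ] MvPolynomial (Fin 3) ℤ).toRingHom =
      ((MvPolynomial.aeval (shv (a : ℚ) (b : ℚ)) :
      MvPolynomial (Fin 3) ℚ →ₐ[ℚ] MvPolynomial (Fin 3) ℚ).toRingHom).comp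
        (MvPolynomial.map (Int.castRingHom ℚ)) := by
    apply MvPolynomial.ringHom_ext
    · intro r; simp
    · intro i
      fin_cases i <;> simp [shv]
  have := congrArg (fun g : MvPolynomial (Fin 3) ℤ →+* MvPolynomial (Fin 3) ℚ => g F) h
  simpa [sh] using this

private theorem sh_pair {F₁ F₂ : MvPolynomial (Fin 3) ℤ} {k₁ k₂ : ℕ} (h : Pair F₁ F₂ k₁ k₂)
    (a b : ℤ) : Pair (sh a b F₁) (sh a b F₂) k₁ k₂ := by
  refine ⟨sh_hom a b h.h₁, sh_hom a b h.h₂, ?_, ?_, ?_⟩
  · rw [sh_map, sh_map]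
    intro d hd1 hd2
    have key : ∀ G : MvPolynomial (Fin 3) ℚ, d ∣ sh (a : ℚ) b G → sh (-(a : ℚ)) (-(b : ℚ)) d ∣ G := by
      rintro G ⟨e, he⟩
      refine ⟨sh (-(a : ℚ)) (-(b : ℚ)) e, ?_⟩
      rw [← sh_mul, ← he, sh_inv]
    have hu := h.co (key _ hd1) (key _ hd2)
    obtain ⟨e, he⟩ := hu.exists_right_inv
    refine IsUnit.of_mul_eq_one (sh (a : ℚ) b e) ?_
    have h2 := congrArg (sh (a : ℚ) (b : ℚ)) he
    rw [sh_mul, sh_inv'] at h2
    rw [h2]
    exact map_one _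
  · intro c Q hQ
    rw [sh_map] at hQ
    have h2 := congrArg (sh (-(a : ℚ)) (-(b : ℚ))) hQ
    rw [sh_inv, sh_mul, sh_pow, sh_C] at h2
    exact h.s₁ _ _ h2
  · intro c Q hQ
    rw [sh_map] at hQ
    have h2 := congrArg (sh (-(a : ℚ)) (-(b : ℚ))) hQ
    rw [sh_inv, sh_mul, sh_pow, sh_C] at h2
    exact h.s₂ _ _ h2

/-- A nonzero form does not vanish at some point `(a, b, 1)`. -/
private theorem exists_point {F : MvPolynomial (Fin 3) ℤ} {n : ℕ} (hF : F.IsHomogeneous n)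
    (h0 : F ≠ 0) : ∃ a b : ℤ, MvPolynomial.eval ![a, b, 1] F ≠ 0 := by
  by_contra hcon
  push Not at hcon
  -- the polynomial `F (X₀, X₁, 1)` is zero
  let v : Fin 3 → MvPolynomial (Fin 3) ℤ := ![MvPolynomial.X 0, MvPolynomial.X 1, 1]
  have hG : MvPolynomial.aeval v F = (0 : MvPolynomial (Fin 3) ℤ) := by
    apply MvPolynomial.funext
    intro x
    rw [map_zero]
    have h : (MvPolynomial.eval x).comp (MvPolynomial.aeval v :
        MvPolynomial (Fin 3) ℤ →ₐ[ℤ] MvPolynomial (Fin 3) ℤ).toRingHom =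
        MvPolynomial.eval ![x 0, x 1, 1] := by
      apply MvPolynomial.ringHom_ext
      · intro r; simp
      · intro i
        fin_cases i <;> simp [v]
    have h2 := congrArg (fun g : MvPolynomial (Fin 3) ℤ →+* ℤ => g F) h
    have h3 : MvPolynomial.eval x (MvPolynomial.aeval v F) = MvPolynomial.eval ![x 0, x 1, 1] F := by
      simpa using h2
    rw [h3]
    exact hcon _ _
  -- hence over the rationals
  have hQ : ∀ p q : ℚ, MvPolynomial.eval₂ (Int.castRingHom ℚ) ![p, q, 1] F = 0 := by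
    intro p q
    have h : (MvPolynomial.eval₂Hom (Int.castRingHom ℚ) ![p, q, 0]).comp (MvPolynomial.aeval v :
        MvPolynomial (Fin 3) ℤ →ₐ[ℤ] MvPolynomial (Fin 3) ℤ).toRingHom =
        MvPolynomial.eval₂Hom (Int.castRingHom ℚ) ![p, q, 1] := by
      apply MvPolynomial.ringHom_ext
      · intro r; simp
      · intro i
        fin_cases i <;> simp [v]
    have h2 := congrArg (fun g : MvPolynomial (Fin 3) ℤ →+* ℚ => g F) h
    have h3 : MvPolynomial.eval₂ (Int.castRingHom ℚ) ![p, q, 0] (MvPolynomial.aeval v F) =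
        MvPolynomial.eval₂ (Int.castRingHom ℚ) ![p, q, 1] F := by
      simpa using h2
    rw [← h3, hG]
    simp
  have hQ2 : ∀ x : Fin 3 → ℚ, x 2 ≠ 0 → MvPolynomial.eval₂ (Int.castRingHom ℚ) x F = 0 := by
    intro x hx
    have h1 := eval₂_smul_hom hF (x 2) ![x 0 / x 2, x 1 / x 2, 1]
    rw [hQ, mul_zero] at h1
    rw [← h1]
    congr 1
    funext i
    fin_cases i
    · show x 0 = x 2 * (x 0 / x 2); field_simp
    · show x 1 = x 2 * (x 1 / x 2); field_simp
    · show x 2 = x 2 * 1; ring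
  have hz : MvPolynomial.map (Int.castRingHom ℚ) F * MvPolynomial.X 2 = 0 := by
    apply MvPolynomial.funext
    intro x
    rw [map_zero, map_mul, MvPolynomial.eval_X, MvPolynomial.eval_map]
    by_cases hx : x 2 = 0
    · rw [hx, mul_zero]
    · rw [hQ2 x hx, zero_mul]
  rcases mul_eq_zero.mp hz with h1 | h1
  · apply h0
    apply MvPolynomial.map_injective (Int.castRingHom ℚ) Int.cast_injective
    rw [h1, map_zero]
  · exact MvPolynomial.X_ne_zero _ h1

private theorem mx_le_iff' (B : ℕ) (x : Fin 3 → ℤ) : mx x ≤ B ↔ ∀ i, |x i| ≤ (B : ℤ) := by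
  unfold mx
  rw [Finset.sup_le_iff]
  constructor
  · intro h i
    have := h i (Finset.mem_univ i)
    rw [Int.abs_eq_natAbs]; exact_mod_cast this
  · intro h i _
    have := h i
    rw [Int.abs_eq_natAbs] at this; exact_mod_cast this

private theorem box_finite (B : ℕ) (P : (Fin 3 → ℤ) → Prop) (h : ∀ x, P x → mx x ≤ B) :
    {x | P x}.Finite := by
  apply Set.Finite.subset (Set.Finite.pi' (fun _ : Fin 3 => Set.finite_Icc (-(B : ℤ)) B))
  intro x hx i
  have := (mx_le_iff' B x).1 (h x hx) i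
  rw [abs_le] at this
  exact ⟨this.1, this.2⟩

private theorem count_shear (F₁ F₂ : MvPolynomial (Fin 3) ℤ) (a b : ℤ) (B K : ℕ)
    (hK : 1 + a.natAbs + b.natAbs ≤ K) :
    {x : Fin 3 → ℤ | prim x ∧ mx x ≤ B ∧
        IsSquare (MvPolynomial.eval x F₁ * MvPolynomial.eval x F₂)}.ncard ≤
    {x : Fin 3 → ℤ | prim x ∧ mx x ≤ K * B ∧
        IsSquare (MvPolynomial.eval x (sh a b F₁) * MvPolynomial.eval x (sh a b F₂))}.ncard := by
  refine Set.ncard_le_ncard_of_injOn (fun x : Fin 3 → ℤ => ![x 0 - a * x 2, x 1 - b * x 2, x 2])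
    ?_ ?_ (box_finite (K * B) _ (fun x hx => hx.2.1))
  · rintro x ⟨hp, hm, hs⟩
    refine ⟨?_, ?_, ?_⟩
    · unfold prim at hp ⊢
      rw [← Finset.normalize_gcd]
      apply normalize_eq_one.mpr
      apply isUnit_of_dvd_one
      rw [← hp]
      have hd : ∀ i, Finset.univ.gcd ![x 0 - a * x 2, x 1 - b * x 2, x 2] ∣
          ![x 0 - a * x 2, x 1 - b * x 2, x 2] i := fun i => Finset.gcd_dvd (Finset.mem_univ i)
      have d0 : Finset.univ.gcd ![x 0 - a * x 2, x 1 - b * x 2, x 2] ∣ x 0 - a * x 2 := hd 0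
      have d1 : Finset.univ.gcd ![x 0 - a * x 2, x 1 - b * x 2, x 2] ∣ x 1 - b * x 2 := hd 1
      have d2 : Finset.univ.gcd ![x 0 - a * x 2, x 1 - b * x 2, x 2] ∣ x 2 := hd 2
      apply Finset.dvd_gcd
      intro i _
      fin_cases i
      · show _ ∣ x 0
        have := dvd_add d0 (Dvd.dvd.mul_left d2 a)
        rwa [sub_add_cancel] at this
      · show _ ∣ x 1
        have := dvd_add d1 (Dvd.dvd.mul_left d2 b)
        rwa [sub_add_cancel] at this
      · exact d2
    · rw [mx_le_iff'] at hm ⊢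
      have h0 := hm 0
      have h1 := hm 1
      have h2 := hm 2
      have hKZ : 1 + |a| + |b| ≤ (K : ℤ) := by
        rw [Int.abs_eq_natAbs, Int.abs_eq_natAbs]; exact_mod_cast hK
      have hB0 : (0 : ℤ) ≤ B := Int.natCast_nonneg B
      have ha0 := abs_nonneg a
      have hb0 := abs_nonneg b
      have hax : |a * x 2| ≤ |a| * B := by
        rw [abs_mul]; exact mul_le_mul_of_nonneg_left h2 ha0
      have hbx : |b * x 2| ≤ |b| * B := by
        rw [abs_mul]; exact mul_le_mul_of_nonneg_left h2 hb0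
      have hKB : (1 + |a| + |b|) * (B : ℤ) ≤ K * B := mul_le_mul_of_nonneg_right hKZ hB0
      have haB : 0 ≤ |a| * (B : ℤ) := mul_nonneg ha0 hB0
      have hbB : 0 ≤ |b| * (B : ℤ) := mul_nonneg hb0 hB0
      intro i
      push_cast
      fin_cases i
      · show |x 0 - a * x 2| ≤ _
        have := abs_sub (x 0) (a * x 2)
        linarith
      · show |x 1 - b * x 2| ≤ _
        have := abs_sub (x 1) (b * x 2)
        linarith
      · show |x 2| ≤ _
        linarith
    · have e : ∀ F : MvPolynomial (Fin 3) ℤ,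
          MvPolynomial.eval ![x 0 - a * x 2, x 1 - b * x 2, x 2] (sh a b F) =
            MvPolynomial.eval x F := by
        intro F
        rw [sh_eval]
        congr 1
        have : (![(![x 0 - a * x 2, x 1 - b * x 2, x 2] : Fin 3 → ℤ) 0 +
            a * (![x 0 - a * x 2, x 1 - b * x 2, x 2] : Fin 3 → ℤ) 2,
            (![x 0 - a * x 2, x 1 - b * x 2, x 2] : Fin 3 → ℤ) 1 +
            b * (![x 0 - a * x 2, x 1 - b * x 2, x 2] : Fin 3 → ℤ) 2,
            (![x 0 - a * x 2, x 1 - b * x 2, x 2] : Fin 3 → ℤ) 2] : Fin 3 → ℤ) = x := by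
          funext i
          fin_cases i <;> simp
        rw [this]
      show IsSquare (MvPolynomial.eval ![x 0 - a * x 2, x 1 - b * x 2, x 2] (sh a b F₁) *
        MvPolynomial.eval ![x 0 - a * x 2, x 1 - b * x 2, x 2] (sh a b F₂))
      rw [e, e]
      exact hs
  · intro x _ y _ hxy
    have h0 : x 0 - a * x 2 = y 0 - a * y 2 := congrFun hxy 0
    have h1 : x 1 - b * x 2 = y 1 - b * y 2 := congrFun hxy 1
    have h2 : x 2 = y 2 := congrFun hxy 2
    rw [h2] at h0 h1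
    funext i
    fin_cases i
    · show x 0 = y 0; linarith
    · show x 1 = y 1; linarith
    · exact h2

private theorem main_le {F₁ F₂ : MvPolynomial (Fin 3) ℤ} {k₁ k₂ : ℕ} (h : Pair F₁ F₂ k₁ k₂)
    (hk : k₁ ≤ k₂) :
    ∃ (c : ℕ) (C : ℝ), 0 < C ∧ ∀ B : ℕ, 3 ≤ B →
      ({x : Fin 3 → ℤ | prim x ∧ mx x ≤ B ∧
        IsSquare (MvPolynomial.eval x F₁ * MvPolynomial.eval x F₂)}.ncard : ℝ) ≤
        C * (B : ℝ) ^ 2 * (log B) ^ c := by
  obtain ⟨a, b, hab⟩ := exists_point h.h₁ h.basic.1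
  have hn : MvPolynomial.eval ![0, 0, 1] (sh a b F₁) ≠ 0 := by
    rw [sh_eval]
    have : (![(![0, 0, 1] : Fin 3 → ℤ) 0 + a * (![0, 0, 1] : Fin 3 → ℤ) 2,
        (![0, 0, 1] : Fin 3 → ℤ) 1 + b * (![0, 0, 1] : Fin 3 → ℤ) 2,
        (![0, 0, 1] : Fin 3 → ℤ) 2] : Fin 3 → ℤ) = ![a, b, 1] := by
      funext i
      fin_cases i <;> simp
    rw [this]
    exact hab
  obtain ⟨c, C, hC, hmain⟩ := main_001 (sh_pair h a b) hk hn
  obtain ⟨K, hK⟩ : ∃ K : ℕ, K = 1 + a.natAbs + b.natAbs := ⟨_, rfl⟩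
  have hK1 : 1 ≤ K := by omega
  have hKR : (1 : ℝ) ≤ K := by exact_mod_cast hK1
  have hlK : 0 ≤ log (K : ℝ) := Real.log_nonneg hKR
  refine ⟨c, C * (K : ℝ) ^ 2 * (log K + 1) ^ c, by positivity, ?_⟩
  intro B hB
  have h1 : ({x : Fin 3 → ℤ | prim x ∧ mx x ≤ B ∧
        IsSquare (MvPolynomial.eval x F₁ * MvPolynomial.eval x F₂)}.ncard : ℝ) ≤
      ({x : Fin 3 → ℤ | prim x ∧ mx x ≤ K * B ∧
        IsSquare (MvPolynomial.eval x (sh a b F₁) * MvPolynomial.eval x (sh a b F₂))}.ncard : ℝ) := by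
    exact_mod_cast count_shear F₁ F₂ a b B K (by omega)
  have h2 := hmain (K * B) (by nlinarith)
  refine (h1.trans h2).trans ?_
  have hBR : (3 : ℝ) ≤ B := by exact_mod_cast hB
  have hB0 : (0 : ℝ) < B := by linarith
  have hK0 : (0 : ℝ) < K := by linarith
  have hlB : 1 ≤ log (B : ℝ) := by
    rw [Real.le_log_iff_exp_le hB0]
    have := Real.exp_one_lt_d9
    linarith
  have h3 : log (((K * B : ℕ) : ℝ)) ≤ (log K + 1) * log B := by
    push_cast
    rw [Real.log_mul hK0.ne' hB0.ne']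
    nlinarith
  have h4 : 0 ≤ log (((K * B : ℕ) : ℝ)) := by
    apply Real.log_nonneg
    push_cast
    nlinarith
  have h5 : (log (((K * B : ℕ) : ℝ))) ^ c ≤ ((log K + 1) * log B) ^ c := pow_le_pow_left₀ h4 h3 c
  calc C * (((K * B : ℕ) : ℝ)) ^ 2 * (log (((K * B : ℕ) : ℝ))) ^ c
      ≤ C * (((K * B : ℕ) : ℝ)) ^ 2 * ((log K + 1) * log B) ^ c :=
        mul_le_mul_of_nonneg_left h5 (by positivity)
    _ = C * (K : ℝ) ^ 2 * (log K + 1) ^ c * (B : ℝ) ^ 2 * (log B) ^ c := by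
        push_cast; rw [mul_pow, mul_pow]; ring

/-- The general count. Proof: by symmetry `k₁ ≤ k₂`. Choose integers `a, b` with
`F₁(a, b, 1) ≠ 0`; the forms `F_i'(x) = F_i(x₀ + a x₂, x₁ + b x₂, x₂)` satisfy `Pair` (the shear is
an automorphism of `ℚ[x]`) and `F₁'(0, 0, 1) = F₁(a, b, 1)`; the map
`x ↦ (x₀ - a x₂, x₁ - b x₂, x₂)` is injective, keeps `prim` and multiplies the height by at most
`1 + max |a| |b|`; `main_001` for `F₁', F₂'` at `K B`, `log (K B) ≤ (log K + 1) log B`. -/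
theorem main_int {F₁ F₂ : MvPolynomial (Fin 3) ℤ} {k₁ k₂ : ℕ} (h : Pair F₁ F₂ k₁ k₂) :
    ∃ (c : ℕ) (C : ℝ), 0 < C ∧ ∀ B : ℕ, 3 ≤ B →
      ({x : Fin 3 → ℤ | prim x ∧ mx x ≤ B ∧
        IsSquare (MvPolynomial.eval x F₁ * MvPolynomial.eval x F₂)}.ncard : ℝ) ≤
        C * (B : ℝ) ^ 2 * (log B) ^ c := by
  rcases le_total k₁ k₂ with hk | hk
  · exact main_le h hk
  · obtain ⟨c, C, hC, hmain⟩ := main_le (⟨h.h₂, h.h₁, h.co.symm, h.s₂, h.s₁⟩ : Pair F₂ F₁ k₂ k₁) hk
    refine ⟨c, C, hC, ?_⟩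
    intro B hB
    have h1 := hmain B hB
    have e : {x : Fin 3 → ℤ | prim x ∧ mx x ≤ B ∧
        IsSquare (MvPolynomial.eval x F₁ * MvPolynomial.eval x F₂)} =
        {x : Fin 3 → ℤ | prim x ∧ mx x ≤ B ∧
        IsSquare (MvPolynomial.eval x F₂ * MvPolynomial.eval x F₁)} := by
      ext x
      rw [Set.mem_ofPred_eq, Set.mem_ofPred_eq, mul_comm]
    rw [e]
    exact h1

end Pool.MP_aab329_nt.SerreR
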